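import Mathlib

set_option autoImplicit false
set_option linter.unusedSectionVars false

open Finset

namespace Pool.Agent.Helper705

variable {V : Type*} [AddCommGroup V] [Module (ZMod 2) V]

/-- no nonempty zero-sum subset -/
def Ind (A : Finset V) : Prop := ∀ X ⊆ A, ∑ x ∈ X, x = 0 → X = ∅

/-- minimal nonempty zero-sum set -/
def Circ (C : Finset V) : Prop :=
  C.Nonempty ∧ ∑ x ∈ C, x = 0 ∧ ∀ X ⊆ C, ∑ x ∈ X, x = 0 → X = ∅ ∨ X = C

lemma aself (x : V) : x + x = 0 := ZModModule.add_self x

lemma zmod2_cases (a : ZMod 2) : a = 0 ∨ a = 1 := by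
  revert a; decide

lemma zmod2_ne (a : ZMod 2) : a ≠ 0 ↔ a = 1 := by
  revert a; decide

lemma add_eq_zero_iff' (x y : V) : x + y = 0 ↔ x = y := by
  constructor
  · intro h
    have : x + y + y = y := by rw [h, zero_add]
    rwa [add_assoc, aself, add_zero] at this
  · rintro rfl; exact aself x

lemma add_cancel_left (x y : V) : x + (x + y) = y := by
  rw [← add_assoc, aself, zero_add]

lemma add_cancel_right (x y : V) : x + y + y = x := by
  rw [add_assoc, aself, add_zero]

lemma eq_add_iff (x y z : V) : x = y + z ↔ x + y = z := by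
  constructor
  · rintro rfl; rw [add_comm y z, add_assoc, aself, add_zero]
  · rintro rfl; rw [add_comm y (x + y), add_assoc, aself, add_zero]

lemma Ind.mono {A B : Finset V} (h : Ind B) (hAB : A ⊆ B) : Ind A :=
  fun X hX => h X (hX.trans hAB)

section
variable [DecidableEq V]

lemma sum_symmDiff (X Y : Finset V) :
    ∑ x ∈ symmDiff X Y, x = ∑ x ∈ X, x + ∑ x ∈ Y, x := by
  have h1 : ∑ x ∈ X, x = ∑ x ∈ X \ Y, x + ∑ x ∈ X ∩ Y, x := by
    rw [← Finset.sum_union (disjoint_sdiff_inter X Y), sdiff_union_inter]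
  have h2 : ∑ x ∈ Y, x = ∑ x ∈ Y \ X, x + ∑ x ∈ X ∩ Y, x := by
    rw [Finset.inter_comm, ← Finset.sum_union (disjoint_sdiff_inter Y X), sdiff_union_inter]
  have h3 : ∑ x ∈ symmDiff X Y, x = ∑ x ∈ X \ Y, x + ∑ x ∈ Y \ X, x := by
    rw [symmDiff_def, Finset.sup_eq_union, Finset.sum_union]
    exact disjoint_sdiff_sdiff
  rw [h1, h2, h3]
  have := aself (∑ x ∈ X ∩ Y, x)
  calc _ = ∑ x ∈ X \ Y, x + ∑ x ∈ Y \ X, x + (∑ x ∈ X ∩ Y, x + ∑ x ∈ X ∩ Y, x) := by
        rw [this, add_zero]
    _ = _ := by abel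

lemma Ind.sum_inj {A X Y : Finset V} (h : Ind A) (hX : X ⊆ A) (hY : Y ⊆ A)
    (he : ∑ x ∈ X, x = ∑ x ∈ Y, x) : X = Y := by
  have h1 : ∑ x ∈ symmDiff X Y, x = 0 := by
    rw [sum_symmDiff, he, aself]
  have h2 : symmDiff X Y ⊆ A := by
    intro z hz
    rw [Finset.mem_symmDiff] at hz
    rcases hz with hz | hz
    · exact hX hz.1
    · exact hY hz.1
  have h3 := h _ h2 h1
  have h4 : symmDiff X Y = ⊥ := by rw [h3]; rfl
  exact symmDiff_eq_bot.mp h4

lemma mem_span_iff (A : Finset V) (z : V) :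
    z ∈ Submodule.span (ZMod 2) (A : Set V) ↔ ∃ X ⊆ A, ∑ x ∈ X, x = z := by
  constructor
  · intro h
    rw [Submodule.mem_span_finset] at h
    obtain ⟨f, hf, hz⟩ := h
    refine ⟨A.filter (fun a => f a = 1), filter_subset _ _, ?_⟩
    rw [← hz, Finset.sum_filter]
    apply Finset.sum_congr rfl
    intro a _
    rcases zmod2_cases (f a) with h | h
    · simp [h]
    · simp [h]
  · rintro ⟨X, hX, rfl⟩
    apply Submodule.sum_mem
    intro x hx
    exact Submodule.subset_span (hX hx)

lemma ind_iff (A : Finset V) : Ind A ↔ LinearIndepOn (ZMod 2) id (A : Set V) := by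
  rw [linearIndepOn_finset_iff]
  constructor
  · intro h f hf i hi
    have h1 : ∑ x ∈ A.filter (fun a => f a = 1), x = 0 := by
      rw [← hf, Finset.sum_filter]
      apply Finset.sum_congr rfl
      intro a _
      rcases zmod2_cases (f a) with h | h
      · simp [h]
      · simp [h]
    have h2 := h _ (filter_subset _ _) h1
    rcases zmod2_cases (f i) with h3 | h3
    · exact h3
    · have : i ∈ A.filter (fun a => f a = 1) := by simp [hi, h3]
      rw [h2] at this
      simp at this
  · intro h X hX hs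
    have h1 := h (fun a => if a ∈ X then 1 else 0) (by
      rw [← hs]
      simp only [id, ite_smul, one_smul, zero_smul]
      rw [← Finset.sum_filter]
      apply Finset.sum_congr _ (fun _ _ => rfl)
      ext a
      simp only [mem_filter]
      exact ⟨fun h => h.2, fun h => ⟨hX h, h⟩⟩)
    rw [Finset.eq_empty_iff_forall_notMem]
    intro x hx
    have := h1 x (hX hx)
    simp [hx] at this

lemma zero_notMem {A : Finset V} (h : Ind A) : (0 : V) ∉ A := by
  intro h0
  have := h {0} (by simpa using h0) (by simp)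
  simp at this

lemma ind_insert {A : Finset V} {z : V} (h : Ind A)
    (hz : z ∉ Submodule.span (ZMod 2) (A : Set V)) : Ind (insert z A) := by
  intro X hX hs
  by_cases hzX : z ∈ X
  · exfalso
    apply hz
    rw [mem_span_iff]
    refine ⟨X.erase z, ?_, ?_⟩
    · intro x hx
      rw [mem_erase] at hx
      have := hX hx.2
      rw [mem_insert] at this
      tauto
    · have := Finset.add_sum_erase X (fun x => x) hzX
      rw [hs, add_eq_zero_iff'] at this
      exact this.symm
  · apply h X _ hs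
    intro x hx
    have := hX hx
    rw [mem_insert] at this
    rcases this with rfl | h
    · exact absurd hx hzX
    · exact h

lemma not_mem_span_of_ind_insert {A : Finset V} {z : V} (h : Ind (insert z A)) (hz : z ∉ A) :
    z ∉ Submodule.span (ZMod 2) (A : Set V) := by
  rw [mem_span_iff]
  rintro ⟨X, hX, hs⟩
  have hzX : z ∉ X := fun h => hz (hX h)
  have := h (insert z X) (insert_subset_insert z hX) (by
    rw [Finset.sum_insert hzX, hs, aself])
  simp at this

omit [DecidableEq V] in
lemma exists_dual {p : Submodule (ZMod 2) V} {z : V} (hz : z ∉ p) :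
    ∃ h : V →ₗ[ZMod 2] ZMod 2, h z = 1 ∧ ∀ a ∈ p, h a = 0 := by
  obtain ⟨f, hf, hp⟩ := Submodule.exists_le_ker_of_notMem hz
  refine ⟨f, (zmod2_ne _).1 hf, fun a ha => ?_⟩
  have := hp ha
  simpa using this

lemma exists_coord {B : Finset V} (hB : Ind B) {i : V} (hi : i ∈ B) :
    ∃ h : V →ₗ[ZMod 2] ZMod 2, h i = 1 ∧ ∀ a ∈ B, a ≠ i → h a = 0 := by
  have h1 : i ∉ Submodule.span (ZMod 2) ((B.erase i : Finset V) : Set V) := by
    apply not_mem_span_of_ind_insert
    · rw [Finset.insert_erase hi]; exact hB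
    · simp
  obtain ⟨h, h2, h3⟩ := exists_dual h1
  refine ⟨h, h2, fun a ha hne => h3 a (Submodule.subset_span ?_)⟩
  simp [ha, hne]

lemma Circ.sum_erase {C : Finset V} (hC : Circ C) {x : V} (hx : x ∈ C) :
    ∑ y ∈ C.erase x, y = x := by
  have := Finset.add_sum_erase C (fun x => x) hx
  rw [hC.2.1, add_eq_zero_iff'] at this
  exact this.symm

lemma Circ.ind_of_ssubset {C A : Finset V} (hC : Circ C) (hA : A ⊂ C) : Ind A := by
  intro X hX hs
  rcases hC.2.2 X (hX.trans hA.1) hs with h | h
  · exact h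
  · exfalso
    subst h
    exact hA.2 hX

lemma Circ.ind_erase {C : Finset V} (hC : Circ C) {x : V} (hx : x ∈ C) : Ind (C.erase x) :=
  hC.ind_of_ssubset (Finset.erase_ssubset hx)

lemma Circ.not_ind {C : Finset V} (hC : Circ C) : ¬ Ind C := by
  intro h
  have := h C (Finset.Subset.refl _) hC.2.1
  exact hC.1.ne_empty this

lemma circ_insert {A : Finset V} (h : Ind A) (h2 : ∑ x ∈ A, x ∉ A) :
    Circ (insert (∑ x ∈ A, x) A) := by
  refine ⟨by simp, ?_, ?_⟩
  · rw [Finset.sum_insert h2, aself]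
  · intro X hX hs
    by_cases hx : (∑ x ∈ A, x) ∈ X
    · right
      have h3 : X.erase (∑ x ∈ A, x) ⊆ A := by
        intro y hy
        rw [mem_erase] at hy
        have := hX hy.2
        rw [mem_insert] at this
        tauto
      have h4 : ∑ y ∈ X.erase (∑ x ∈ A, x), y = ∑ x ∈ A, x := by
        have := Finset.add_sum_erase X (fun x => x) hx
        rw [hs, add_eq_zero_iff'] at this
        exact this.symm
      have h5 := h.sum_inj h3 (Finset.Subset.refl _) h4
      rw [← Finset.insert_erase hx, h5]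
    · left
      apply h X _ hs
      intro y hy
      have := hX hy
      rw [mem_insert] at this
      rcases this with rfl | h
      · exact absurd hy hx
      · exact h

lemma sum_notMem {A : Finset V} (h : Ind A) (h2 : 2 ≤ A.card) : ∑ x ∈ A, x ∉ A := by
  intro hx
  have h4 : ∑ y ∈ A.erase (∑ x ∈ A, x), y = 0 := by
    have := Finset.add_sum_erase A (fun x => x) hx
    have h5 : ∑ x ∈ A, x + ∑ x ∈ A.erase (∑ x ∈ A, x), x = ∑ x ∈ A, x + 0 := by
      rw [this, add_zero]
    exact add_left_cancel h5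
  have h6 := h _ (Finset.erase_subset _ _) h4
  have h7 := Finset.card_erase_of_mem hx
  rw [h6, card_empty] at h7
  omega

omit [DecidableEq V] in
lemma exists_circ_subset {X : Finset V} (hX : X.Nonempty) (hs : ∑ x ∈ X, x = 0) :
    ∃ C ⊆ X, Circ C := by
  classical
  induction X using Finset.strongInduction with
  | H X ih =>
    by_cases hc : ∀ Y ⊆ X, ∑ x ∈ Y, x = 0 → Y = ∅ ∨ Y = X
    · exact ⟨X, Finset.Subset.refl _, hX, hs, hc⟩
    · push Not at hc
      obtain ⟨Y, hY, hY0, hYne, hYX⟩ := hc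
      obtain ⟨C, hC, hC2⟩ := ih Y (hY.ssubset_of_ne hYX)
        hYne hY0
      exact ⟨C, hC.trans hY, hC2⟩

end

end Pool.Agent.Helper705
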