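import Mathlib

set_option autoImplicit false

namespace Pool.Agent.Helper705

/-- sum over the positions of a list -/
def sumT (g : ℕ → List ℕ → ℕ) (l : List ℕ) : ℕ :=
  List.rec 0 (fun a l' ih => Nat.add (g a l') ih) l

/-- bit mask of a list of codes -/
def mask : List ℕ → ℕ
  | [] => 0
  | a :: l => 2 ^ a ||| mask l

/-- bit test in raw form -/
def tb (M x : ℕ) : Bool := Nat.beq (Nat.land (Nat.shiftRight M x) 1) 1

def wt2 (c M a b : ℕ) : ℕ := cond (tb M (Nat.xor a b)) c 0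

def wt3 (c M a b d : ℕ) : ℕ := cond (tb M (Nat.xor (Nat.xor a b) d)) c 0

/-- independent triples, weight 3 or 6 -/
def wi3 (M a b d : ℕ) : ℕ :=
  cond (Nat.beq (Nat.xor (Nat.xor a b) d) 0) 0 (cond (tb M (Nat.xor (Nat.xor a b) d)) 3 6)

/-- independent quadruples, weight 12 or 24 -/
def wi4 (M a b d e : ℕ) : ℕ :=
  cond (Nat.beq (Nat.xor (Nat.xor a b) d) 0) 0
  (cond (Nat.beq (Nat.xor (Nat.xor a b) e) 0) 0
  (cond (Nat.beq (Nat.xor (Nat.xor a d) e) 0) 0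
  (cond (Nat.beq (Nat.xor (Nat.xor b d) e) 0) 0
  (cond (Nat.beq (Nat.xor (Nat.xor (Nat.xor a b) d) e) 0) 0
  (cond (tb M (Nat.xor (Nat.xor (Nat.xor a b) d) e)) 12 24)))))

def cntBit (i : ℕ) (l : List ℕ) : ℕ :=
  List.rec 0 (fun a _ ih => Nat.add (cond (tb a i) 1 0) ih) l

def S2 (c M : ℕ) (L : List ℕ) : ℕ := sumT (fun a l1 => sumT (fun b _ => wt2 c M a b) l1) L
def S3 (c M : ℕ) (L : List ℕ) : ℕ :=
  sumT (fun a l1 => sumT (fun b l2 => sumT (fun d _ => wt3 c M a b d) l2) l1) L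
def I3 (M : ℕ) (L : List ℕ) : ℕ :=
  sumT (fun a l1 => sumT (fun b l2 => sumT (fun d _ => wi3 M a b d) l2) l1) L
def I4 (M : ℕ) (L : List ℕ) : ℕ :=
  sumT (fun a l1 => sumT (fun b l2 => sumT (fun d l3 =>
      sumT (fun e _ => wi4 M a b d e) l3) l2) l1) L

def chk4 (L : List ℕ) (M : ℕ) : Bool :=
  cond (Nat.ble (cntBit 0 L) 1) true (cond (Nat.ble (cntBit 1 L) 1) true
  (cond (Nat.ble (cntBit 2 L) 1) true (cond (Nat.ble (cntBit 3 L) 1) true
  (Nat.ble (Nat.add (S2 20 M L) (S3 15 M L)) (I4 M L)))))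

def chk3 (L : List ℕ) (M : ℕ) : Bool :=
  cond (Nat.ble (cntBit 0 L) 1) true (cond (Nat.ble (cntBit 1 L) 1) true
  (cond (Nat.ble (cntBit 2 L) 1) true
  (Nat.ble (S2 4 M L) (I3 M L))))

def force (f : ℕ → Bool) (n : ℕ) : Bool := Nat.rec true (fun m _ => f (Nat.succ m)) n

def allSub (chk : List ℕ → ℕ → Bool) : List ℕ → List ℕ → Bool
  | [], L => force (chk L) (mask L)
  | e :: E, L => cond (allSub chk E (e :: L)) (allSub chk E L) false

lemma check3 : allSub chk3 [3, 5, 6, 7] [1, 2, 4] = true := by decide +kernel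

end Pool.Agent.Helper705
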