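import Pool.Agent.Helper705.Check

set_option autoImplicit false

namespace Pool.Agent.Helper705

lemma c4_0 : allSub chk4 [3, 5, 6, 7, 9, 10, 11, 12] [1, 2, 4, 8] = true := by decide +kernel
lemma c4_1 : allSub chk4 [3, 5, 6, 7, 9, 10, 11, 12] [13, 1, 2, 4, 8] = true := by decide +kernel
lemma c4_2 : allSub chk4 [3, 5, 6, 7, 9, 10, 11, 12] [14, 1, 2, 4, 8] = true := by decide +kernel
lemma c4_3 : allSub chk4 [3, 5, 6, 7, 9, 10, 11, 12] [13, 14, 1, 2, 4, 8] = true := by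
  decide +kernel
lemma c4_4 : allSub chk4 [3, 5, 6, 7, 9, 10, 11, 12] [15, 1, 2, 4, 8] = true := by decide +kernel
lemma c4_5 : allSub chk4 [3, 5, 6, 7, 9, 10, 11, 12] [13, 15, 1, 2, 4, 8] = true := by
  decide +kernel
lemma c4_6 : allSub chk4 [3, 5, 6, 7, 9, 10, 11, 12] [14, 15, 1, 2, 4, 8] = true := by
  decide +kernel
lemma c4_7 : allSub chk4 [3, 5, 6, 7, 9, 10, 11, 12] [13, 14, 15, 1, 2, 4, 8] = true := by
  decide +kernel

lemma allSub_cons (chk : List ℕ → ℕ → Bool) (e : ℕ) (E L : List ℕ) :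
    allSub chk (e :: E) L = (allSub chk E (e :: L) && allSub chk E L) := by
  show cond _ _ _ = _
  cases allSub chk E (e :: L) <;> rfl

lemma check4 : allSub chk4 [15, 14, 13, 3, 5, 6, 7, 9, 10, 11, 12] [1, 2, 4, 8] = true := by
  rw [allSub_cons, allSub_cons, allSub_cons, allSub_cons chk4 14, allSub_cons chk4 13,
    allSub_cons chk4 13, allSub_cons chk4 13, c4_0, c4_1, c4_2, c4_3, c4_4, c4_5, c4_6, c4_7]
  rfl

end Pool.Agent.Helper705
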