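import Pool.Agent.Helper705.Rank

set_option autoImplicit false
set_option linter.unusedSectionVars false

open Finset

namespace Pool.Agent.Helper705

variable {V : Type*} [AddCommGroup V] [Module (ZMod 2) V] [DecidableEq V]

/-- the target inequality -/
def T (S : Finset V) : Prop := (rk S + 1) * (circs S).card ≤ 2 * (bases S).card

open Classical in
/-- number of circuits of a given size -/
noncomputable def cN (S : Finset V) (k : ℕ) : ℕ := ((circs S).filter (fun C => C.card = k)).card

lemma mem_span_erase {S : Finset V} (h : NoColoop S) {e : V} (he : e ∈ S) :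
    e ∈ Submodule.span (ZMod 2) ((S.erase e : Finset V) : Set V) := by
  by_contra hne
  obtain ⟨f, hf, hf0⟩ := exists_dual hne
  have h1 := h f ⟨e, he, by rw [hf]; exact one_ne_zero⟩
  have h2 : S.filter (fun z => f z ≠ 0) ⊆ {e} := by
    intro z hz
    rw [mem_filter] at hz
    rw [mem_singleton]
    by_contra hze
    apply hz.2
    apply hf0
    apply Submodule.subset_span
    simp [hz.1, hze]
  have h3 := Finset.card_le_card h2
  rw [Finset.card_singleton] at h3
  omega

lemma rk_eq_of_span {S S' : Finset V}
    (h : Submodule.span (ZMod 2) (S : Set V) = Submodule.span (ZMod 2) (S' : Set V)) :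
    rk S = rk S' := by
  unfold rk Set.finrank
  rw [h]

lemma rk_erase {S : Finset V} (h : NoColoop S) {e : V} (he : e ∈ S) :
    rk (S.erase e) = rk S := by
  apply rk_eq_of_span
  apply le_antisymm
  · apply Submodule.span_mono
    intro z hz
    simp only [coe_erase, Set.mem_sdiff] at hz
    exact hz.1
  · rw [Submodule.span_le]
    intro z hz
    by_cases hze : z = e
    · subst hze; exact mem_span_erase h he
    · apply Submodule.subset_span
      simpa [hze] using hz

open Classical in
lemma circs_erase (S : Finset V) (e : V) :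
    circs (S.erase e) = (circs S).filter (fun C => e ∉ C) := by
  ext C
  rw [mem_filter, mem_circs, mem_circs, Finset.subset_erase]
  tauto

open Classical in
lemma bases_erase {S : Finset V} {e : V} (h : rk (S.erase e) = rk S) :
    bases (S.erase e) = (bases S).filter (fun C => e ∉ C) := by
  ext C
  rw [mem_filter, mem_bases, mem_bases, Finset.subset_erase, h]
  tauto

lemma Cosimple.noColoop {S : Finset V} (h : Cosimple S) : NoColoop S :=
  fun f hf => (by decide : 2 ≤ 3).trans (h f hf)

lemma Cosimple.noColoop_erase {S : Finset V} (h : Cosimple S) {e : V} :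
    NoColoop (S.erase e) := by
  intro f hf
  obtain ⟨z, hz, hfz⟩ := hf
  rw [mem_erase] at hz
  have h1 := h f ⟨z, hz.2, hfz⟩
  have h2 : (S.erase e).filter (fun z => f z ≠ 0) = (S.filter (fun z => f z ≠ 0)).erase e := by
    ext w; simp only [mem_filter, mem_erase]; tauto
  rw [h2]
  have := Finset.pred_card_le_card_erase (s := S.filter (fun z => f z ≠ 0)) (a := e)
  omega

open Classical in
lemma sum_notMem_card (S : Finset V) (F : Finset (Finset V)) (hF : ∀ C ∈ F, C ⊆ S) :
    ∑ e ∈ S, ((F.filter (fun C => e ∉ C)).card : ℤ) = ∑ C ∈ F, ((S.card : ℤ) - C.card) := by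
  have h1 : ∀ e ∈ S, ((F.filter (fun C => e ∉ C)).card : ℤ)
      = ∑ C ∈ F, if e ∉ C then (1 : ℤ) else 0 := by
    intro e _
    rw [Finset.sum_boole]
  rw [Finset.sum_congr rfl h1, Finset.sum_comm]
  apply Finset.sum_congr rfl
  intro C hC
  rw [Finset.sum_boole]
  have : S.filter (fun e => e ∉ C) = S \ C := by
    ext e; simp
  rw [this, Finset.card_sdiff_of_subset (hF C hC)]
  rw [Nat.cast_sub (Finset.card_le_card (hF C hC))]

open Classical in
theorem T_of_star {S : Finset V} (hcos : Cosimple S)
    (hT : ∀ e ∈ S, T (S.erase e)) (hr : 1 ≤ rk S)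
    (hstar : (rk S + 1) * (3 * cN S (rk S + 1) + 2 * cN S (rk S) + cN S (rk S - 1))
      ≤ 4 * (bases S).card) : T S := by
  have hn : rk S ≤ S.card := by
    obtain ⟨B, hB⟩ := bases_nonempty S
    rw [mem_bases] at hB
    rw [← hB.2.1]
    exact Finset.card_le_card hB.1
  set r := rk S with hrdef
  set n := S.card
  -- circuits
  have hc : ∑ e ∈ S, ((circs (S.erase e)).card : ℤ) = ∑ C ∈ circs S, ((n : ℤ) - C.card) := by
    rw [← sum_notMem_card S (circs S) (fun C hC => (mem_circs.1 hC).1)]
    apply Finset.sum_congr rfl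
    intro e _
    rw [circs_erase]
  have hb : ∑ e ∈ S, ((bases (S.erase e)).card : ℤ) = ((n : ℤ) - r) * (bases S).card := by
    have : ∑ e ∈ S, ((bases (S.erase e)).card : ℤ) = ∑ C ∈ bases S, ((n : ℤ) - C.card) := by
      rw [← sum_notMem_card S (bases S) (fun C hC => (mem_bases.1 hC).1)]
      apply Finset.sum_congr rfl
      intro e he
      rw [bases_erase (rk_erase hcos.noColoop he)]
    rw [this, Finset.sum_congr rfl (g := fun _ => (n : ℤ) - r)]
    · rw [Finset.sum_const]; simp [mul_comm]
    · intro C hC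
      rw [(mem_bases.1 hC).2.1]
  have hsum : ((r : ℤ) + 1) * ∑ C ∈ circs S, ((n : ℤ) - C.card)
      ≤ 2 * (((n : ℤ) - r) * (bases S).card) := by
    rw [← hc, ← hb, Finset.mul_sum, Finset.mul_sum]
    apply Finset.sum_le_sum
    intro e he
    have := hT e he
    unfold T at this
    rw [rk_erase hcos.noColoop he] at this
    exact_mod_cast this
  -- pointwise lower bound
  have hpt : ∀ C ∈ circs S, ((n : ℤ) - r) + (2 - 3 * (if C.card = r + 1 then 1 else 0)
      - 2 * (if C.card = r then 1 else 0) - (if C.card = r - 1 then 1 else 0))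
      ≤ (n : ℤ) - C.card := by
    intro C hC
    have h1 := circ_card_le hC
    rw [← hrdef] at h1
    split_ifs <;> omega
  have hlow := Finset.sum_le_sum hpt
  have hcn : ∀ k, ((cN S k : ℕ) : ℤ) = ∑ C ∈ circs S, (if C.card = k then (1 : ℤ) else 0) := by
    intro k
    rw [Finset.sum_boole]
    rfl
  generalize (∑ C ∈ circs S, ((n : ℤ) - C.card)) = W at hsum hlow
  simp only [Finset.sum_add_distrib, Finset.sum_sub_distrib, ← Finset.mul_sum, ← hcn,
    Finset.sum_const, nsmul_eq_mul] at hlow
  have hstar' : ((r : ℤ) + 1) * (3 * cN S (r + 1) + 2 * cN S r + cN S (r - 1))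
      ≤ 4 * (bases S).card := by exact_mod_cast hstar
  unfold T
  have goal : ((r : ℤ) + 1) * (circs S).card ≤ 2 * (bases S).card := by
    by_contra hlt
    push Not at hlt
    have hnr : (0 : ℤ) ≤ (n : ℤ) - r := by omega
    have h1 := mul_le_mul_of_nonneg_left hlow (show (0 : ℤ) ≤ (r : ℤ) + 1 by positivity)
    nlinarith [mul_nonneg hnr (sub_nonneg.2 hlt.le)]
  exact_mod_cast goal

end Pool.Agent.Helper705
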