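import Pool.Agent.Helper705.Deletion

set_option autoImplicit false
set_option linter.unusedSectionVars false

open Finset

namespace Pool.Agent.Helper705

variable {V : Type*} [AddCommGroup V] [Module (ZMod 2) V] [DecidableEq V]

open Classical in
/-- pairs (x, X) such that C - x + X is a basis -/
noncomputable def P (S : Finset V) (k : ℕ) (C : Finset V) : Finset (V × Finset V) :=
  (C ×ˢ S.powersetCard k).filter (fun p => (C.erase p.1) ∪ p.2 ∈ bases S)

/-- subsets X of B of size k such that the sum of B minus X is in S -/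
def Q (S : Finset V) (k : ℕ) (B : Finset V) : Finset (Finset V) :=
  (B.powersetCard k).filter (fun X => ∑ x ∈ B \ X, x ∈ S)

lemma mem_P {S C : Finset V} {k : ℕ} {p : V × Finset V} :
    p ∈ P S k C ↔ p.1 ∈ C ∧ p.2 ⊆ S ∧ p.2.card = k ∧ (C.erase p.1) ∪ p.2 ∈ bases S := by
  classical
  simp only [P, mem_filter, mem_product, mem_powersetCard, and_assoc]

lemma mem_Q {S B X : Finset V} {k : ℕ} :
    X ∈ Q S k B ↔ X ⊆ B ∧ X.card = k ∧ ∑ x ∈ B \ X, x ∈ S := by
  simp only [Q, mem_filter, mem_powersetCard, and_assoc]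

/-- facts about the forward direction -/
lemma dc_forward {S C X : Finset V} {x : V} {k : ℕ} (hk : k ≤ rk S) (hC : C ∈ circs S)
    (hcard : C.card = rk S + 1 - k) (hx : x ∈ C) (hXk : X.card = k)
    (hB : (C.erase x) ∪ X ∈ bases S) :
    ((C.erase x) ∪ X) \ X = C.erase x := by
  have h1 : (C.erase x).card = rk S - k := by
    rw [Finset.card_erase_of_mem hx, hcard]; omega
  have h2 := (mem_bases.1 hB).2.1
  have h3 := Finset.card_union_add_card_inter (C.erase x) X
  have h4 : ((C.erase x) ∩ X).card = 0 := by omega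
  rw [Finset.card_eq_zero] at h4
  rw [Finset.union_sdiff_right, Finset.sdiff_eq_self_iff_disjoint, Finset.disjoint_iff_inter_eq_empty]
  exact h4

/-- facts about the backward direction -/
lemma dc_backward {S B X : Finset V} {k : ℕ} (hk : k + 2 ≤ rk S) (hB : B ∈ bases S)
    (hX : X ⊆ B) (hXk : X.card = k) (hs : ∑ x ∈ B \ X, x ∈ S) :
    (∑ x ∈ B \ X, x ∉ B \ X) ∧ insert (∑ x ∈ B \ X, x) (B \ X) ∈ circs S ∧
      (insert (∑ x ∈ B \ X, x) (B \ X)).card = rk S + 1 - k := by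
  have hB' := mem_bases.1 hB
  have h1 : (B \ X).card = rk S - k := by
    rw [Finset.card_sdiff_of_subset hX, hXk, hB'.2.1]
  have hI : Ind (B \ X) := hB'.2.2.mono Finset.sdiff_subset
  have h2 : ∑ x ∈ B \ X, x ∉ B \ X := sum_notMem hI (by omega)
  refine ⟨h2, ?_, ?_⟩
  · rw [mem_circs]
    refine ⟨?_, circ_insert hI h2⟩
    apply Finset.insert_subset hs
    exact Finset.sdiff_subset.trans hB'.1
  · rw [Finset.card_insert_of_notMem h2, h1]; omega

open Classical in
theorem double_count {S : Finset V} {k : ℕ} (hk : k + 2 ≤ rk S)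
    (F : Finset V → V → Finset V → ℚ) :
    ∑ C ∈ (circs S).filter (fun C => C.card = rk S + 1 - k), ∑ p ∈ P S k C, F C p.1 p.2
      = ∑ B ∈ bases S, ∑ X ∈ Q S k B,
          F (insert (∑ x ∈ B \ X, x) (B \ X)) (∑ x ∈ B \ X, x) X := by
  rw [Finset.sum_sigma', Finset.sum_sigma']
  refine Finset.sum_bij'
    (fun a _ => (⟨(a.1.erase a.2.1) ∪ a.2.2, a.2.2⟩ : Σ _ : Finset V, Finset V))
    (fun b _ => (⟨insert (∑ x ∈ b.1 \ b.2, x) (b.1 \ b.2), (∑ x ∈ b.1 \ b.2, x, b.2)⟩ :
      Σ _ : Finset V, V × Finset V)) ?_ ?_ ?_ ?_ ?_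
  · rintro ⟨C, x, X⟩ h
    simp only [mem_sigma, mem_filter, mem_P] at h
    obtain ⟨⟨hC, hcard⟩, hx, hXS, hXk, hB⟩ := h
    have h1 := dc_forward (by omega) hC hcard hx hXk hB
    simp only [mem_sigma, mem_Q]
    refine ⟨hB, Finset.subset_union_right, hXk, ?_⟩
    rw [h1, (mem_circs.1 hC).2.sum_erase hx]
    exact (mem_circs.1 hC).1 hx
  · rintro ⟨B, X⟩ h
    simp only [mem_sigma, mem_Q] at h
    obtain ⟨hB, hX, hXk, hs⟩ := h
    obtain ⟨h1, h2, h3⟩ := dc_backward hk hB hX hXk hs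
    simp only [mem_sigma, mem_filter, mem_P]
    refine ⟨⟨h2, h3⟩, by simp, hX.trans (mem_bases.1 hB).1, hXk, ?_⟩
    rw [Finset.erase_insert h1, Finset.sdiff_union_of_subset hX]
    exact hB
  · rintro ⟨C, x, X⟩ h
    simp only [mem_sigma, mem_filter, mem_P] at h
    obtain ⟨⟨hC, hcard⟩, hx, hXS, hXk, hB⟩ := h
    have h1 := dc_forward (by omega) hC hcard hx hXk hB
    simp only [h1, (mem_circs.1 hC).2.sum_erase hx, Finset.insert_erase hx]
  · rintro ⟨B, X⟩ h
    simp only [mem_sigma, mem_Q] at h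
    obtain ⟨hB, hX, hXk, hs⟩ := h
    obtain ⟨h1, h2, h3⟩ := dc_backward hk hB hX hXk hs
    simp only [Finset.erase_insert h1, Finset.sdiff_union_of_subset hX]
  · rintro ⟨C, x, X⟩ h
    simp only [mem_sigma, mem_filter, mem_P] at h
    obtain ⟨⟨hC, hcard⟩, hx, hXS, hXk, hB⟩ := h
    have h1 := dc_forward (by omega) hC hcard hx hXk hB
    simp only [h1, (mem_circs.1 hC).2.sum_erase hx, Finset.insert_erase hx]

end Pool.Agent.Helper705
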