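import Pool.Agent.Helper705.Pairs

set_option autoImplicit false
set_option linter.unusedSectionVars false

open Finset

namespace Pool.Agent.Helper705

variable {V : Type*} [AddCommGroup V] [Module (ZMod 2) V] [DecidableEq V]

lemma no_tri {C : Finset V} (hC : Circ C) (h4 : 4 ≤ C.card) {x y : V} (hx : x ∈ C) (hy : y ∈ C) :
    x + y ∉ C := by
  intro hxy
  have h0 : (0 : V) ∉ C := by
    intro h0
    rcases hC.2.2 {0} (by simpa using h0) (by simp) with h | h
    · simp at h
    · rw [← h] at h4; simp at h4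
  have hne : x ≠ y := by
    rintro rfl
    rw [aself] at hxy
    exact h0 hxy
  have hn1 : x + y ≠ x := by
    intro h
    have : y = 0 := by simpa using h
    exact h0 (this ▸ hy)
  have hn2 : x + y ≠ y := by
    intro h
    have : x = 0 := by simpa using h
    exact h0 (this ▸ hx)
  have hs : ∑ z ∈ ({x, y, x + y} : Finset V), z = 0 := by
    rw [Finset.sum_insert, Finset.sum_pair (Ne.symm hn2), ← add_assoc, aself]
    simp only [mem_insert, mem_singleton, not_or]
    exact ⟨hne, Ne.symm hn1⟩
  rcases hC.2.2 {x, y, x + y} (by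
    intro z hz
    simp only [mem_insert, mem_singleton] at hz
    rcases hz with rfl | rfl | rfl <;> assumption) hs with h | h
  · simp at h
  · rw [← h] at h4
    have := Finset.card_le_three (a := x) (b := y) (c := x + y)
    omega

lemma edg_eq_pairs (C T : Finset V) :
    edg C T = ∑ z ∈ T, (T.filter (fun w => z + w ∈ C)).card := by
  have h1 : edg C T = ((T ×ˢ T).filter (fun p => p.1 + p.2 ∈ C)).card := by
    unfold edg
    apply Finset.card_nbij' (fun p => (p.2, p.1 + p.2)) (fun p => (p.1 + p.2, p.1))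
    · rintro ⟨x, z⟩ hp
      simp only [coe_filter, mem_product, Set.mem_ofPred_eq] at hp ⊢
      refine ⟨⟨hp.1.2, hp.2⟩, ?_⟩
      rw [add_comm x z, add_cancel_left]; exact hp.1.1
    · rintro ⟨x, z⟩ hp
      simp only [coe_filter, mem_product, Set.mem_ofPred_eq] at hp ⊢
      refine ⟨⟨hp.2, hp.1.1⟩, ?_⟩
      rw [add_comm x z, add_cancel_right]; exact hp.1.2
    · rintro ⟨x, z⟩ _
      simp only [Prod.mk.injEq, and_true]
      rw [add_comm x z, add_cancel_left]
    · rintro ⟨x, z⟩ _
      simp only [Prod.mk.injEq, true_and]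
      rw [add_comm x z, add_cancel_right]
  rw [h1, Finset.card_filter, Finset.sum_product]
  apply Finset.sum_congr rfl
  intro z _
  rw [Finset.card_filter]

/-- abstract edge bound for a set split into an independent part and the rest -/
lemma split_bound {C : Finset V} (hC : Circ C) (h4 : 4 ≤ C.card) {T I : Finset V} (hI : I ⊆ T)
    (h0 : ∀ z ∈ I, ∀ w ∈ I, z + w ∉ C)
    (h2 : ∀ z ∈ T, (I.filter (fun w => z + w ∈ C)).card ≤ 2) :
    2 * edg C T ≤ 8 * (T \ I).card + (T \ I).card ^ 2 := by
  set K := T \ I with hK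
  have hT : T = I ∪ K := by rw [hK, Finset.union_sdiff_of_subset hI]
  have hd : Disjoint I K := Finset.disjoint_sdiff
  have hsplit : ∀ z, (T.filter (fun w => z + w ∈ C)).card
      = (I.filter (fun w => z + w ∈ C)).card + (K.filter (fun w => z + w ∈ C)).card := by
    intro z
    rw [hT, Finset.filter_union, Finset.card_union_of_disjoint (Finset.disjoint_filter_filter hd)]
  have e1 : edg C T = ∑ z ∈ I, (I.filter (fun w => z + w ∈ C)).card
      + ∑ z ∈ I, (K.filter (fun w => z + w ∈ C)).card
      + ∑ z ∈ K, (I.filter (fun w => z + w ∈ C)).card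
      + ∑ z ∈ K, (K.filter (fun w => z + w ∈ C)).card := by
    rw [edg_eq_pairs, Finset.sum_congr rfl (fun z _ => hsplit z)]
    conv_lhs => rw [hT]
    rw [Finset.sum_union hd, Finset.sum_add_distrib, Finset.sum_add_distrib]
    ring
  have e2 : ∑ z ∈ I, (I.filter (fun w => z + w ∈ C)).card = 0 := by
    apply Finset.sum_eq_zero
    intro z hz
    rw [Finset.card_eq_zero, Finset.filter_eq_empty_iff]
    intro w hw
    exact h0 z hz w hw
  have e3 : ∑ z ∈ I, (K.filter (fun w => z + w ∈ C)).card
      = ∑ z ∈ K, (I.filter (fun w => z + w ∈ C)).card := by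
    simp only [Finset.card_filter]
    rw [Finset.sum_comm]
    apply Finset.sum_congr rfl
    intro z _
    apply Finset.sum_congr rfl
    intro w _
    rw [add_comm]
  have e4 : ∑ z ∈ K, (I.filter (fun w => z + w ∈ C)).card ≤ K.card * 2 := by
    rw [← smul_eq_mul, ← Finset.sum_const]
    apply Finset.sum_le_sum
    intro z hz
    apply h2
    rw [hK, mem_sdiff] at hz
    exact hz.1
  have e5 : 2 * ∑ z ∈ K, (K.filter (fun w => z + w ∈ C)).card ≤ K.card ^ 2 := by
    apply mantel K (fun z w => z + w ∈ C)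
    · intro a b h; rw [add_comm]; exact h
    · intro a _ b _ hab w _ hw
      apply no_tri hC h4 hab hw.1
      have : a + b + (a + w) = b + w := by
        calc a + b + (a + w) = (a + a) + (b + w) := by abel
          _ = b + w := by rw [aself, zero_add]
      rw [this]
      exact hw.2
  omega

section
variable {S B : Finset V}

lemma mem_fund {B : Finset V} (hI : Ind B) {i : V} {A : Finset V} (hA : A ⊆ B)
    (h : ∑ x ∈ A, x ∈ insert (∑ x ∈ B.erase i, x) (B.erase i)) :
    A = B.erase i ∨ (A.card = 1) := by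
  rw [mem_insert] at h
  rcases h with h | h
  · left; exact hI.sum_inj hA (Finset.erase_subset _ _) h
  · right
    have h1 : ({∑ x ∈ A, x} : Finset V) ⊆ B := by
      rw [Finset.singleton_subset_iff]; exact Finset.mem_of_mem_erase h
    have h2 : A = {∑ x ∈ A, x} := hI.sum_inj hA h1 (by simp)
    rw [h2]; simp

lemma nb_i (hI : Ind B) {i : V} (hi : i ∈ B) {Z : Finset V} (hZ : Z ⊆ B) (hiZ : i ∈ Z)
    (hne : Z ≠ B) (h : ∑ x ∈ Z, x + i ∈ insert (∑ x ∈ B.erase i, x) (B.erase i)) :
    Z.card = 2 := by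
  have h1 : ∑ x ∈ Z, x + i = ∑ x ∈ Z.erase i, x := by
    rw [← Finset.add_sum_erase Z (fun x => x) hiZ, add_comm i, add_cancel_right]
  rw [h1] at h
  have h2 := Finset.card_erase_of_mem hiZ
  have h3 : 1 ≤ Z.card := Finset.card_pos.2 ⟨i, hiZ⟩
  rcases mem_fund hI ((Finset.erase_subset _ _).trans hZ) h with h | h
  · exfalso
    apply hne
    rw [← Finset.insert_erase hiZ, h, Finset.insert_erase hi]
  · omega

lemma nb_v (hI : Ind B) (hr : 5 ≤ B.card) {i j : V} (hi : i ∈ B) (hj : j ∈ B) (hij : j ≠ i)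
    {Z : Finset V} (hZ : Z ⊆ B) (hiZ : i ∈ Z) (hne : Z ≠ B)
    (h : ∑ x ∈ Z, x + ∑ x ∈ B.erase j, x ∈ insert (∑ x ∈ B.erase i, x) (B.erase i)) :
    (j ∉ Z ∧ Z.card = B.card - 2) ∨ (j ∈ Z ∧ Z.card = 2) := by
  rw [← sum_symmDiff] at h
  have hZlt : Z.card < B.card := Finset.card_lt_card (hZ.ssubset_of_ne hne)
  have hBZ : (B \ Z).card = B.card - Z.card := Finset.card_sdiff_of_subset hZ
  by_cases hjZ : j ∈ Z
  · right
    refine ⟨hjZ, ?_⟩
    have e1 : symmDiff Z (B.erase j) = insert j (B \ Z) := by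
      ext x
      simp only [Finset.mem_symmDiff, mem_erase, mem_insert, mem_sdiff]
      constructor
      · rintro (⟨h1, h2⟩ | ⟨⟨h1, h2⟩, h3⟩)
        · left
          by_contra hx
          exact h2 ⟨hx, hZ h1⟩
        · right; exact ⟨h2, h3⟩
      · rintro (rfl | ⟨h1, h2⟩)
        · left; exact ⟨hjZ, fun h => h.1 rfl⟩
        · right; exact ⟨⟨fun h => h2 (h ▸ hjZ), h1⟩, h2⟩
    have hjn : j ∉ B \ Z := by simp [hjZ]
    have hc : (insert j (B \ Z)).card = B.card - Z.card + 1 := by
      rw [Finset.card_insert_of_notMem hjn, hBZ]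
    rw [e1] at h
    have hsub : insert j (B \ Z) ⊆ B := Finset.insert_subset hj Finset.sdiff_subset
    rcases mem_fund hI hsub h with h | h
    · rw [h, Finset.card_erase_of_mem hi] at hc
      omega
    · omega
  · left
    refine ⟨hjZ, ?_⟩
    have e1 : symmDiff Z (B.erase j) = (B \ Z).erase j := by
      ext x
      simp only [Finset.mem_symmDiff, mem_erase, mem_sdiff]
      constructor
      · rintro (⟨h1, h2⟩ | ⟨⟨h1, h2⟩, h3⟩)
        · exfalso
          apply h2
          exact ⟨fun h => hjZ (h ▸ h1), hZ h1⟩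
        · exact ⟨h1, h2, h3⟩
      · rintro ⟨h1, h2, h3⟩
        right; exact ⟨⟨h1, h2⟩, h3⟩
    have hjn : j ∈ B \ Z := by simp [hjZ, hj]
    have hc : ((B \ Z).erase j).card = B.card - Z.card - 1 := by
      rw [Finset.card_erase_of_mem hjn, hBZ]
    rw [e1] at h
    rcases mem_fund hI ((Finset.erase_subset _ _).trans Finset.sdiff_subset) h with h | h
    · exfalso
      have : j ∈ B.erase i := by simp [hij, hj]
      rw [← h] at this
      simp at this
    · omega

/-- the edge bound when the sum of B is not in S -/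
theorem edge_bound (hB : B ∈ bases S) (hr : 5 ≤ B.card) (hu : ∑ x ∈ B, x ∉ S)
    {h : V → V →ₗ[ZMod 2] ZMod 2} (hh : IsCoord B h) {i : V} (hi : i ∈ Tset S B) :
    ∃ k, (S.filter (fun z => h i z ≠ 0)).card = (Tset S B).card + k ∧
      2 * edg (insert (∑ x ∈ B.erase i, x) (B.erase i)) (S.filter (fun z => h i z ≠ 0))
        ≤ 8 * k + k ^ 2 := by
  have hBS := (mem_bases.1 hB).1
  have hI := (mem_bases.1 hB).2.2
  have hiB := (mem_Tset.1 hi).1
  set v : V → V := fun j => ∑ x ∈ B.erase j, x with hv
  set C := insert (∑ x ∈ B.erase i, x) (B.erase i) with hCdef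
  set Ti := S.filter (fun z => h i z ≠ 0) with hTi
  set I0 := insert i (((Tset S B).erase i).image v) with hI0
  have hvinj : ∀ x ∈ B, ∀ y ∈ B, v x = v y → x = y := by
    intro x hx y hy hxy
    have := hI.sum_inj (Finset.erase_subset x B) (Finset.erase_subset y B) hxy
    by_contra hne
    have h1 : x ∈ B.erase y := by simp [hne, hx]
    rw [← this] at h1
    simp at h1
  have hi_notin : i ∉ ((Tset S B).erase i).image v := by
    intro hmem
    rw [mem_image] at hmem
    obtain ⟨j, hj, hji⟩ := hmem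
    rw [mem_erase, mem_Tset] at hj
    have h1 : B.erase j = {i} := by
      apply hI.sum_inj (Finset.erase_subset _ _) (by simpa using hiB)
      rw [Finset.sum_singleton]; exact hji
    have h2 := Finset.card_erase_of_mem hj.2.1
    rw [h1, Finset.card_singleton] at h2
    omega
  have hI0c : I0.card = (Tset S B).card := by
    rw [hI0, Finset.card_insert_of_notMem hi_notin, Finset.card_image_of_injOn,
      Finset.card_erase_of_mem hi]
    · have : 1 ≤ (Tset S B).card := Finset.card_pos.2 ⟨i, hi⟩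
      omega
    · intro x hx y hy hxy
      simp only [coe_erase, Set.mem_sdiff, mem_coe, mem_Tset] at hx hy
      exact hvinj x hx.1.1 y hy.1.1 hxy
  have hI0T : I0 ⊆ Ti := by
    intro z hz
    rw [hI0, mem_insert, mem_image] at hz
    rw [hTi, mem_filter]
    rcases hz with rfl | ⟨j, hj, rfl⟩
    · refine ⟨hBS hiB, ?_⟩
      rw [hh z hiB z hiB, if_pos rfl]
      exact one_ne_zero
    · rw [mem_erase, mem_Tset] at hj
      refine ⟨hj.2.2, ?_⟩
      rw [hv]
      simp only
      rw [hh.sum hiB (Finset.erase_subset _ _), if_pos]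
      · exact one_ne_zero
      · simp [Ne.symm hj.1, hiB]
  -- representation of elements of Ti
  have hrep : ∀ z ∈ Ti, ∃ Z ⊆ B, i ∈ Z ∧ Z ≠ B ∧ ∑ x ∈ Z, x = z := by
    intro z hz
    rw [hTi, mem_filter] at hz
    obtain ⟨Z, hZ, hs⟩ := base_repr hB hz.1
    refine ⟨Z, hZ, ?_, ?_, hs⟩
    · by_contra hiZ
      apply hz.2
      rw [← hs, hh.sum hiB hZ, if_neg hiZ]
    · rintro rfl
      rw [hs] at hu
      exact hu hz.1
  have hnb : ∀ Z ⊆ B, i ∈ Z → Z ≠ B → ∀ w ∈ I0, ∑ x ∈ Z, x + w ∈ C →
      (w = i ∧ Z.card = 2) ∨ ∃ j ∈ B, j ≠ i ∧ w = v j ∧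
        ((j ∉ Z ∧ Z.card = B.card - 2) ∨ (j ∈ Z ∧ Z.card = 2)) := by
    intro Z hZ hiZ hZB w hw hwC
    rw [hI0, mem_insert, mem_image] at hw
    rcases hw with rfl | ⟨j, hj, rfl⟩
    · left
      exact ⟨rfl, nb_i hI hiB hZ hiZ hZB hwC⟩
    · right
      rw [mem_erase, mem_Tset] at hj
      exact ⟨j, hj.2.1, hj.1, rfl, nb_v hI hr hiB hj.2.1 hj.1 hZ hiZ hZB hwC⟩
  -- circuit facts
  have hX : ({i} : Finset V) ⊆ B := by simpa using hiB
  have hCB : C ∈ circs S ∧ C.card = rk S := by
    have hrB := (mem_bases.1 hB).2.1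
    have := dc_backward (k := 1) (X := {i}) (by omega) hB hX (by simp) (by
      rw [Finset.sdiff_singleton_eq_erase]; exact (mem_Tset.1 hi).2)
    rw [Finset.sdiff_singleton_eq_erase] at this
    exact ⟨this.2.1, by rw [this.2.2]; omega⟩
  have h4 : 4 ≤ C.card := by
    rw [hCB.2, ← (mem_bases.1 hB).2.1]; omega
  have hI0Z : ∀ z ∈ I0, ∃ Z ⊆ B, i ∈ Z ∧ Z ≠ B ∧ ∑ x ∈ Z, x = z ∧
      (Z.card = 1 ∨ Z.card = B.card - 1) := by
    intro z hz
    obtain ⟨Z, hZ, h1, h2, h3⟩ := hrep z (hI0T hz)
    refine ⟨Z, hZ, h1, h2, h3, ?_⟩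
    rw [hI0, mem_insert, mem_image] at hz
    rcases hz with rfl | ⟨j, hj, rfl⟩
    · left
      have : Z = {z} := by
        apply hI.sum_inj hZ (by simpa using hiB)
        rw [h3]; simp
      rw [this]; simp
    · right
      rw [mem_erase, mem_Tset] at hj
      have : Z = B.erase j := hI.sum_inj hZ (Finset.erase_subset _ _) h3
      rw [this, Finset.card_erase_of_mem hj.2.1]
  refine ⟨(Ti \ I0).card, ?_, ?_⟩
  · rw [Finset.card_sdiff_of_subset hI0T, hI0c]
    have := Finset.card_le_card hI0T
    rw [hI0c] at this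
    omega
  · apply split_bound (mem_circs.1 hCB.1).2 h4 hI0T
    · intro z hz w hw hzw
      obtain ⟨Z, hZ, h1, h2, h3, h5⟩ := hI0Z z hz
      rw [← h3] at hzw
      rcases hnb Z hZ h1 h2 w hw hzw with h6 | ⟨j, _, _, _, h6⟩
      · omega
      · omega
    · intro z hz
      obtain ⟨Z, hZ, h1, h2, h3⟩ := hrep z hz
      by_cases hZ2 : Z.card = 2
      · have h5 : (Z.erase i).card = 1 := by
          rw [Finset.card_erase_of_mem h1, hZ2]
        obtain ⟨j0, hj0⟩ := Finset.card_eq_one.1 h5
        have : I0.filter (fun w => z + w ∈ C) ⊆ {i, v j0} := by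
          intro w hw
          rw [mem_filter, ← h3] at hw
          rcases hnb Z hZ h1 h2 w hw.1 hw.2 with h6 | ⟨j, _, hji, hwj, h6⟩
          · rw [h6.1]; simp
          · have hjZ : j ∈ Z := by
              rcases h6 with h6 | h6
              · omega
              · exact h6.1
            have : j ∈ Z.erase i := by simp [hji, hjZ]
            rw [hj0, mem_singleton] at this
            rw [hwj, this]; simp
        exact (Finset.card_le_card this).trans Finset.card_le_two
      · by_cases hZr : Z.card = B.card - 2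
        · have : I0.filter (fun w => z + w ∈ C) ⊆ (B \ Z).image v := by
            intro w hw
            rw [mem_filter, ← h3] at hw
            rcases hnb Z hZ h1 h2 w hw.1 hw.2 with h6 | ⟨j, hjB, hji, hwj, h6⟩
            · exact absurd h6.2 hZ2
            · rw [mem_image]
              refine ⟨j, ?_, hwj.symm⟩
              rw [mem_sdiff]
              rcases h6 with h6 | h6
              · exact ⟨hjB, h6.1⟩
              · exact absurd h6.2 hZ2
          refine (Finset.card_le_card this).trans (Finset.card_image_le.trans ?_)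
          rw [Finset.card_sdiff_of_subset hZ]
          omega
        · have : I0.filter (fun w => z + w ∈ C) = ∅ := by
            rw [Finset.filter_eq_empty_iff]
            intro w hw hw2
            rw [← h3] at hw2
            rcases hnb Z hZ h1 h2 w hw hw2 with h6 | ⟨j, _, _, _, h6⟩
            · exact hZ2 h6.2
            · rcases h6 with h6 | h6
              · exact hZr h6.2
              · exact hZ2 h6.2
          rw [this]; simp

end

end Pool.Agent.Helper705
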