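import Pool.Agent.Helper705.Rank

set_option autoImplicit false
set_option linter.unusedSectionVars false

open Finset

namespace Pool.Agent.Helper705

variable {V : Type*} [AddCommGroup V] [Module (ZMod 2) V] [DecidableEq V]

lemma pow_ineq {a b : ℕ} (h : a ≤ b) : a ^ a * b ^ b * 4 ^ a ≤ (a + b) ^ (a + b) := by
  obtain ⟨c, rfl⟩ := Nat.exists_eq_add_of_le h
  have h1 : 4 * a * (a + c) ≤ (a + (a + c)) ^ 2 := by nlinarith [sq_nonneg (c : ℤ)]
  have h2 : (4 * a * (a + c)) ^ a ≤ ((a + (a + c)) ^ 2) ^ a := Nat.pow_le_pow_left h1 a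
  have h3 : (a + c) ^ c ≤ (a + (a + c)) ^ c := Nat.pow_le_pow_left (by omega) c
  calc a ^ a * (a + c) ^ (a + c) * 4 ^ a = (4 * a * (a + c)) ^ a * (a + c) ^ c := by
        rw [mul_pow, mul_pow, pow_add]; ring
    _ ≤ ((a + (a + c)) ^ 2) ^ a * (a + (a + c)) ^ c := Nat.mul_le_mul h2 h3
    _ = (a + (a + c)) ^ (a + (a + c)) := by
        rw [← pow_mul, ← pow_add]; congr 1; ring

/-- ordered edges of T in directions D -/
def edg (D T : Finset V) : ℕ := ((D ×ˢ T).filter (fun p => p.1 + p.2 ∈ T)).card

lemma edg_eq_sum (D T : Finset V) :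
    edg D T = ∑ x ∈ D, (T.filter (fun z => x + z ∈ T)).card := by
  unfold edg
  rw [Finset.card_filter, Finset.sum_product]
  apply Finset.sum_congr rfl
  intro x _
  rw [Finset.card_filter]

theorem iso (D : Finset V) (hD : Ind D) (T : Finset V) :
    2 ^ edg D T ≤ T.card ^ T.card := by
  induction D using Finset.induction_on generalizing T with
  | empty =>
    rw [edg_eq_sum]
    simp only [sum_empty, pow_zero]
    rcases Nat.eq_zero_or_pos T.card with h | h
    · rw [h]; norm_num
    · exact Nat.one_le_pow _ _ h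
  | insert x D' hx ih =>
    obtain ⟨h, h1, h0⟩ := exists_coord hD (Finset.mem_insert_self x D')
    have h0' : ∀ a ∈ D', h a = 0 := fun a ha =>
      h0 a (Finset.mem_insert_of_mem ha) (fun he => hx (he ▸ ha))
    have hD' : Ind D' := hD.mono (Finset.subset_insert _ _)
    set T0 := T.filter (fun z => h z = 0) with hT0
    set T1 := T.filter (fun z => ¬ h z = 0) with hT1
    have hTc : T0.card + T1.card = T.card := Finset.card_filter_add_card_filter_not _
    have ih0 := ih hD' T0
    have ih1 := ih hD' T1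
    -- split the edges
    have e1 : edg D' T = edg D' T0 + edg D' T1 := by
      rw [edg_eq_sum, edg_eq_sum, edg_eq_sum, ← Finset.sum_add_distrib]
      apply Finset.sum_congr rfl
      intro d hd
      rw [← Finset.card_filter_add_card_filter_not (s := T.filter (fun z => d + z ∈ T))
        (fun z => h z = 0)]
      congr 2
      · ext z
        simp only [mem_filter, hT0, map_add, h0' d hd, zero_add]
        tauto
      · ext z
        simp only [mem_filter, hT1, map_add, h0' d hd, zero_add]
        tauto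
    have e2 : edg (insert x D') T = (T.filter (fun z => x + z ∈ T)).card + edg D' T := by
      rw [edg_eq_sum, edg_eq_sum, Finset.sum_insert hx]
    have e3 : (T.filter (fun z => x + z ∈ T)).card ≤ 2 * min T0.card T1.card := by
      rw [← Finset.card_filter_add_card_filter_not (s := T.filter (fun z => x + z ∈ T))
        (fun z => h z = 0)]
      have a1 : ((T.filter (fun z => x + z ∈ T)).filter (fun z => h z = 0)).card ≤ T0.card := by
        apply Finset.card_le_card
        intro z; simp only [mem_filter, hT0]; tauto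
      have a2 : ((T.filter (fun z => x + z ∈ T)).filter (fun z => ¬ h z = 0)).card ≤ T1.card := by
        apply Finset.card_le_card
        intro z; simp only [mem_filter, hT1]; tauto
      have a3 : ((T.filter (fun z => x + z ∈ T)).filter (fun z => h z = 0)).card ≤ T1.card := by
        apply Finset.card_le_card_of_injOn (fun z => x + z)
        · intro z hz
          simp only [coe_filter, Set.mem_setOf_eq, mem_filter] at hz
          simp only [hT1, coe_filter, Set.mem_setOf_eq, map_add, h1, hz.2]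
          exact ⟨hz.1.2, by simp⟩
        · intro z _ w _ he
          exact add_left_cancel he
      have a4 : ((T.filter (fun z => x + z ∈ T)).filter (fun z => ¬ h z = 0)).card ≤ T0.card := by
        apply Finset.card_le_card_of_injOn (fun z => x + z)
        · intro z hz
          simp only [coe_filter, Set.mem_setOf_eq, mem_filter] at hz
          have hz2 : h z = 1 := (zmod2_ne _).1 hz.2
          simp only [hT0, coe_filter, Set.mem_setOf_eq, map_add, h1, hz2]
          exact ⟨hz.1.2, by decide⟩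
        · intro z _ w _ he
          exact add_left_cancel he
      omega
    rw [e2, e1, ← hTc]
    rcases le_total T0.card T1.card with hle | hle
    · rw [min_eq_left hle] at e3
      calc 2 ^ ((T.filter (fun z => x + z ∈ T)).card + (edg D' T0 + edg D' T1))
          ≤ 2 ^ (2 * T0.card + (edg D' T0 + edg D' T1)) :=
            Nat.pow_le_pow_right (by norm_num) (by omega)
        _ = 2 ^ edg D' T0 * 2 ^ edg D' T1 * 4 ^ T0.card := by
            rw [pow_add, pow_add, pow_mul]; ring
        _ ≤ T0.card ^ T0.card * T1.card ^ T1.card * 4 ^ T0.card :=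
            Nat.mul_le_mul_right _ (Nat.mul_le_mul ih0 ih1)
        _ ≤ _ := pow_ineq hle
    · rw [min_eq_right hle] at e3
      calc 2 ^ ((T.filter (fun z => x + z ∈ T)).card + (edg D' T0 + edg D' T1))
          ≤ 2 ^ (2 * T1.card + (edg D' T0 + edg D' T1)) :=
            Nat.pow_le_pow_right (by norm_num) (by omega)
        _ = 2 ^ edg D' T1 * 2 ^ edg D' T0 * 4 ^ T1.card := by
            rw [pow_add, pow_add, pow_mul]; ring
        _ ≤ T1.card ^ T1.card * T0.card ^ T0.card * 4 ^ T1.card :=
            Nat.mul_le_mul_right _ (Nat.mul_le_mul ih1 ih0)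
        _ ≤ (T1.card + T0.card) ^ (T1.card + T0.card) := pow_ineq hle
        _ = _ := by rw [add_comm]

theorem iso_circ {C : Finset V} (hC : Circ C) (T : Finset V) :
    2 ^ ((C.card - 1) * edg C T) ≤ T.card ^ (C.card * T.card) := by
  have h1 : ∑ x ∈ C, edg (C.erase x) T = (C.card - 1) * edg C T := by
    have h2 : ∀ x ∈ C, edg (C.erase x) T = edg C T - (T.filter (fun z => x + z ∈ T)).card := by
      intro x hx
      rw [edg_eq_sum, edg_eq_sum, ← Finset.add_sum_erase C _ hx]
      omega
    have h3 : ∑ x ∈ C, (edg (C.erase x) T + (T.filter (fun z => x + z ∈ T)).card)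
        = C.card * edg C T := by
      rw [Finset.sum_congr rfl (g := fun _ => edg C T), Finset.sum_const, smul_eq_mul]
      intro x hx
      rw [h2 x hx]
      apply Nat.sub_add_cancel
      rw [edg_eq_sum, ← Finset.add_sum_erase C _ hx]
      omega
    rw [Finset.sum_add_distrib, ← edg_eq_sum] at h3
    have h4 : 1 ≤ C.card := Finset.card_pos.2 hC.1
    obtain ⟨c, hc⟩ := Nat.exists_eq_add_of_le h4
    rw [hc] at h3 ⊢
    have : (1 + c - 1) = c := by omega
    rw [this]
    linarith
  rw [← h1, ← Finset.prod_pow_eq_pow_sum]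
  calc ∏ x ∈ C, 2 ^ edg (C.erase x) T ≤ ∏ _x ∈ C, T.card ^ T.card := by
        apply Finset.prod_le_prod'
        intro x hx
        exact iso _ (hC.ind_erase hx) T
    _ = _ := by
        rw [Finset.prod_const, ← pow_mul, mul_comm]

/-- Mantel's bound for a symmetric triangle-free relation -/
theorem mantel {α : Type*} [DecidableEq α] (K : Finset α) (R : α → α → Prop) [DecidableRel R]
    (hs : ∀ a b, R a b → R b a)
    (hf : ∀ a ∈ K, ∀ b ∈ K, R a b → ∀ w ∈ K, ¬ (R a w ∧ R b w)) :
    2 * ∑ a ∈ K, (K.filter (R a)).card ≤ K.card ^ 2 := by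
  set d : α → ℕ := fun a => (K.filter (R a)).card with hd
  have h1 : ∀ a ∈ K, ∀ b ∈ K.filter (R a), d a + d b ≤ K.card := by
    intro a ha b hb
    rw [mem_filter] at hb
    rw [hd]
    simp only
    rw [← Finset.card_union_of_disjoint]
    · apply Finset.card_le_card
      intro z; simp only [mem_union, mem_filter]; tauto
    · rw [Finset.disjoint_left]
      intro w hw hw2
      rw [mem_filter] at hw hw2
      exact hf a ha b hb.1 hb.2 w hw.1 ⟨hw.2, hw2.2⟩
  have h2 : ∑ a ∈ K, ∑ b ∈ K.filter (R a), (d a + d b) ≤ K.card * ∑ a ∈ K, d a := by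
    rw [Finset.mul_sum]
    apply Finset.sum_le_sum
    intro a ha
    calc ∑ b ∈ K.filter (R a), (d a + d b) ≤ ∑ b ∈ K.filter (R a), K.card :=
          Finset.sum_le_sum (h1 a ha)
      _ = K.card * d a := by rw [Finset.sum_const, smul_eq_mul, mul_comm]
  have h3 : ∑ a ∈ K, ∑ b ∈ K.filter (R a), (d a + d b) = 2 * ∑ a ∈ K, d a ^ 2 := by
    simp only [Finset.sum_add_distrib]
    have h4 : ∑ a ∈ K, ∑ b ∈ K.filter (R a), d a = ∑ a ∈ K, d a ^ 2 := by
      apply Finset.sum_congr rfl
      intro a _
      rw [Finset.sum_const, smul_eq_mul, sq]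
    have h5 : ∑ a ∈ K, ∑ b ∈ K.filter (R a), d b = ∑ b ∈ K, ∑ a ∈ K.filter (R b), d b := by
      apply Finset.sum_comm'
      intro a b
      simp only [mem_filter]
      constructor
      · rintro ⟨h1, h2, h3⟩; exact ⟨⟨h1, hs _ _ h3⟩, h2⟩
      · rintro ⟨⟨h1, h3⟩, h2⟩; exact ⟨h1, h2, hs _ _ h3⟩
    rw [h5, h4]
    ring
  have h6 : (∑ a ∈ K, d a) ^ 2 ≤ K.card * ∑ a ∈ K, d a ^ 2 := sq_sum_le_card_mul_sum_sq
  rcases Nat.eq_zero_or_pos (∑ a ∈ K, d a) with h0 | hpos
  · show 2 * ∑ a ∈ K, d a ≤ _
    rw [h0]; exact Nat.zero_le _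
  · have h7 : 2 * (∑ a ∈ K, d a) ^ 2 ≤ K.card ^ 2 * ∑ a ∈ K, d a := by
      calc 2 * (∑ a ∈ K, d a) ^ 2 ≤ 2 * (K.card * ∑ a ∈ K, d a ^ 2) := by omega
        _ = K.card * (2 * ∑ a ∈ K, d a ^ 2) := by ring
        _ ≤ K.card * (K.card * ∑ a ∈ K, d a) := by
            apply Nat.mul_le_mul_left; rw [← h3]; exact h2
        _ = _ := by ring
    have h8 : (2 * ∑ a ∈ K, d a) * (∑ a ∈ K, d a) ≤ K.card ^ 2 * ∑ a ∈ K, d a := by
      calc _ = 2 * (∑ a ∈ K, d a) ^ 2 := by ring
        _ ≤ _ := h7
    exact Nat.le_of_mul_le_mul_right h8 hpos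

end Pool.Agent.Helper705
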