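import Pool.Agent.Helper705.Deletion

set_option autoImplicit false
set_option linter.unusedSectionVars false

open Finset

namespace Pool.Agent.Helper705

variable {V : Type*} [AddCommGroup V] [Module (ZMod 2) V] [DecidableEq V]

/-- number of bases containing J -/
noncomputable def bJ (S J : Finset V) : ℕ := ((bases S).filter (fun B => J ⊆ B)).card
/-- number of circuits containing J -/
noncomputable def cJ (S J : Finset V) : ℕ := ((circs S).filter (fun C => J ⊆ C)).card

lemma circ_mem_span {S C : Finset V} (hC : C ∈ circs S) {x : V} (hx : x ∈ C) :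
    x ∈ Submodule.span (ZMod 2) ((S.erase x : Finset V) : Set V) := by
  have hC' := mem_circs.1 hC
  rw [mem_span_iff]
  refine ⟨C.erase x, Finset.erase_subset_erase x hC'.1, hC'.2.sum_erase hx⟩

lemma insert_base {S B : Finset V} {x : V} (hx : x ∈ S)
    (hn : x ∉ Submodule.span (ZMod 2) ((S.erase x : Finset V) : Set V))
    (hB : B ∈ bases (S.erase x)) : insert x B ∈ bases S := by
  have hB' := mem_bases.1 hB
  apply mem_bases_of_span
  · exact Finset.insert_subset hx (hB'.1.trans (Finset.erase_subset _ _))
  · apply ind_insert hB'.2.2
    intro h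
    exact hn (Submodule.span_mono (by exact_mod_cast hB'.1) h)
  · intro z hz
    by_cases hzx : z = x
    · subst hzx; apply Submodule.subset_span; simp
    · have h1 : z ∈ Submodule.span (ZMod 2) ((S.erase x : Finset V) : Set V) := by
        apply Submodule.subset_span; simp [hz, hzx]
      rw [← span_eq_of_base hB] at h1
      exact Submodule.span_mono (by exact_mod_cast Finset.subset_insert x B) h1

lemma rk_erase_of_mem_span {S : Finset V} {e : V}
    (h : e ∈ Submodule.span (ZMod 2) ((S.erase e : Finset V) : Set V)) :
    rk (S.erase e) = rk S := by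
  apply rk_eq_of_span
  apply le_antisymm
  · apply Submodule.span_mono
    exact_mod_cast Finset.erase_subset e S
  · rw [Submodule.span_le]
    intro z hz
    by_cases hze : z = e
    · subst hze; exact h
    · apply Submodule.subset_span
      simpa [hze] using hz

lemma bJ_split {S J : Finset V} {x : V} (hx : x ∉ J) (h : rk (S.erase x) = rk S) :
    bJ S J = bJ (S.erase x) J + bJ S (insert x J) := by
  unfold bJ
  rw [bases_erase h, Finset.filter_filter,
    ← Finset.card_filter_add_card_filter_not (s := (bases S).filter (fun B => J ⊆ B)) (fun B => x ∉ B),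
    Finset.filter_filter, Finset.filter_filter]
  congr 2
  · ext B; simp only [mem_filter]; tauto
  · ext B; simp only [mem_filter, Finset.insert_subset_iff]; tauto

lemma cJ_split {S J : Finset V} {x : V} (hx : x ∉ J) :
    cJ S J = cJ (S.erase x) J + cJ S (insert x J) := by
  unfold cJ
  rw [circs_erase, Finset.filter_filter,
    ← Finset.card_filter_add_card_filter_not (s := (circs S).filter (fun B => J ⊆ B)) (fun B => x ∉ B),
    Finset.filter_filter, Finset.filter_filter]
  congr 2
  · ext B; simp only [mem_filter]; tauto
  · ext B; simp only [mem_filter, Finset.insert_subset_iff]; tauto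

lemma cJ_coloop {S J : Finset V} {x : V}
    (hn : x ∉ Submodule.span (ZMod 2) ((S.erase x : Finset V) : Set V)) :
    cJ S (insert x J) = 0 := by
  unfold cJ
  rw [Finset.card_eq_zero, Finset.filter_eq_empty_iff]
  intro C hC hsub
  exact hn (circ_mem_span hC (hsub (by simp)))

lemma bJ_coloop {S J : Finset V} {x : V} (hx : x ∈ S) (hxJ : x ∉ J)
    (hn : x ∉ Submodule.span (ZMod 2) ((S.erase x : Finset V) : Set V)) :
    bJ (S.erase x) J ≤ bJ S J := by
  unfold bJ
  apply Finset.card_le_card_of_injOn (fun B => insert x B)
  · intro B hB
    simp only [coe_filter, Set.mem_ofPred_eq] at hB ⊢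
    exact ⟨insert_base hx hn hB.1, hB.2.trans (Finset.subset_insert _ _)⟩
  · intro B hB B' hB' he
    simp only [coe_filter, Set.mem_ofPred_eq] at hB hB'
    have h1 : x ∉ B := fun h => by
      have := (mem_bases.1 hB.1).1 h; simp at this
    have h2 : x ∉ B' := fun h => by
      have := (mem_bases.1 hB'.1).1 h; simp at this
    simp only at he
    rw [← Finset.erase_insert h1, he, Finset.erase_insert h2]

theorem lemmaA (n : ℕ) : ∀ S J : Finset V, (S \ J).card = n → J ⊆ S → Ind J →
    cJ S J ≤ bJ S J := by
  induction n using Nat.strong_induction_on with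
  | _ n ih =>
    intro S J hn hJS hJ
    by_cases hex : ∃ x ∈ S, x ∉ J ∧ Ind (insert x J)
    · obtain ⟨x, hxS, hxJ, hI⟩ := hex
      have c1 : ((S.erase x) \ J).card < n := by
        rw [← hn]
        apply Finset.card_lt_card
        refine ⟨Finset.sdiff_subset_sdiff (Finset.erase_subset _ _) (Finset.Subset.refl _), ?_⟩
        intro h
        have : x ∈ (S.erase x) \ J := h (by simp [hxS, hxJ])
        simp at this
      have c2 : (S \ insert x J).card < n := by
        rw [← hn]
        apply Finset.card_lt_card
        refine ⟨Finset.sdiff_subset_sdiff (Finset.Subset.refl _) (Finset.subset_insert _ _), ?_⟩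
        intro h
        have : x ∈ S \ insert x J := h (by simp [hxS, hxJ])
        simp at this
      have hJ1 : J ⊆ S.erase x := by
        rw [Finset.subset_erase]; exact ⟨hJS, hxJ⟩
      have i1 := ih _ c1 (S.erase x) J rfl hJ1 hJ
      by_cases hsp : x ∈ Submodule.span (ZMod 2) ((S.erase x : Finset V) : Set V)
      · have i2 := ih _ c2 S (insert x J) rfl (Finset.insert_subset hxS hJS) hI
        rw [bJ_split hxJ (rk_erase_of_mem_span hsp), cJ_split hxJ]
        omega
      · rw [cJ_split hxJ, cJ_coloop hsp, add_zero]
        exact i1.trans (bJ_coloop hxS hxJ hsp)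
    · push Not at hex
      have hJb : J ∈ bases S := by
        apply mem_bases_of_span hJS hJ
        intro z hz
        by_contra hzn
        by_cases hzJ : z ∈ J
        · exact hzn (Submodule.subset_span hzJ)
        · exact hex z hz hzJ (ind_insert hJ hzn)
      have h1 : 1 ≤ bJ S J := by
        unfold bJ
        exact Finset.card_pos.2 ⟨J, by simp [hJb]⟩
      have h2 : cJ S J ≤ 1 := by
        unfold cJ
        have : (circs S).filter (fun C => J ⊆ C) ⊆ {insert (∑ x ∈ J, x) J} := by
          intro C hC
          rw [mem_filter] at hC
          rw [mem_singleton]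
          have hC' := mem_circs.1 hC.1
          have hne : J ≠ C := by
            rintro rfl; exact hC'.2.not_ind hJ
          have hlt : J.card < C.card := Finset.card_lt_card (hC.2.ssubset_of_ne hne)
          have hle := circ_card_le hC.1
          rw [← (mem_bases.1 hJb).2.1] at hle
          have h3 : (C \ J).card = 1 := by
            rw [Finset.card_sdiff_of_subset hC.2]; omega
          obtain ⟨y, hy⟩ := Finset.card_eq_one.1 h3
          have h4 : ∑ x ∈ C \ J, x + ∑ x ∈ J, x = ∑ x ∈ C, x := Finset.sum_sdiff hC.2
          rw [hy, Finset.sum_singleton, hC'.2.2.1, add_eq_zero_iff'] at h4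
          rw [← h4, Finset.insert_eq, ← hy, Finset.sdiff_union_of_subset hC.2]
        exact (Finset.card_le_card this).trans (by simp)
      omega

/-- strict version for single elements -/
theorem lemmaA_one : ∀ (n : ℕ) (S : Finset V) (g : V), S.card = n → (0 : V) ∉ S → g ∈ S →
    cJ S {g} + 1 ≤ bJ S {g} := by
  intro n
  induction n with
  | zero =>
    intro S g hS _ hg
    rw [Finset.card_eq_zero] at hS
    subst hS; simp at hg
  | succ n ih =>
    intro S g hS h0 hg
    have hg0 : g ≠ 0 := fun h => h0 (h ▸ hg)
    have hIg : Ind ({g} : Finset V) := by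
      intro X hX hs
      rcases Finset.subset_singleton_iff.1 hX with h | h
      · exact h
      · subst h; rw [Finset.sum_singleton] at hs; exact absurd hs hg0
    by_cases hex : ∃ x ∈ S, x ≠ g
    · obtain ⟨x, hx, hxg⟩ := hex
      have hxJ : x ∉ ({g} : Finset V) := by simpa using hxg
      have i1 := ih (S.erase x) g (by rw [Finset.card_erase_of_mem hx, hS]; rfl)
        (fun h => h0 (Finset.mem_of_mem_erase h)) (by simp [hg, Ne.symm hxg])
      by_cases hsp : x ∈ Submodule.span (ZMod 2) ((S.erase x : Finset V) : Set V)
      · have hI : Ind (insert x ({g} : Finset V)) := by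
          apply ind_insert hIg
          intro h
          rw [mem_span_iff] at h
          obtain ⟨X, hX, hs⟩ := h
          rcases Finset.subset_singleton_iff.1 hX with h | h
          · subst h
            simp only [sum_empty] at hs
            exact h0 (hs ▸ hx)
          · subst h; rw [Finset.sum_singleton] at hs; exact hxg hs.symm
        have i2 := lemmaA _ S (insert x {g}) rfl
          (Finset.insert_subset hx (by simpa using hg)) hI
        rw [bJ_split hxJ (rk_erase_of_mem_span hsp), cJ_split hxJ]
        omega
      · rw [cJ_split hxJ, cJ_coloop hsp, add_zero]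
        exact i1.trans (bJ_coloop hx hxJ hsp)
    · push Not at hex
      have hSg : S = {g} := by
        ext z; rw [mem_singleton]
        exact ⟨fun h => hex z h, fun h => h ▸ hg⟩
      subst hSg
      have h1 : cJ {g} {g} = 0 := by
        unfold cJ
        rw [Finset.card_eq_zero, Finset.filter_eq_empty_iff]
        intro C hC _
        have hC' := mem_circs.1 hC
        exact hC'.2.not_ind (hIg.mono hC'.1)
      obtain ⟨B, hB, hgB⟩ := exists_base_superset (Finset.Subset.refl {g}) hIg
      have h2 : 1 ≤ bJ {g} {g} := by
        unfold bJ
        exact Finset.card_pos.2 ⟨B, by simp only [mem_filter]; exact ⟨hB, hgB⟩⟩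
      omega

end Pool.Agent.Helper705
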