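import Pool.Agent.Helper705.Double
import Pool.Agent.Helper705.Iso

set_option autoImplicit false
set_option linter.unusedSectionVars false

open Finset

namespace Pool.Agent.Helper705

variable {V : Type*} [AddCommGroup V] [Module (ZMod 2) V] [DecidableEq V]

/-- a system of coordinate functionals for B -/
def IsCoord (B : Finset V) (h : V → V →ₗ[ZMod 2] ZMod 2) : Prop :=
  ∀ i ∈ B, ∀ j ∈ B, h i j = if j = i then 1 else 0

lemma exists_isCoord {B : Finset V} (hB : Ind B) : ∃ h, IsCoord B h := by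
  classical
  have h1 : ∀ i : V, ∃ f : V →ₗ[ZMod 2] ZMod 2, i ∈ B → (∀ j ∈ B, f j = if j = i then 1 else 0) := by
    intro i
    by_cases hi : i ∈ B
    · obtain ⟨f, hf, hf0⟩ := exists_coord hB hi
      refine ⟨f, fun _ j hj => ?_⟩
      split_ifs with he
      · subst he; exact hf
      · exact hf0 j hj he
    · exact ⟨0, fun h => absurd h hi⟩
  choose h hh using h1
  exact ⟨h, fun i hi j hj => hh i hi j hj⟩

lemma IsCoord.sum {B : Finset V} {h : V → V →ₗ[ZMod 2] ZMod 2} (hh : IsCoord B h)
    {i : V} (hi : i ∈ B) {A : Finset V} (hA : A ⊆ B) :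
    h i (∑ x ∈ A, x) = if i ∈ A then 1 else 0 := by
  rw [map_sum, Finset.sum_congr rfl (g := fun x => if x = i then (1 : ZMod 2) else 0)
    (fun x hx => hh i hi x (hA hx))]
  rw [Finset.sum_ite_eq' A i (fun _ => (1 : ZMod 2))]

lemma card_family_le {S B : Finset V} (hI : Ind B) (F : Finset (Finset V)) (p : V → Prop)
    [DecidablePred p]
    (hF : ∀ A ∈ F, A ⊆ B ∧ ∑ x ∈ A, x ∈ S ∧ p (∑ x ∈ A, x)) : F.card ≤ (S.filter p).card := by
  apply Finset.card_le_card_of_injOn (fun A => ∑ x ∈ A, x)
  · intro A hA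
    have := hF A hA
    simp only [coe_filter, Set.mem_ofPred_eq]
    exact ⟨this.2.1, this.2.2⟩
  · intro A hA A' hA' he
    exact hI.sum_inj (hF A hA).1 (hF A' hA').1 he

/-- elements l of B such that the sum of B minus l is in S -/
def Tset (S B : Finset V) : Finset V := B.filter (fun l => ∑ x ∈ B.erase l, x ∈ S)

lemma mem_Tset {S B : Finset V} {l : V} :
    l ∈ Tset S B ↔ l ∈ B ∧ ∑ x ∈ B.erase l, x ∈ S := by
  simp only [Tset, mem_filter]

lemma sdiff_inj_on {B : Finset V} {X Y : Finset V} (hX : X ⊆ B) (hY : Y ⊆ B)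
    (h : B \ X = B \ Y) : X = Y := by
  rw [← Finset.sdiff_sdiff_eq_self hX, h, Finset.sdiff_sdiff_eq_self hY]

lemma classA {S B : Finset V} (hB : B ∈ bases S) (hr : 5 ≤ B.card)
    {h : V → V →ₗ[ZMod 2] ZMod 2} (hh : IsCoord B h) {i j : V} (hi : i ∈ B) (hj : j ∈ B)
    (hij : i ≠ j) :
    1 + (if j ∈ Tset S B then 1 else 0) + ((Q S 2 B).filter (fun X => j ∈ X ∧ i ∉ X)).card
      ≤ (S.filter (fun z => h i z ≠ 0 ∧ h j z = 0)).card := by
  have hBS := (mem_bases.1 hB).1
  have hI := (mem_bases.1 hB).2.2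
  set F1 : Finset (Finset V) := {{i}} with hF1
  set F2 : Finset (Finset V) := if j ∈ Tset S B then {B.erase j} else ∅ with hF2
  set F3 : Finset (Finset V) :=
    ((Q S 2 B).filter (fun X => j ∈ X ∧ i ∉ X)).image (fun X => B \ X) with hF3
  have c1 : ∀ A ∈ F1, A.card = 1 := by
    intro A hA; rw [hF1, mem_singleton] at hA; subst hA; simp
  have c2 : ∀ A ∈ F2, A.card = B.card - 1 := by
    intro A hA
    rw [hF2] at hA
    split_ifs at hA
    · rw [mem_singleton] at hA; subst hA; rw [Finset.card_erase_of_mem hj]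
    · simp at hA
  have c3 : ∀ A ∈ F3, A.card = B.card - 2 := by
    intro A hA
    rw [hF3, mem_image] at hA
    obtain ⟨X, hX, rfl⟩ := hA
    rw [mem_filter, mem_Q] at hX
    rw [Finset.card_sdiff_of_subset hX.1.1, hX.1.2.1]
  have d12 : Disjoint F1 F2 := by
    rw [Finset.disjoint_left]; intro A h1 h2
    have := c1 A h1; have := c2 A h2; omega
  have d123 : Disjoint (F1 ∪ F2) F3 := by
    rw [Finset.disjoint_left]; intro A h1 h2
    rw [mem_union] at h1
    have e3 := c3 A h2
    rcases h1 with h1 | h1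
    · have := c1 A h1; omega
    · have := c2 A h1; omega
  have hcard : (F1 ∪ F2 ∪ F3).card = 1 + (if j ∈ Tset S B then 1 else 0) +
      ((Q S 2 B).filter (fun X => j ∈ X ∧ i ∉ X)).card := by
    rw [Finset.card_union_of_disjoint d123, Finset.card_union_of_disjoint d12]
    congr 1
    · congr 1
      rw [hF2]; split_ifs <;> simp
    · rw [hF3, Finset.card_image_of_injOn]
      intro X hX Y hY he
      simp only [coe_filter, Set.mem_ofPred_eq, mem_Q] at hX hY
      exact sdiff_inj_on hX.1.1 hY.1.1 he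
  rw [← hcard]
  apply card_family_le hI
  intro A hA
  rw [mem_union, mem_union] at hA
  rcases hA with (hA | hA) | hA
  · rw [hF1, mem_singleton] at hA
    subst hA
    have hs : ({i} : Finset V) ⊆ B := by simpa using hi
    refine ⟨hs, by simpa using hBS hi, ?_⟩
    rw [hh.sum hi hs, hh.sum hj hs]
    simp [Ne.symm hij]
  · rw [hF2] at hA
    split_ifs at hA with hT
    · rw [mem_singleton] at hA
      subst hA
      refine ⟨Finset.erase_subset _ _, (mem_Tset.1 hT).2, ?_⟩
      rw [hh.sum hi (Finset.erase_subset _ _), hh.sum hj (Finset.erase_subset _ _)]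
      simp [hi, hij]
    · simp at hA
  · rw [hF3, mem_image] at hA
    obtain ⟨X, hX, rfl⟩ := hA
    rw [mem_filter, mem_Q] at hX
    refine ⟨Finset.sdiff_subset, hX.1.2.2, ?_⟩
    rw [hh.sum hi Finset.sdiff_subset, hh.sum hj Finset.sdiff_subset]
    simp [hi, hX.2.1, hX.2.2]

lemma classC {S B : Finset V} (hB : B ∈ bases S) (hr : 5 ≤ B.card)
    {h : V → V →ₗ[ZMod 2] ZMod 2} (hh : IsCoord B h) {i j : V} (hi : i ∈ B) (hj : j ∈ B) :
    (if ∑ x ∈ B, x ∈ S then 1 else 0) + (Tset S B \ {i, j}).card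
      + ((Q S 2 B).filter (fun X => i ∉ X ∧ j ∉ X)).card
      ≤ (S.filter (fun z => h i z ≠ 0 ∧ h j z ≠ 0)).card := by
  have hI := (mem_bases.1 hB).2.2
  set F1 : Finset (Finset V) := if ∑ x ∈ B, x ∈ S then {B} else ∅ with hF1
  set F2 : Finset (Finset V) := (Tset S B \ {i, j}).image (fun l => B.erase l) with hF2
  set F3 : Finset (Finset V) :=
    ((Q S 2 B).filter (fun X => i ∉ X ∧ j ∉ X)).image (fun X => B \ X) with hF3
  have c1 : ∀ A ∈ F1, A.card = B.card := by
    intro A hA
    rw [hF1] at hA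
    split_ifs at hA
    · rw [mem_singleton] at hA; rw [hA]
    · simp at hA
  have c2 : ∀ A ∈ F2, A.card = B.card - 1 := by
    intro A hA
    rw [hF2, mem_image] at hA
    obtain ⟨l, hl, rfl⟩ := hA
    rw [mem_sdiff, mem_Tset] at hl
    rw [Finset.card_erase_of_mem hl.1.1]
  have c3 : ∀ A ∈ F3, A.card = B.card - 2 := by
    intro A hA
    rw [hF3, mem_image] at hA
    obtain ⟨X, hX, rfl⟩ := hA
    rw [mem_filter, mem_Q] at hX
    rw [Finset.card_sdiff_of_subset hX.1.1, hX.1.2.1]
  have d12 : Disjoint F1 F2 := by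
    rw [Finset.disjoint_left]; intro A h1 h2
    have := c1 A h1; have := c2 A h2; omega
  have d123 : Disjoint (F1 ∪ F2) F3 := by
    rw [Finset.disjoint_left]; intro A h1 h2
    rw [mem_union] at h1
    have e3 := c3 A h2
    rcases h1 with h1 | h1
    · have := c1 A h1; omega
    · have := c2 A h1; omega
  have hcard : (F1 ∪ F2 ∪ F3).card = (if ∑ x ∈ B, x ∈ S then 1 else 0) +
      (Tset S B \ {i, j}).card + ((Q S 2 B).filter (fun X => i ∉ X ∧ j ∉ X)).card := by
    rw [Finset.card_union_of_disjoint d123, Finset.card_union_of_disjoint d12]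
    congr 1
    · congr 1
      · rw [hF1]; split_ifs <;> simp
      · rw [hF2, Finset.card_image_of_injOn]
        intro x hx y hy he
        simp only [coe_sdiff, Set.mem_sdiff, mem_coe, mem_Tset] at hx hy
        by_contra hne
        have : x ∈ B.erase y := by simp [hne, hx.1.1]
        simp only at he
        rw [← he] at this
        simp at this
    · rw [hF3, Finset.card_image_of_injOn]
      intro X hX Y hY he
      simp only [coe_filter, Set.mem_ofPred_eq, mem_Q] at hX hY
      exact sdiff_inj_on hX.1.1 hY.1.1 he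
  rw [← hcard]
  apply card_family_le hI
  intro A hA
  rw [mem_union, mem_union] at hA
  rcases hA with (hA | hA) | hA
  · rw [hF1] at hA
    split_ifs at hA with hT
    · rw [mem_singleton] at hA
      subst hA
      refine ⟨Finset.Subset.refl _, hT, ?_⟩
      rw [hh.sum hi (Finset.Subset.refl _), hh.sum hj (Finset.Subset.refl _)]
      simp [hi, hj]
    · simp at hA
  · rw [hF2, mem_image] at hA
    obtain ⟨l, hl, rfl⟩ := hA
    rw [mem_sdiff, mem_Tset] at hl
    refine ⟨Finset.erase_subset _ _, hl.1.2, ?_⟩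
    rw [hh.sum hi (Finset.erase_subset _ _), hh.sum hj (Finset.erase_subset _ _)]
    have h2 := hl.2
    simp only [mem_insert, mem_singleton, not_or] at h2
    simp [hi, hj, Ne.symm h2.1, Ne.symm h2.2]
  · rw [hF3, mem_image] at hA
    obtain ⟨X, hX, rfl⟩ := hA
    rw [mem_filter, mem_Q] at hX
    refine ⟨Finset.sdiff_subset, hX.1.2.2, ?_⟩
    rw [hh.sum hi Finset.sdiff_subset, hh.sum hj Finset.sdiff_subset]
    simp [hi, hj, hX.2.1, hX.2.2]

/-- counting the pairs in Q S 2 B by their intersection with i, j -/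
lemma card_Q2_split {S B : Finset V} {i j : V} (hij : i ≠ j) (hX : {i, j} ∈ Q S 2 B) :
    (Q S 2 B).card = 1 + ((Q S 2 B).filter (fun X => j ∈ X ∧ i ∉ X)).card
      + ((Q S 2 B).filter (fun X => i ∈ X ∧ j ∉ X)).card
      + ((Q S 2 B).filter (fun X => i ∉ X ∧ j ∉ X)).card := by
  have h1 : (Q S 2 B).filter (fun X => i ∈ X ∧ j ∈ X) = {{i, j}} := by
    ext X
    simp only [mem_filter, mem_singleton]
    constructor
    · rintro ⟨h1, h2, h3⟩
      rw [mem_Q] at h1
      symm
      apply Finset.eq_of_subset_of_card_le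
      · intro x hx
        simp only [mem_insert, mem_singleton] at hx
        rcases hx with rfl | rfl <;> assumption
      · rw [h1.2.1, Finset.card_pair hij]
    · rintro rfl
      exact ⟨hX, by simp, by simp⟩
  have h2 : ((Q S 2 B).filter (fun X => i ∈ X ∧ j ∈ X)).card = 1 := by rw [h1]; simp
  rw [← h2]
  rw [← Finset.card_filter_add_card_filter_not (s := Q S 2 B) (fun X => i ∈ X)]
  rw [← Finset.card_filter_add_card_filter_not (s := (Q S 2 B).filter (fun X => i ∈ X))
    (fun X => j ∈ X)]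
  rw [← Finset.card_filter_add_card_filter_not (s := (Q S 2 B).filter (fun X => ¬ i ∈ X))
    (fun X => j ∈ X)]
  simp only [Finset.filter_filter]
  have e1 : (Q S 2 B).filter (fun X => ¬ i ∈ X ∧ j ∈ X)
    = (Q S 2 B).filter (fun X => j ∈ X ∧ i ∉ X) := by
    ext X; simp only [mem_filter]; tauto
  rw [e1]
  omega

lemma card_T_split (T : Finset V) {i j : V} (hij : i ≠ j) :
    T.card = (if i ∈ T then 1 else 0) + (if j ∈ T then 1 else 0) + (T \ {i, j}).card := by
  have h1 := Finset.card_sdiff_add_card_inter T {i, j}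
  have h2 : (T ∩ {i, j}).card = (if i ∈ T then 1 else 0) + (if j ∈ T then 1 else 0) := by
    rw [Finset.inter_comm]
    rw [show ({i, j} : Finset V) ∩ T = ({i, j} : Finset V).filter (· ∈ T) by
      ext x; simp [mem_inter, mem_filter]]
    rw [Finset.card_filter, Finset.sum_pair hij]
  omega

end Pool.Agent.Helper705
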