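import Pool.Agent.Helper705.Series

set_option autoImplicit false
set_option linter.unusedSectionVars false
set_option linter.unusedVariables false

open Finset

namespace Pool.Agent.Helper705

variable {V : Type*} [AddCommGroup V] [Module (ZMod 2) V] [DecidableEq V]

lemma exchange_pt {N B : Finset V} (hnc : NoColoop N) (hB : B ∈ bases N) {i : V} (hi : i ∈ B) :
    ∃ y ∈ N, y ∉ B ∧ insert y (B.erase i) ∈ bases N := by
  have hB' := mem_bases.1 hB
  obtain ⟨f, hf, hf0⟩ := exists_coord hB'.2.2 hi
  have h2 := hnc f ⟨i, hB'.1 hi, by rw [hf]; exact one_ne_zero⟩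
  obtain ⟨y, hy, hyi⟩ := Finset.exists_mem_ne (show 1 < _ from h2) i
  rw [mem_filter] at hy
  have hyB : y ∉ B := fun h => hy.2 (hf0 y h hyi)
  refine ⟨y, hy.1, hyB, ?_⟩
  have hs : y ∉ Submodule.span (ZMod 2) ((B.erase i : Finset V) : Set V) := by
    intro h
    apply hy.2
    apply vanish_span _ h
    intro a ha
    rw [mem_erase] at ha
    exact hf0 a ha.2 ha.1
  rw [mem_bases]
  refine ⟨?_, ?_, ind_insert (hB'.2.2.mono (Finset.erase_subset _ _)) hs⟩
  · apply Finset.insert_subset hy.1
    exact (Finset.erase_subset _ _).trans hB'.1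
  · rw [Finset.card_insert_of_notMem (fun h => hyB (Finset.mem_of_mem_erase h)),
      Finset.card_erase_of_mem hi, ← hB'.2.1]
    have : 1 ≤ B.card := Finset.card_pos.2 ⟨i, hi⟩
    omega

lemma exchange {N : Finset V} (hnc : NoColoop N) {g : V} :
    ((bases N).filter (fun B => g ∈ B)).card
      ≤ rk N * ((bases N).filter (fun B => g ∉ B)).card := by
  have hex : ∀ B : Finset V, ∃ y : V, (B ∈ bases N ∧ g ∈ B) →
      (y ∈ N ∧ y ∉ B ∧ insert y (B.erase g) ∈ bases N) := by
    intro B
    by_cases h : B ∈ bases N ∧ g ∈ B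
    · obtain ⟨y, h1, h2, h3⟩ := exchange_pt hnc h.1 h.2
      exact ⟨y, fun _ => ⟨h1, h2, h3⟩⟩
    · exact ⟨0, fun hh => absurd hh h⟩
  choose y hy using hex
  apply Finset.card_le_mul_card_image_of_maps_to (f := fun B => insert (y B) (B.erase g))
  · intro B hB
    rw [mem_filter] at hB ⊢
    obtain ⟨h1, h2, h3⟩ := hy B hB
    refine ⟨h3, ?_⟩
    rw [mem_insert, not_or]
    exact ⟨fun h => h2 (h ▸ hB.2), by simp⟩
  · intro B' hB'
    rw [mem_filter] at hB'
    have : ((bases N).filter (fun B => g ∈ B)).filter (fun B => insert (y B) (B.erase g) = B')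
        ⊆ B'.image (fun z => insert g (B'.erase z)) := by
      intro B hB
      rw [mem_filter, mem_filter] at hB
      obtain ⟨h1, h2, h3⟩ := hy B hB.1
      rw [mem_image]
      refine ⟨y B, by rw [← hB.2]; simp, ?_⟩
      have h4 : y B ∉ B.erase g := fun h => h2 (Finset.mem_of_mem_erase h)
      rw [← hB.2, Finset.erase_insert h4, Finset.insert_erase hB.1.2]
    exact (Finset.card_le_card this).trans (Finset.card_image_le.trans
      (le_of_eq (mem_bases.1 hB'.1).2.1))

lemma bases_through {N : Finset V} (hnc : NoColoop N) {g : V} (hg : g ∈ N) (hg0 : g ≠ 0) :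
    rk N ≤ ((bases N).filter (fun B => g ∈ B)).card := by
  have hIg : Ind ({g} : Finset V) := by
    intro X hX hs
    rcases Finset.subset_singleton_iff.1 hX with h | h
    · exact h
    · subst h; rw [Finset.sum_singleton] at hs; exact absurd hs hg0
  obtain ⟨B, hB, hgB⟩ := exists_base_superset (S := N) (J := {g}) (by simpa using hg) hIg
  have hgB : g ∈ B := hgB (by simp)
  have hex : ∀ i : V, ∃ y : V, i ∈ B → (y ∉ B ∧ insert y (B.erase i) ∈ bases N) := by
    intro i
    by_cases h : i ∈ B
    · obtain ⟨y, h1, h2, h3⟩ := exchange_pt hnc hB h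
      exact ⟨y, fun _ => ⟨h2, h3⟩⟩
    · exact ⟨0, fun hh => absurd hh h⟩
  choose y hy using hex
  rw [← (mem_bases.1 hB).2.1]
  have hni : ∀ i ∈ B, i ∉ insert (y i) (B.erase i) := by
    intro i hi h
    rw [mem_insert] at h
    rcases h with h | h
    · exact (hy i hi).1 (h ▸ hi)
    · simp at h
  apply Finset.card_le_card_of_injOn (fun i => if i = g then B else insert (y i) (B.erase i))
  · intro i hi
    simp only [coe_filter, Set.mem_ofPred_eq]
    split_ifs with h
    · exact ⟨hB, hgB⟩
    · refine ⟨(hy i hi).2, ?_⟩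
      rw [mem_insert, mem_erase]
      right; exact ⟨Ne.symm h, hgB⟩
  · intro i hi j hj hij
    rw [mem_coe] at hi hj
    by_contra hne
    simp only at hij
    split_ifs at hij with h1 h2 h2
    · exact hne (h1.trans h2.symm)
    · have := hni j hj
      rw [← hij] at this
      exact this hj
    · have := hni i hi
      rw [hij] at this
      exact this hi
    · have := hni i hi
      rw [hij] at this
      apply this
      simp [hne, hi]

lemma circs_le_one {N : Finset V} {g : V} (hall : ∀ C ∈ circs N, g ∈ C) : (circs N).card ≤ 1 := by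
  rw [Finset.card_le_one]
  intro C1 h1 C2 h2
  by_contra hne
  have h1' := mem_circs.1 h1
  have h2' := mem_circs.1 h2
  have hs : ∑ x ∈ symmDiff C1 C2, x = 0 := by
    rw [sum_symmDiff, h1'.2.2.1, h2'.2.2.1, add_zero]
  have hnon : (symmDiff C1 C2).Nonempty := by
    rw [Finset.nonempty_iff_ne_empty]
    intro he
    apply hne
    apply symmDiff_eq_bot.mp
    rw [he]; rfl
  obtain ⟨C, hC, hcirc⟩ := exists_circ_subset hnon hs
  have hCN : C ∈ circs N := by
    rw [mem_circs]
    refine ⟨?_, hcirc⟩
    intro z hz
    have := hC hz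
    rw [Finset.mem_symmDiff] at this
    rcases this with h | h
    · exact h1'.1 h.1
    · exact h2'.1 h.1
  have h3 := hC (hall C hCN)
  rw [Finset.mem_symmDiff] at h3
  rcases h3 with h | h
  · exact h.2 (hall C2 h2)
  · exact h.2 (hall C1 h1)

variable {S : Finset V} {e f : V} {h : V →ₗ[ZMod 2] ZMod 2}

lemma Ser.modify (s : Ser S e f h) (f' : V →ₗ[ZMod 2] ZMod 2) :
    (f' + (f' e) • h) e = 0 ∧ (f' + (f' e) • h) f = f' (e + f) ∧
      ∀ z ∈ S0 S e f, (f' + (f' e) • h) z = f' z := by
  refine ⟨?_, ?_, ?_⟩
  · simp only [LinearMap.add_apply, LinearMap.smul_apply, s.he1, smul_eq_mul, mul_one]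
    exact aself (f' e)
  · simp only [LinearMap.add_apply, LinearMap.smul_apply, s.hf1, smul_eq_mul, mul_one, map_add]
    ring
  · intro z hz
    simp only [LinearMap.add_apply, LinearMap.smul_apply, s.h_S0 hz, smul_eq_mul, mul_zero,
      add_zero]

/-- functionals vanishing on the sum of the pair -/
lemma Ser.two_of_zero (s : Ser S e f h) (hnc : NoColoop S) (f' : V →ₗ[ZMod 2] ZMod 2)
    (hg : f' (e + f) = 0) (hz : ∃ z ∈ S0 S e f, f' z ≠ 0) :
    2 ≤ ((S0 S e f).filter (fun z => f' z ≠ 0)).card := by
  obtain ⟨m1, m2, m3⟩ := s.modify f'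
  obtain ⟨z, hz, hfz⟩ := hz
  have h1 := hnc (f' + (f' e) • h) ⟨z, S0_sub hz, by rw [m3 z hz]; exact hfz⟩
  refine h1.trans (Finset.card_le_card ?_)
  intro w hw
  rw [mem_filter] at hw ⊢
  have hwe : w ≠ e := by rintro rfl; exact hw.2 m1
  have hwf : w ≠ f := by rintro rfl; exact hw.2 (by rw [m2, hg])
  have hw0 : w ∈ S0 S e f := mem_S0.2 ⟨hwf, hwe, hw.1⟩
  refine ⟨hw0, ?_⟩
  rw [← m3 w hw0]; exact hw.2

lemma Ser.noColoop_NN (s : Ser S e f h) (hnc : NoColoop S) (hg : e + f ∉ S0 S e f) :
    NoColoop (NN S e f) := by
  intro f' hz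
  by_cases hfg : f' (e + f) = 0
  · obtain ⟨z, hz, hfz⟩ := hz
    have hz0 : z ∈ S0 S e f := by
      unfold NN at hz
      rw [mem_insert] at hz
      rcases hz with rfl | hz
      · exact absurd hfg hfz
      · exact hz
    refine (s.two_of_zero hnc f' hfg ⟨z, hz0, hfz⟩).trans (Finset.card_le_card ?_)
    exact Finset.filter_subset_filter _ (by unfold NN; exact Finset.subset_insert _ _)
  · obtain ⟨m1, m2, m3⟩ := s.modify f'
    have h1 := hnc (f' + (f' e) • h) ⟨f, s.hf, by rw [m2]; exact hfg⟩
    have h2 : S.filter (fun z => (f' + (f' e) • h) z ≠ 0)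
        ⊆ insert f ((S0 S e f).filter (fun z => f' z ≠ 0)) := by
      intro w hw
      rw [mem_filter] at hw
      rw [mem_insert, mem_filter]
      have hwe : w ≠ e := by rintro rfl; exact hw.2 m1
      by_cases hwf : w = f
      · left; exact hwf
      · right
        have hw0 : w ∈ S0 S e f := mem_S0.2 ⟨hwf, hwe, hw.1⟩
        exact ⟨hw0, by rw [← m3 w hw0]; exact hw.2⟩
    have h3 := (h1.trans (Finset.card_le_card h2)).trans (Finset.card_insert_le _ _)
    have h4 : (NN S e f).filter (fun z => f' z ≠ 0)
        = insert (e + f) ((S0 S e f).filter (fun z => f' z ≠ 0)) := by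
      unfold NN
      rw [Finset.filter_insert, if_pos hfg]
    rw [h4, Finset.card_insert_of_notMem]
    · omega
    · intro hh
      rw [mem_filter] at hh
      exact hg hh.1

lemma NN_eq (hg : e + f ∈ S0 S e f) : NN S e f = S0 S e f := by
  unfold NN; exact Finset.insert_eq_of_mem hg

lemma arith1 {r cS cN bS bi bo : ℕ} (h1 : 2 * bo + bi ≤ bS) (h2 : cS ≤ cN)
    (h3 : (r + 1) * cN ≤ 2 * (bi + bo)) (h4 : bi ≤ r * bo) : (r + 1 + 1) * cS ≤ 2 * bS := by
  have a1 : (r + 1 + 1) * cS ≤ (r + 1 + 1) * cN := Nat.mul_le_mul_left _ h2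
  have a2 : (r + 1) * ((r + 1 + 1) * cN) ≤ (r + 1) * (2 * (2 * bo + bi)) := by
    calc (r + 1) * ((r + 1 + 1) * cN) = (r + 1 + 1) * ((r + 1) * cN) := by ring
      _ ≤ (r + 1 + 1) * (2 * (bi + bo)) := Nat.mul_le_mul_left _ h3
      _ ≤ (r + 1) * (2 * (2 * bo + bi)) := by nlinarith
  have a3 : (r + 1 + 1) * cN ≤ 2 * (2 * bo + bi) := Nat.le_of_mul_le_mul_left a2 (by omega)
  omega

theorem T_series (hr : 5 ≤ rk S) (h0 : (0 : V) ∉ S) (hnc : NoColoop S) (s : Ser S e f h)
    (IH : ∀ S' : Finset V, S'.card < S.card → (0 : V) ∉ S' → NoColoop S' → T S') : T S := by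
  have hrk := s.rk_eq
  have hb := s.bases_ge
  have hc := s.circs_le h0
  have hg0 := s.g_ne_zero
  by_cases hg : e + f ∈ S0 S e f
  · rw [if_pos hg] at hc
    rw [NN_eq hg] at hrk hb hc
    set N := S0 S e f with hN
    have hall : (bases N).filter (fun B => B ⊆ N) = bases N := by
      apply Finset.filter_true_of_mem
      intro B hB
      exact (mem_bases.1 hB).1
    rw [hall] at hb
    have h0N : (0 : V) ∉ N := fun hh => h0 (S0_sub hh)
    have hNcard : N.card < S.card := by have := s.card_S0; rw [← hN] at this; omega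
    by_cases hcol : ∀ f' : V →ₗ[ZMod 2] ZMod 2, f' (e + f) ≠ 0 →
        2 ≤ (N.filter (fun z => f' z ≠ 0)).card
    · have hncN : NoColoop N := by
        intro f' hz
        by_cases hfg : f' (e + f) = 0
        · exact s.two_of_zero hnc f' hfg hz
        · exact hcol f' hfg
      have hT := IH N hNcard h0N hncN
      unfold T at hT ⊢
      rw [hrk]
      have hA := lemmaA_one _ N (e + f) rfl h0N hg
      unfold cJ bJ at hA
      simp only [Finset.singleton_subset_iff] at hA
      have hZ := bases_through hncN hg hg0
      set cg := ((circs N).filter (fun C => e + f ∈ C)).card with hcg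
      set bg := ((bases N).filter (fun C => e + f ∈ C)).card with hbg
      have hcgle : cg ≤ (circs N).card := Finset.card_filter_le _ _
      rcases Nat.eq_or_lt_of_le hcgle with heq | hlt
      · have hY : (circs N).card ≤ 1 := by
          apply circs_le_one (g := e + f)
          intro C hC
          have h2 : (circs N).filter (fun C => e + f ∈ C) = circs N :=
            Finset.eq_of_subset_of_card_le (Finset.filter_subset _ _) (le_of_eq heq.symm)
          rw [← h2, mem_filter] at hC
          exact hC.2
        have hρ : 4 ≤ rk N := by omega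
        have k1 : (rk N + 1 + 1) * (circs S).card ≤ (rk N + 1 + 1) * ((circs N).card + cg + 1) :=
          Nat.mul_le_mul_left _ hc
        have k2 : (circs N).card = 0 ∨ (circs N).card = 1 := by omega
        rcases k2 with k2 | k2
        · rw [heq, k2] at k1
          omega
        · rw [heq, k2] at k1
          rw [k2] at hT
          omega
      · have k1 : (rk N + 1 + 1) * (circs S).card ≤ (rk N + 1 + 1) * ((circs N).card + cg + 1) :=
          Nat.mul_le_mul_left _ hc
        obtain ⟨d, hd⟩ := Nat.exists_eq_add_of_lt hlt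
        rw [hd] at k1 hT
        have k3 : (rk N) * d ≥ 0 := Nat.zero_le _
        nlinarith
    · push Not at hcol
      obtain ⟨h', hh1, hh2⟩ := hcol
      have hh1' : h' (e + f) = 1 := (zmod2_ne _).1 hh1
      set S1 := N.erase (e + f) with hS1
      have hv : ∀ z ∈ S1, h' z = 0 := by
        intro z hz
        by_contra hne
        have h3 : ({z, e + f} : Finset V) ⊆ N.filter (fun z => h' z ≠ 0) := by
          intro w hw
          rw [mem_insert, mem_singleton] at hw
          rw [hS1, mem_erase] at hz
          rw [mem_filter]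
          rcases hw with rfl | rfl
          · exact ⟨hz.2, hne⟩
          · exact ⟨hg, hh1⟩
        have h4 := Finset.card_le_card h3
        rw [Finset.card_pair (by rw [hS1, mem_erase] at hz; exact hz.1)] at h4
        omega
      have hgn : e + f ∉ Submodule.span (ZMod 2) ((S1 : Finset V) : Set V) := fun hh =>
        hh1 (vanish_span hv hh)
      have hS1N : S1 ⊆ N := Finset.erase_subset _ _
      have hnc1 : NoColoop S1 := by
        intro f' hz
        obtain ⟨z, hz, hfz⟩ := hz
        -- correct f' to vanish on the pair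
        set f2 := f' + (f' (e + f)) • h' with hf2
        have q1 : f2 (e + f) = 0 := by
          simp only [hf2, LinearMap.add_apply, LinearMap.smul_apply, hh1', smul_eq_mul, mul_one]
          exact aself _
        have q2 : ∀ w ∈ S1, f2 w = f' w := by
          intro w hw
          simp only [hf2, LinearMap.add_apply, LinearMap.smul_apply, hv w hw, smul_eq_mul,
            mul_zero, add_zero]
        have q3 := s.two_of_zero hnc f2 q1 ⟨z, hS1N hz, by rw [q2 z hz]; exact hfz⟩
        refine q3.trans (Finset.card_le_card ?_)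
        intro w hw
        rw [mem_filter] at hw ⊢
        have hw1 : w ∈ S1 := by
          rw [hS1, mem_erase]
          exact ⟨fun hh => hw.2 (by rw [hh]; exact q1), hw.1⟩
        exact ⟨hw1, by rw [← q2 w hw1]; exact hw.2⟩
      have h01 : (0 : V) ∉ S1 := fun hh => h0N (hS1N hh)
      have hT := IH S1 (lt_of_le_of_lt (Finset.card_le_card hS1N) hNcard) h01 hnc1
      have hins : ∀ B ∈ bases S1, insert (e + f) B ∈ bases N := fun B hB =>
        insert_base hg hgn hB
      have hnotin : ∀ B ∈ bases S1, e + f ∉ B := fun B hB hh => by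
        have := (mem_bases.1 hB).1 hh
        rw [hS1] at this
        simp at this
      have hrk1 : rk N = rk S1 + 1 := by
        obtain ⟨B, hB⟩ := bases_nonempty S1
        have := (mem_bases.1 (hins B hB)).2.1
        rw [← this, Finset.card_insert_of_notMem (hnotin B hB), (mem_bases.1 hB).2.1]
      have hbg : (bases S1).card ≤ ((bases N).filter (fun B => e + f ∈ B)).card := by
        apply Finset.card_le_card_of_injOn (fun B => insert (e + f) B)
        · intro B hB
          simp only [coe_filter, Set.mem_ofPred_eq]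
          exact ⟨hins B hB, by simp⟩
        · intro B hB B' hB' hh
          simp only at hh
          rw [← Finset.erase_insert (hnotin B hB), hh, Finset.erase_insert (hnotin B' hB')]
      have hbN : ((bases N).filter (fun B => e + f ∈ B)).card ≤ (bases N).card :=
        Finset.card_filter_le _ _
      have hcg : ((circs N).filter (fun C => e + f ∈ C)).card = 0 := by
        rw [Finset.card_eq_zero, Finset.filter_eq_empty_iff]
        intro C hC hgC
        exact hgn (circ_mem_span hC hgC)
      have hcN : (circs N).card ≤ (circs S1).card := by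
        apply Finset.card_le_card
        intro C hC
        have hC' := mem_circs.1 hC
        rw [mem_circs, hS1, Finset.subset_erase]
        exact ⟨⟨hC'.1, fun hgC => hgn (circ_mem_span hC hgC)⟩, hC'.2⟩
      have hc1 : 1 ≤ (circs S1).card := by
        obtain ⟨B, hB⟩ := bases_nonempty S1
        have hBc := (mem_bases.1 hB).2.1
        have : 0 < B.card := by omega
        obtain ⟨z, hz⟩ := Finset.card_pos.1 this
        have hzS := (mem_bases.1 hB).1 hz
        have h3 := mem_span_erase hnc1 hzS
        rw [mem_span_iff] at h3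
        obtain ⟨X, hX, hXs⟩ := h3
        have hzX : z ∉ X := fun hh => by
          have := hX hh
          simp at this
        obtain ⟨C, hC, hcirc⟩ := exists_circ_subset (X := insert z X) (by simp) (by
          rw [Finset.sum_insert hzX, hXs, aself])
        refine Finset.card_pos.2 ⟨C, ?_⟩
        rw [mem_circs]
        refine ⟨hC.trans ?_, hcirc⟩
        apply Finset.insert_subset hzS
        exact hX.trans (Finset.erase_subset _ _)
      unfold T at hT ⊢
      rw [hrk, hrk1]
      have hr1 : 3 ≤ rk S1 := by omega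
      have k1 : (circs S).card ≤ (circs S1).card + 1 := by omega
      have k2 : 3 * (bases S1).card ≤ (bases S).card := by omega
      have k3 : (rk S1 + 1 + 1 + 1) * (circs S).card
          ≤ (rk S1 + 1 + 1 + 1) * ((circs S1).card + 1) := Nat.mul_le_mul_left _ k1
      have k4 : rk S1 * 1 ≤ rk S1 * (circs S1).card := Nat.mul_le_mul_left _ hc1
      nlinarith
  · rw [if_neg hg] at hc
    set N := NN S e f with hN
    have hncN := s.noColoop_NN hnc hg
    have h0N : (0 : V) ∉ N := by
      rw [hN]
      unfold NN
      rw [mem_insert, not_or]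
      exact ⟨Ne.symm hg0, fun hh => h0 (S0_sub hh)⟩
    have hT := IH N s.card_NN h0N hncN
    have hX := exchange hncN (g := e + f)
    have hA : (bases N).filter (fun B => B ⊆ S0 S e f) = (bases N).filter (fun B => e + f ∉ B) := by
      apply Finset.filter_congr
      intro B hB
      have hB' := (mem_bases.1 hB).1
      constructor
      · intro h1 h2; exact hg (h1 h2)
      · intro h1 z hz
        have := hB' hz
        rw [hN] at this
        unfold NN at this
        rw [mem_insert] at this
        rcases this with h2 | h2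
        · exact absurd (h2 ▸ hz) h1
        · exact h2
    rw [hA] at hb
    have hsplitb : (bases N).card = ((bases N).filter (fun B => e + f ∈ B)).card
        + ((bases N).filter (fun B => e + f ∉ B)).card :=
      (Finset.card_filter_add_card_filter_not _).symm
    have hsplitc : (circs N).card = ((circs N).filter (fun B => e + f ∈ B)).card
        + ((circs N).filter (fun B => e + f ∉ B)).card :=
      (Finset.card_filter_add_card_filter_not _).symm
    have hc0 : (circs (S0 S e f)).card ≤ ((circs N).filter (fun B => e + f ∉ B)).card := by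
      apply Finset.card_le_card
      intro C hC
      have hC' := mem_circs.1 hC
      rw [mem_filter, mem_circs]
      refine ⟨⟨hC'.1.trans ?_, hC'.2⟩, fun hh => hg (hC'.1 hh)⟩
      rw [hN]; unfold NN; exact Finset.subset_insert _ _
    unfold T at hT ⊢
    rw [hrk]
    rw [hsplitb] at hT
    exact arith1 hb (by omega) hT hX

end Pool.Agent.Helper705
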