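import Pool.Agent.Helper705.Small
import Pool.Agent.Helper705.Check4

set_option autoImplicit false
set_option linter.unusedSectionVars false
set_option linter.unusedVariables false

open Finset

namespace Pool.Agent.Helper705

variable {V : Type*} [AddCommGroup V] [Module (ZMod 2) V] [DecidableEq V]

theorem exists_coding {S : Finset V} {r : ℕ} (hr : rk S = r) :
    ∃ (φ : ℕ → V) (h : Fin r → (V →ₗ[ZMod 2] ZMod 2)),
      (∀ n m, φ (n ^^^ m) = φ n + φ m) ∧ φ 0 = 0 ∧ (∀ i : Fin r, φ (2 ^ (i : ℕ)) ∈ S) ∧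
      (∀ z ∈ S, ∃ n < 2 ^ r, φ n = z) ∧
      (∀ (i : Fin r) (n : ℕ), h i (φ n) = if n.testBit i then 1 else 0) := by
  obtain ⟨B, hB⟩ := bases_nonempty S
  have hB' := mem_bases.1 hB
  have hBr : B.card = r := by rw [hB'.2.1, hr]
  obtain ⟨hf, hh⟩ := exists_isCoord hB'.2.2
  let eqv := Finset.equivFinOfCardEq hBr
  let b : Fin r → V := fun i => (eqv.symm i : V)
  have hbB : ∀ i, b i ∈ B := fun i => (eqv.symm i).2
  have hbi : Function.Injective b := fun i j hij => eqv.symm.injective (Subtype.ext hij)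
  let φ : ℕ → V := fun n => ∑ i : Fin r, if n.testBit i then b i else 0
  have hcoord : ∀ i j : Fin r, hf (b i) (b j) = if j = i then 1 else 0 := by
    intro i j
    rw [hh (b i) (hbB i) (b j) (hbB j)]
    by_cases hji : j = i
    · rw [if_pos hji, if_pos (by rw [hji])]
    · rw [if_neg hji, if_neg (fun h => hji (hbi h))]
  refine ⟨φ, fun i => hf (b i), ?_, ?_, ?_, ?_, ?_⟩
  · intro n m
    show ∑ i : Fin r, _ = ∑ i : Fin r, _ + ∑ i : Fin r, _
    rw [← Finset.sum_add_distrib]
    apply Finset.sum_congr rfl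
    intro i _
    rw [Nat.testBit_xor]
    cases n.testBit i <;> cases m.testBit i <;> simp [aself]
  · show ∑ i : Fin r, _ = _
    apply Finset.sum_eq_zero
    intro i _
    simp
  · intro i
    have : φ (2 ^ (i : ℕ)) = b i := by
      show ∑ j : Fin r, _ = _
      rw [Finset.sum_eq_single i]
      · simp [Nat.testBit_two_pow]
      · intro j _ hj
        have : ¬ ((i : ℕ) = (j : ℕ)) := fun h => hj (Fin.ext h.symm)
        simp [Nat.testBit_two_pow, this]
      · intro h; exact absurd (Finset.mem_univ i) h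
    rw [this]
    exact hB'.1 (hbB i)
  · intro z hz
    obtain ⟨X, hX, hs⟩ := base_repr hB hz
    refine ⟨Nat.ofBits (fun i : Fin r => decide (b i ∈ X)), Nat.ofBits_lt_two_pow _, ?_⟩
    rw [← hs]
    show ∑ i : Fin r, _ = _
    have h1 : ∀ i : Fin r, (if (Nat.ofBits (fun i : Fin r => decide (b i ∈ X))).testBit i
        then b i else 0) = if b i ∈ X then b i else 0 := by
      intro i
      rw [Nat.testBit_ofBits_lt _ _ i.2]
      simp
    rw [Finset.sum_congr rfl (fun i _ => h1 i), ← Finset.sum_filter]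
    apply Finset.sum_bij (fun i _ => b i)
    · intro i hi
      rw [mem_filter] at hi; exact hi.2
    · intro i _ j _ hij
      exact hbi hij
    · intro x hx
      refine ⟨eqv ⟨x, hX hx⟩, ?_, ?_⟩
      · rw [mem_filter]
        refine ⟨Finset.mem_univ _, ?_⟩
        show ((eqv.symm (eqv ⟨x, hX hx⟩) : B) : V) ∈ X
        rw [Equiv.symm_apply_apply]; exact hx
      · show ((eqv.symm (eqv ⟨x, hX hx⟩) : B) : V) = x
        rw [Equiv.symm_apply_apply]
    · intro i _; rfl
  · intro i n
    show hf (b i) (∑ j : Fin r, _) = _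
    rw [map_sum]
    rw [Finset.sum_eq_single i]
    · split_ifs
      · rw [hcoord, if_pos rfl]
      · simp
    · intro j _ hj
      split_ifs
      · rw [hcoord, if_neg hj]
      · simp
    · intro h; exact absurd (Finset.mem_univ i) h

lemma coding_inj {r : ℕ} {φ : ℕ → V} {h : Fin r → (V →ₗ[ZMod 2] ZMod 2)}
    (hφ : ∀ (i : Fin r) (n : ℕ), h i (φ n) = if n.testBit i then 1 else 0) {n m : ℕ}
    (hn : n < 2 ^ r) (hm : m < 2 ^ r) (he : φ n = φ m) : n = m := by
  apply Nat.eq_of_testBit_eq
  intro i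
  by_cases hi : i < r
  · have h1 := hφ ⟨i, hi⟩ n
    have h2 := hφ ⟨i, hi⟩ m
    rw [he, h2] at h1
    simp only at h1
    cases h3 : n.testBit i <;> cases h4 : m.testBit i <;> simp_all
  · push Not at hi
    rw [Nat.testBit_lt_two_pow (lt_of_lt_of_le hn (Nat.pow_le_pow_right (by norm_num) hi)),
      Nat.testBit_lt_two_pow (lt_of_lt_of_le hm (Nat.pow_le_pow_right (by norm_num) hi))]

lemma cntBit_ge {S : Finset V} (hnc : NoColoop S) {φ : ℕ → V} {L : List ℕ}
    (hL : (L.map φ).toFinset = S) {f : V →ₗ[ZMod 2] ZMod 2} {i : ℕ}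
    (hf : ∀ n : ℕ, f (φ n) = if n.testBit i then 1 else 0) (hex : ∃ a ∈ L, a.testBit i = true) :
    2 ≤ cntBit i L := by
  obtain ⟨a, ha, hai⟩ := hex
  have h1 := hnc f ⟨φ a, by rw [← hL, List.mem_toFinset]; exact List.mem_map_of_mem ha, by
    rw [hf, if_pos hai]; exact one_ne_zero⟩
  rw [cntBit_eq]
  have h2 : S.filter (fun z => f z ≠ 0) ⊆ ((L.filter (fun a => a.testBit i)).map φ).toFinset := by
    intro z hz
    rw [mem_filter, ← hL, List.mem_toFinset, List.mem_map] at hz
    obtain ⟨⟨n, hn, rfl⟩, h3⟩ := hz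
    rw [List.mem_toFinset, List.mem_map]
    refine ⟨n, ?_, rfl⟩
    rw [List.mem_filter]
    refine ⟨hn, ?_⟩
    by_contra h4
    rw [hf, if_neg h4] at h3
    exact h3 rfl
  refine h1.trans ((Finset.card_le_card h2).trans ((List.toFinset_card_le _).trans ?_))
  rw [List.length_map]

/-- the data of a coded set -/
structure Coded (S : Finset V) (r : ℕ) (φ : ℕ → V) (L : List ℕ) : Prop where
  hx : ∀ n m, φ (n ^^^ m) = φ n + φ m
  h0 : φ 0 = 0
  inj : ∀ n < 2 ^ r, ∀ m < 2 ^ r, φ n = φ m → n = m
  lt : ∀ a ∈ L, a < 2 ^ r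
  pos : ∀ a ∈ L, a ≠ 0
  nd : L.Nodup
  eq : (L.map φ).toFinset = S

variable {S : Finset V} {r : ℕ} {φ : ℕ → V} {L : List ℕ}

lemma Coded.mem (c : Coded S r φ L) {n : ℕ} (hn : n < 2 ^ r) : φ n ∈ S ↔ n ∈ L := by
  rw [← c.eq, List.mem_toFinset, List.mem_map]
  constructor
  · rintro ⟨a, ha, he⟩
    rw [← c.inj a (c.lt a ha) n hn he]; exact ha
  · intro h; exact ⟨n, h, rfl⟩

lemma Coded.ndm (c : Coded S r φ L) : (L.map φ).Nodup :=
  List.Nodup.map_on (fun x hx y hy h => c.inj x (c.lt x hx) y (c.lt y hy) h) c.nd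

lemma Coded.mem_tb (c : Coded S r φ L) {n : ℕ} (hn : n < 2 ^ r) :
    tb (mask L) n = true ↔ φ n ∈ S := by
  rw [tb_eq, mask_testBit, c.mem hn]

lemma Coded.zero_iff (c : Coded S r φ L) {n : ℕ} (hn : n < 2 ^ r) : φ n = 0 ↔ n = 0 := by
  constructor
  · intro h
    exact c.inj n hn 0 (by positivity) (by rw [h, c.h0])
  · rintro rfl; exact c.h0

open Classical in
/-- indicator of independent sets with sum in S -/
noncomputable def ic (S : Finset V) (k : ℕ) (A : Finset V) : ℕ :=
  if Ind A ∧ ∑ x ∈ A, x ∈ S then k else 0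

open Classical in
/-- weights of independent sets -/
noncomputable def iw (S : Finset V) (k k' : ℕ) (A : Finset V) : ℕ :=
  if Ind A then (if ∑ x ∈ A, x ∈ S then k else k') else 0

lemma sum_ic {j : ℕ} (hj : 2 ≤ j) (k : ℕ) :
    ∑ A ∈ S.powersetCard j, ic S k A = k * ((j + 1) * cN S (j + 1)) := by
  classical
  rw [circ_count S hj]
  unfold ic
  rw [← Finset.sum_filter, Finset.sum_const, smul_eq_mul, mul_comm]

lemma sum_iw {j : ℕ} (hj : 2 ≤ j) (hr : rk S = j) {k k' : ℕ} (hk : k' = 2 * k) :
    ∑ A ∈ S.powersetCard j, iw S k k' A + k * ((j + 1) * cN S (j + 1)) = k' * (bases S).card := by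
  classical
  rw [← sum_ic hj, ← Finset.sum_add_distrib]
  have : ∀ A ∈ S.powersetCard j, iw S k k' A + ic S k A = if Ind A then k' else 0 := by
    intro A _
    unfold iw ic
    by_cases h1 : Ind A
    · by_cases h2 : ∑ x ∈ A, x ∈ S
      · simp only [h1, h2, if_true, and_self]; omega
      · simp only [h1, h2, if_true, if_false, and_false, add_zero]
    · simp only [h1, if_false, false_and, add_zero]
  rw [Finset.sum_congr rfl this, ← Finset.sum_filter, Finset.sum_const, smul_eq_mul, mul_comm]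
  unfold bases
  rw [hr]

lemma sub2 {r' : List ℕ} (hr : r'.length = 2) : ∃ a b, r' = [a, b] := by
  match r', hr with
  | [a, b], _ => exact ⟨a, b, rfl⟩

lemma sub3 {r' : List ℕ} (hr : r'.length = 3) : ∃ a b d, r' = [a, b, d] := by
  match r', hr with
  | [a, b, d], _ => exact ⟨a, b, d, rfl⟩

lemma sub4 {r' : List ℕ} (hr : r'.length = 4) : ∃ a b d e, r' = [a, b, d, e] := by
  match r', hr with
  | [a, b, d, e], _ => exact ⟨a, b, d, e, rfl⟩

lemma Coded.phi_ne (c : Coded S r φ L) {a : ℕ} (ha : a ∈ L) : φ a ≠ 0 := fun h =>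
  c.pos a ha ((c.zero_iff (c.lt a ha)).1 h)

lemma Coded.phi_ne' (c : Coded S r φ L) {a b : ℕ} (ha : a ∈ L) (hb : b ∈ L) (hab : a ≠ b) :
    φ a ≠ φ b := fun h => hab (c.inj a (c.lt a ha) b (c.lt b hb) h)

lemma Coded.S2_ge (c : Coded S r φ L) (k : ℕ) :
    ∑ A ∈ S.powersetCard 2, ic S k A ≤ S2 k (mask L) L := by
  classical
  have key := ws_ge φ 2 L (fun r' => match r' with | [a, b] => wt2 k (mask L) a b | _ => 0)
    (ic S k) c.ndm ?_
  · rw [c.eq] at key
    exact key
  · intro r' hsub hlen
    obtain ⟨a, b, rfl⟩ := sub2 hlen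
    have ha : a ∈ L := hsub.subset (by simp)
    have hb : b ∈ L := hsub.subset (by simp)
    have hnd := c.nd.sublist hsub
    have hab : a ≠ b := by
      intro h; subst h; simp at hnd
    have hs : (([a, b] : List ℕ).map φ).toFinset = {φ a, φ b} := by simp
    rw [hs]
    have hlt : a ^^^ b < 2 ^ r := Nat.xor_lt_two_pow (c.lt a ha) (c.lt b hb)
    show ic S k _ ≤ wt2 k (mask L) a b
    unfold ic wt2
    split_ifs with h
    · have h2 : tb (mask L) (Nat.xor a b) = true := by
        rw [show Nat.xor a b = a ^^^ b from rfl, c.mem_tb hlt, c.hx]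
        have := h.2
        rwa [Finset.sum_pair (c.phi_ne' ha hb hab)] at this
      rw [h2]; exact le_refl _
    · exact Nat.zero_le _

lemma Coded.S3_ge (c : Coded S r φ L) (k : ℕ) :
    ∑ A ∈ S.powersetCard 3, ic S k A ≤ S3 k (mask L) L := by
  classical
  have key := ws_ge φ 3 L (fun r' => match r' with | [a, b, d] => wt3 k (mask L) a b d | _ => 0)
    (ic S k) c.ndm ?_
  · rw [c.eq] at key
    exact key
  · intro r' hsub hlen
    obtain ⟨a, b, d, rfl⟩ := sub3 hlen
    have ha : a ∈ L := hsub.subset (by simp)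
    have hb : b ∈ L := hsub.subset (by simp)
    have hd : d ∈ L := hsub.subset (by simp)
    have hnd := c.nd.sublist hsub
    simp only [List.nodup_cons, List.mem_cons, List.not_mem_nil, or_false, not_or] at hnd
    have hs : (([a, b, d] : List ℕ).map φ).toFinset = {φ a, φ b, φ d} := by simp
    rw [hs]
    have hlt : a ^^^ b ^^^ d < 2 ^ r :=
      Nat.xor_lt_two_pow (Nat.xor_lt_two_pow (c.lt a ha) (c.lt b hb)) (c.lt d hd)
    have hsum : ∑ x ∈ ({φ a, φ b, φ d} : Finset V), x = φ a + φ b + φ d := by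
      rw [Finset.sum_insert, Finset.sum_pair (c.phi_ne' hb hd hnd.2.1), add_assoc]
      simp only [mem_insert, mem_singleton, not_or]
      exact ⟨c.phi_ne' ha hb hnd.1.1, c.phi_ne' ha hd hnd.1.2⟩
    show ic S k _ ≤ wt3 k (mask L) a b d
    unfold ic wt3
    split_ifs with h
    · have h2 : tb (mask L) (Nat.xor (Nat.xor a b) d) = true := by
        rw [show Nat.xor (Nat.xor a b) d = a ^^^ b ^^^ d from rfl, c.mem_tb hlt, c.hx, c.hx]
        have := h.2
        rwa [hsum] at this
      rw [h2]; exact le_refl _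
    · exact Nat.zero_le _

lemma Coded.I3_le (c : Coded S r φ L) :
    I3 (mask L) L ≤ ∑ A ∈ S.powersetCard 3, iw S 3 6 A := by
  classical
  have key := ws_le φ 3 L (fun r' => match r' with | [a, b, d] => wi3 (mask L) a b d | _ => 0)
    (iw S 3 6) c.ndm ?_
  · rw [c.eq] at key
    exact key
  · intro r' hsub hlen
    obtain ⟨a, b, d, rfl⟩ := sub3 hlen
    have ha : a ∈ L := hsub.subset (by simp)
    have hb : b ∈ L := hsub.subset (by simp)
    have hd : d ∈ L := hsub.subset (by simp)
    have hnd := c.nd.sublist hsub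
    simp only [List.nodup_cons, List.mem_cons, List.not_mem_nil, or_false, not_or] at hnd
    have hs : (([a, b, d] : List ℕ).map φ).toFinset = {φ a, φ b, φ d} := by simp
    rw [hs]
    have hlt : a ^^^ b ^^^ d < 2 ^ r :=
      Nat.xor_lt_two_pow (Nat.xor_lt_two_pow (c.lt a ha) (c.lt b hb)) (c.lt d hd)
    have hsum : ∑ x ∈ ({φ a, φ b, φ d} : Finset V), x = φ a + φ b + φ d := by
      rw [Finset.sum_insert, Finset.sum_pair (c.phi_ne' hb hd hnd.2.1), add_assoc]
      simp only [mem_insert, mem_singleton, not_or]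
      exact ⟨c.phi_ne' ha hb hnd.1.1, c.phi_ne' ha hd hnd.1.2⟩
    show wi3 (mask L) a b d ≤ _
    unfold wi3
    cases h0 : Nat.beq (Nat.xor (Nat.xor a b) d) 0
    · have hne : a ^^^ b ^^^ d ≠ 0 := by
        intro h
        have : Nat.beq (Nat.xor (Nat.xor a b) d) 0 = true := by
          rw [Nat.beq_eq]; exact h
        rw [h0] at this; exact Bool.noConfusion this
      have hI : Ind ({φ a, φ b, φ d} : Finset V) := by
        apply ind3 (c.phi_ne ha) (c.phi_ne hb) (c.phi_ne hd) (c.phi_ne' ha hb hnd.1.1)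
          (c.phi_ne' ha hd hnd.1.2) (c.phi_ne' hb hd hnd.2.1)
        rw [← c.hx, ← c.hx, Ne, c.zero_iff hlt]
        exact hne
      unfold iw
      rw [if_pos hI, hsum]
      have h3 := c.mem_tb hlt
      rw [c.hx, c.hx] at h3
      by_cases hS : φ a + φ b + φ d ∈ S
      · rw [if_pos hS, show tb (mask L) (Nat.xor (Nat.xor a b) d) = true from h3.2 hS]
        exact le_refl _
      · rw [if_neg hS]
        have : tb (mask L) (Nat.xor (Nat.xor a b) d) = false := by
          rw [Bool.eq_false_iff]; exact fun h => hS (h3.1 h)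
        rw [this]
        exact le_refl _
    · exact Nat.zero_le _

lemma Coded.I4_le (c : Coded S r φ L) :
    I4 (mask L) L ≤ ∑ A ∈ S.powersetCard 4, iw S 12 24 A := by
  classical
  have key := ws_le φ 4 L (fun r' => match r' with | [a, b, d, e] => wi4 (mask L) a b d e | _ => 0)
    (iw S 12 24) c.ndm ?_
  · rw [c.eq] at key
    exact key
  · intro r' hsub hlen
    obtain ⟨a, b, d, e, rfl⟩ := sub4 hlen
    have ha : a ∈ L := hsub.subset (by simp)
    have hb : b ∈ L := hsub.subset (by simp)
    have hd : d ∈ L := hsub.subset (by simp)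
    have he : e ∈ L := hsub.subset (by simp)
    have hnd := c.nd.sublist hsub
    simp only [List.nodup_cons, List.mem_cons, List.not_mem_nil, or_false, not_or] at hnd
    have hab := c.phi_ne' ha hb hnd.1.1
    have had := c.phi_ne' ha hd hnd.1.2.1
    have hae := c.phi_ne' ha he hnd.1.2.2
    have hbd := c.phi_ne' hb hd hnd.2.1.1
    have hbe := c.phi_ne' hb he hnd.2.1.2
    have hde := c.phi_ne' hd he hnd.2.2.1
    have hs : (([a, b, d, e] : List ℕ).map φ).toFinset = {φ a, φ b, φ d, φ e} := by simp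
    rw [hs]
    have hlt : ∀ {x y : ℕ}, x < 2 ^ r → y < 2 ^ r → x ^^^ y < 2 ^ r := fun h1 h2 =>
      Nat.xor_lt_two_pow h1 h2
    have la := c.lt a ha
    have lb := c.lt b hb
    have ld := c.lt d hd
    have le' := c.lt e he
    have hsum : ∑ x ∈ ({φ a, φ b, φ d, φ e} : Finset V), x = φ a + φ b + φ d + φ e := by
      rw [Finset.sum_insert, Finset.sum_insert, Finset.sum_pair hde]
      · abel
      · simp only [mem_insert, mem_singleton, not_or]
        exact ⟨hbd, hbe⟩
      · simp only [mem_insert, mem_singleton, not_or]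
        exact ⟨hab, had, hae⟩
    have hnz : ∀ {n : ℕ}, n < 2 ^ r → Nat.beq n 0 = false → φ n ≠ 0 := by
      intro n hn h0 hφ
      have h1 := (c.zero_iff hn).1 hφ
      have : Nat.beq n 0 = true := by rw [Nat.beq_eq]; exact h1
      rw [h0] at this; exact Bool.noConfusion this
    show wi4 (mask L) a b d e ≤ _
    unfold wi4
    cases h1 : Nat.beq (Nat.xor (Nat.xor a b) d) 0
    · cases h2 : Nat.beq (Nat.xor (Nat.xor a b) e) 0
      · cases h3 : Nat.beq (Nat.xor (Nat.xor a d) e) 0
        · cases h4 : Nat.beq (Nat.xor (Nat.xor b d) e) 0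
          · cases h5 : Nat.beq (Nat.xor (Nat.xor (Nat.xor a b) d) e) 0
            · have k1 := hnz (n := a ^^^ b ^^^ d) (hlt (hlt la lb) ld) h1
              have k2 := hnz (n := a ^^^ b ^^^ e) (hlt (hlt la lb) le') h2
              have k3 := hnz (n := a ^^^ d ^^^ e) (hlt (hlt la ld) le') h3
              have k4 := hnz (n := b ^^^ d ^^^ e) (hlt (hlt lb ld) le') h4
              have k5 := hnz (n := a ^^^ b ^^^ d ^^^ e) (hlt (hlt (hlt la lb) ld) le') h5
              rw [c.hx, c.hx] at k1 k2 k3 k4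
              rw [c.hx, c.hx, c.hx] at k5
              have hI : Ind ({φ a, φ b, φ d, φ e} : Finset V) :=
                ind4 (c.phi_ne ha) (c.phi_ne hb) (c.phi_ne hd) (c.phi_ne he)
                  hab had hae hbd hbe hde k1 k2 k3 k4 k5
              unfold iw
              rw [if_pos hI, hsum]
              have h6 := c.mem_tb (n := a ^^^ b ^^^ d ^^^ e) (hlt (hlt (hlt la lb) ld) le')
              rw [c.hx, c.hx, c.hx] at h6
              by_cases hS : φ a + φ b + φ d + φ e ∈ S
              · rw [if_pos hS, show tb (mask L) (Nat.xor (Nat.xor (Nat.xor a b) d) e) = true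
                  from h6.2 hS]
                exact le_refl _
              · rw [if_neg hS]
                have : tb (mask L) (Nat.xor (Nat.xor (Nat.xor a b) d) e) = false := by
                  rw [Bool.eq_false_iff]; exact fun h => hS (h6.1 h)
                rw [this]
                exact le_refl _
            · exact Nat.zero_le _
          · exact Nat.zero_le _
        · exact Nat.zero_le _
      · exact Nat.zero_le _
    · exact Nat.zero_le _

lemma cond_true_left {a b : Bool} (ha : a = false) (h : cond a true b = true) : b = true := by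
  rw [ha] at h; exact h

lemma ble_false {n : ℕ} (h : 2 ≤ n) : Nat.ble n 1 = false := by
  rw [Bool.eq_false_iff]
  intro h2
  have := Nat.le_of_ble_eq_true h2
  omega

lemma mask_ne_zero {L : List ℕ} {a : ℕ} (ha : a ∈ L) : mask L ≠ 0 := by
  intro h
  have := (mask_testBit L a).2 ha
  rw [h] at this
  simp at this

/-- all circuits have size between three and r + 1 -/
lemma circs_card_sum {S : Finset V} (h0 : (0 : V) ∉ S) {r : ℕ} (hr : rk S = r) :
    (circs S).card = ∑ k ∈ Finset.Icc 3 (r + 1), cN S k := by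
  classical
  rw [Finset.card_eq_sum_card_fiberwise (f := fun C => C.card) (t := Finset.Icc 3 (r + 1))]
  · rfl
  · intro C hC
    rw [mem_coe] at hC
    have h1 := circ_card_ge h0 hC
    have h2 := circ_card_le hC
    simp only [coe_Icc, Set.mem_Icc]
    omega

theorem T_rank4 {S : Finset V} (h0 : (0 : V) ∉ S) (hnc : NoColoop S) (hr : rk S = 4) : T S := by
  classical
  obtain ⟨φ, h, hx, hz, hb, hs, hh⟩ := exists_coding hr
  set q : ℕ → Bool := fun n => decide (φ n ∈ S) with hq
  set L : List ℕ := (([15, 14, 13, 3, 5, 6, 7, 9, 10, 11, 12] : List ℕ).filter q).reverse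
    ++ [1, 2, 4, 8] with hL
  have b0 : φ 1 ∈ S := hb 0
  have b1 : φ 2 ∈ S := hb 1
  have b2 : φ 4 ∈ S := hb 2
  have b3 : φ 8 ∈ S := hb 3
  have hmem : ∀ n : ℕ, n ∈ L ↔ (n ∈ ([15, 14, 13, 3, 5, 6, 7, 9, 10, 11, 12] : List ℕ) ∧ φ n ∈ S) ∨
      n ∈ ([1, 2, 4, 8] : List ℕ) := by
    intro n
    rw [hL, List.mem_append, List.mem_reverse, List.mem_filter, hq]
    simp only [decide_eq_true_iff]
  have c : Coded S 4 φ L := by
    refine ⟨hx, hz, fun n hn m hm he => coding_inj hh hn hm he, ?_, ?_, ?_, ?_⟩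
    · intro a ha
      rw [hmem] at ha
      simp only [List.mem_cons, List.not_mem_nil, or_false] at ha
      rcases ha with ⟨ha, _⟩ | ha
      · rcases ha with rfl|rfl|rfl|rfl|rfl|rfl|rfl|rfl|rfl|rfl|rfl <;> norm_num
      · rcases ha with rfl|rfl|rfl|rfl <;> norm_num
    · intro a ha
      rw [hmem] at ha
      simp only [List.mem_cons, List.not_mem_nil, or_false] at ha
      rcases ha with ⟨ha, _⟩ | ha
      · rcases ha with rfl|rfl|rfl|rfl|rfl|rfl|rfl|rfl|rfl|rfl|rfl <;> norm_num
      · rcases ha with rfl|rfl|rfl|rfl <;> norm_num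
    · rw [hL, List.nodup_append]
      refine ⟨?_, by decide, ?_⟩
      · rw [List.nodup_reverse]
        exact List.Nodup.filter _ (by decide)
      · intro a ha b hb hab
        subst hab
        rw [List.mem_reverse, List.mem_filter] at ha
        have h1 := ha.1
        simp only [List.mem_cons, List.not_mem_nil, or_false] at h1 hb
        omega
    · ext z
      rw [List.mem_toFinset, List.mem_map]
      constructor
      · rintro ⟨n, hn, rfl⟩
        rw [hmem] at hn
        rcases hn with hn | hn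
        · exact hn.2
        · simp only [List.mem_cons, List.not_mem_nil, or_false] at hn
          rcases hn with rfl|rfl|rfl|rfl <;> assumption
      · intro hz'
        obtain ⟨n, hn, rfl⟩ := hs z hz'
        refine ⟨n, ?_, rfl⟩
        rw [hmem]
        have hn0 : n ≠ 0 := by
          rintro rfl
          rw [hz] at hz'
          exact h0 hz'
        have hn16 : n < 16 := hn
        simp only [List.mem_cons, List.not_mem_nil, or_false]
        by_cases hc : n = 1 ∨ n = 2 ∨ n = 4 ∨ n = 8
        · right; exact hc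
        · left; exact ⟨by omega, hz'⟩
  have hm1 : (1 : ℕ) ∈ L := by rw [hmem]; right; simp
  have hm2 : (2 : ℕ) ∈ L := by rw [hmem]; right; simp
  have hm4 : (4 : ℕ) ∈ L := by rw [hmem]; right; simp
  have hm8 : (8 : ℕ) ∈ L := by rw [hmem]; right; simp
  have hchk := force_sound (mask_ne_zero hm1) (allSub_sound chk4 q _ _ check4)
  unfold chk4 at hchk
  have g0 := cntBit_ge hnc c.eq (hh 0) ⟨1, hm1, by decide⟩
  have g1 := cntBit_ge hnc c.eq (hh 1) ⟨2, hm2, by decide⟩
  have g2 := cntBit_ge hnc c.eq (hh 2) ⟨4, hm4, by decide⟩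
  have g3 := cntBit_ge hnc c.eq (hh 3) ⟨8, hm8, by decide⟩
  have k0 := cond_true_left (ble_false g0) hchk
  have k1 := cond_true_left (ble_false g1) k0
  have k2 := cond_true_left (ble_false g2) k1
  have k3 := cond_true_left (ble_false g3) k2
  have k4 : S2 20 (mask L) L + S3 15 (mask L) L ≤ I4 (mask L) L := Nat.le_of_ble_eq_true k3
  have e2 := c.S2_ge 20
  have e3 := c.S3_ge 15
  have e4 := c.I4_le
  rw [sum_ic (by norm_num)] at e2 e3
  have e5 := sum_iw (S := S) (j := 4) (by norm_num) hr (k := 12) (k' := 24) (by norm_num)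
  have hc := circs_card_sum h0 hr
  have hI : Finset.Icc 3 (4 + 1) = {3, 4, 5} := by decide
  rw [hI, Finset.sum_insert (by decide), Finset.sum_insert (by decide), Finset.sum_singleton] at hc
  have e2' : 20 * (3 * cN S 3) ≤ S2 20 (mask L) L := e2
  have e3' : 15 * (4 * cN S 4) ≤ S3 15 (mask L) L := e3
  have e5' : ∑ A ∈ S.powersetCard 4, iw S 12 24 A + 12 * (5 * cN S 5) = 24 * (bases S).card := e5
  unfold T
  rw [hr]
  omega

theorem T_rank3 {S : Finset V} (h0 : (0 : V) ∉ S) (hnc : NoColoop S) (hr : rk S = 3) : T S := by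
  classical
  obtain ⟨φ, h, hx, hz, hb, hs, hh⟩ := exists_coding hr
  set q : ℕ → Bool := fun n => decide (φ n ∈ S) with hq
  set L : List ℕ := (([3, 5, 6, 7] : List ℕ).filter q).reverse ++ [1, 2, 4] with hL
  have b0 : φ 1 ∈ S := hb 0
  have b1 : φ 2 ∈ S := hb 1
  have b2 : φ 4 ∈ S := hb 2
  have hmem : ∀ n : ℕ, n ∈ L ↔ (n ∈ ([3, 5, 6, 7] : List ℕ) ∧ φ n ∈ S) ∨
      n ∈ ([1, 2, 4] : List ℕ) := by
    intro n
    rw [hL, List.mem_append, List.mem_reverse, List.mem_filter, hq]
    simp only [decide_eq_true_iff]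
  have c : Coded S 3 φ L := by
    refine ⟨hx, hz, fun n hn m hm he => coding_inj hh hn hm he, ?_, ?_, ?_, ?_⟩
    · intro a ha
      rw [hmem] at ha
      simp only [List.mem_cons, List.not_mem_nil, or_false] at ha
      rcases ha with ⟨ha, _⟩ | ha
      · rcases ha with rfl|rfl|rfl|rfl <;> norm_num
      · rcases ha with rfl|rfl|rfl <;> norm_num
    · intro a ha
      rw [hmem] at ha
      simp only [List.mem_cons, List.not_mem_nil, or_false] at ha
      rcases ha with ⟨ha, _⟩ | ha
      · rcases ha with rfl|rfl|rfl|rfl <;> norm_num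
      · rcases ha with rfl|rfl|rfl <;> norm_num
    · rw [hL, List.nodup_append]
      refine ⟨?_, by decide, ?_⟩
      · rw [List.nodup_reverse]
        exact List.Nodup.filter _ (by decide)
      · intro a ha b hb hab
        subst hab
        rw [List.mem_reverse, List.mem_filter] at ha
        have h1 := ha.1
        simp only [List.mem_cons, List.not_mem_nil, or_false] at h1 hb
        omega
    · ext z
      rw [List.mem_toFinset, List.mem_map]
      constructor
      · rintro ⟨n, hn, rfl⟩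
        rw [hmem] at hn
        rcases hn with hn | hn
        · exact hn.2
        · simp only [List.mem_cons, List.not_mem_nil, or_false] at hn
          rcases hn with rfl|rfl|rfl <;> assumption
      · intro hz'
        obtain ⟨n, hn, rfl⟩ := hs z hz'
        refine ⟨n, ?_, rfl⟩
        rw [hmem]
        have hn0 : n ≠ 0 := by
          rintro rfl
          rw [hz] at hz'
          exact h0 hz'
        have hn8 : n < 8 := hn
        simp only [List.mem_cons, List.not_mem_nil, or_false]
        by_cases hc : n = 1 ∨ n = 2 ∨ n = 4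
        · right; exact hc
        · left; exact ⟨by omega, hz'⟩
  have hm1 : (1 : ℕ) ∈ L := by rw [hmem]; right; simp
  have hm2 : (2 : ℕ) ∈ L := by rw [hmem]; right; simp
  have hm4 : (4 : ℕ) ∈ L := by rw [hmem]; right; simp
  have hchk := force_sound (mask_ne_zero hm1) (allSub_sound chk3 q _ _ check3)
  unfold chk3 at hchk
  have g0 := cntBit_ge hnc c.eq (hh 0) ⟨1, hm1, by decide⟩
  have g1 := cntBit_ge hnc c.eq (hh 1) ⟨2, hm2, by decide⟩
  have g2 := cntBit_ge hnc c.eq (hh 2) ⟨4, hm4, by decide⟩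
  have k0 := cond_true_left (ble_false g0) hchk
  have k1 := cond_true_left (ble_false g1) k0
  have k2 := cond_true_left (ble_false g2) k1
  have k4 : S2 4 (mask L) L ≤ I3 (mask L) L := Nat.le_of_ble_eq_true k2
  have e2 := c.S2_ge 4
  have e4 := c.I3_le
  rw [sum_ic (by norm_num)] at e2
  have e5 := sum_iw (S := S) (j := 3) (by norm_num) hr (k := 3) (k' := 6) (by norm_num)
  have hc := circs_card_sum h0 hr
  have hI : Finset.Icc 3 (3 + 1) = {3, 4} := by decide
  rw [hI, Finset.sum_insert (by decide), Finset.sum_singleton] at hc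
  have e2' : 4 * (3 * cN S 3) ≤ S2 4 (mask L) L := e2
  have e5' : ∑ A ∈ S.powersetCard 3, iw S 3 6 A + 3 * (4 * cN S 4) = 6 * (bases S).card := e5
  unfold T
  rw [hr]
  omega

theorem T_rank2 {S : Finset V} (h0 : (0 : V) ∉ S) (hr : rk S = 2) : T S := by
  classical
  have e5 := sum_iw (S := S) (j := 2) (by norm_num) hr (k := 1) (k' := 2) (by norm_num)
  have hc := circs_card_sum h0 hr
  have hI : Finset.Icc 3 (2 + 1) = {3} := by decide
  rw [hI, Finset.sum_singleton] at hc
  have e5' : ∑ A ∈ S.powersetCard 2, iw S 1 2 A + 1 * (3 * cN S 3) = 2 * (bases S).card := e5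
  unfold T
  rw [hr]
  omega

theorem T_rank_le_one {S : Finset V} (h0 : (0 : V) ∉ S) (hr : rk S ≤ 1) : T S := by
  have hc := circs_card_sum h0 rfl
  have hI : Finset.Icc 3 (rk S + 1) = ∅ := by
    rw [Finset.Icc_eq_empty]; omega
  rw [hI, Finset.sum_empty] at hc
  unfold T
  rw [hc]
  omega

theorem T_small {S : Finset V} (h0 : (0 : V) ∉ S) (hnc : NoColoop S) (hr : rk S ≤ 4) : T S := by
  rcases Nat.lt_or_ge (rk S) 2 with h1 | h1
  · exact T_rank_le_one h0 (by omega)
  · have : rk S = 2 ∨ rk S = 3 ∨ rk S = 4 := by omega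
    rcases this with h | h | h
    · exact T_rank2 h0 h
    · exact T_rank3 h0 hnc h
    · exact T_rank4 h0 hnc h

end Pool.Agent.Helper705
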