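import Pool.Agent.Helper705.Star
import Pool.Agent.Helper705.SeriesT
import Pool.Agent.Helper705.Small2

set_option autoImplicit false
set_option linter.unusedSectionVars false
set_option linter.unusedVariables false

open Finset

namespace Pool.Agent.Helper705

variable {V : Type*} [AddCommGroup V] [Module (ZMod 2) V]

section
variable [DecidableEq V]

theorem T_all (n : ℕ) : ∀ S : Finset V, S.card = n → (0 : V) ∉ S → NoColoop S → T S := by
  induction n using Nat.strong_induction_on with
  | _ n ih =>
    intro S hn h0 hnc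
    have IH : ∀ S' : Finset V, S'.card < S.card → (0 : V) ∉ S' → NoColoop S' → T S' :=
      fun S' h1 h2 h3 => ih _ (hn ▸ h1) S' rfl h2 h3
    rcases Nat.lt_or_ge (rk S) 5 with hr | hr
    · exact T_small h0 hnc (by omega)
    · by_cases hcos : Cosimple S
      · apply T_of_star hcos _ (by omega) (star hcos hr)
        intro e he
        apply IH
        · rw [Finset.card_erase_of_mem he]
          have := Finset.card_pos.2 ⟨e, he⟩
          omega
        · exact fun hh => h0 (Finset.mem_of_mem_erase hh)
        · exact hcos.noColoop_erase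
      · unfold Cosimple at hcos
        push Not at hcos
        obtain ⟨h, hex, hlt⟩ := hcos
        have h2 := hnc h hex
        have hcard : (S.filter (fun z => h z ≠ 0)).card = 2 := by omega
        obtain ⟨e, f, hef, hset⟩ := Finset.card_eq_two.1 hcard
        have he : e ∈ S.filter (fun z => h z ≠ 0) := by rw [hset]; simp
        have hf : f ∈ S.filter (fun z => h z ≠ 0) := by rw [hset]; simp
        rw [mem_filter] at he hf
        have s : Ser S e f h := by
          refine ⟨he.1, hf.1, hef, (zmod2_ne _).1 he.2, (zmod2_ne _).1 hf.2, ?_⟩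
          intro z hz hze hzf
          by_contra hne
          have : z ∈ S.filter (fun z => h z ≠ 0) := by rw [mem_filter]; exact ⟨hz, hne⟩
          rw [hset, mem_insert, mem_singleton] at this
          rcases this with h1 | h1
          · exact hze h1
          · exact hzf h1
        exact T_series hr h0 hnc s IH

lemma circ_iff {C : Finset V} : Circ C ↔ ¬ Ind C ∧ ∀ X : Finset V, X ⊂ C → Ind X := by
  constructor
  · intro h
    exact ⟨h.not_ind, fun X hX => h.ind_of_ssubset hX⟩
  · rintro ⟨h1, h2⟩
    unfold Ind at h1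
    push Not at h1
    obtain ⟨X, hX, hs, hne⟩ := h1
    have hXC : X = C := by
      by_contra hc
      have := h2 X (hX.ssubset_of_ne hc) X (Finset.Subset.refl _) hs
      exact hne.ne_empty this
    subst hXC
    refine ⟨hne, hs, ?_⟩
    intro Y hY hYs
    by_cases hYX : Y = X
    · right; exact hYX
    · left
      exact h2 Y (hY.ssubset_of_ne hYX) Y (Finset.Subset.refl _) hYs

lemma bases_iff {S X : Finset V} : X ∈ bases S ↔ X ⊆ S ∧ Ind X ∧
    ∀ Y : Finset V, Y ⊆ S → Ind Y → X ⊆ Y → X = Y := by
  constructor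
  · intro h
    have h' := mem_bases.1 h
    refine ⟨h'.1, h'.2.2, ?_⟩
    intro Y hY hI hXY
    apply Finset.eq_of_subset_of_card_le hXY
    rw [h'.2.1]
    exact card_le_rk hY hI
  · rintro ⟨h1, h2, h3⟩
    obtain ⟨B, hB, hXB⟩ := exists_base_superset h1 h2
    have hB' := mem_bases.1 hB
    rw [h3 B hB'.1 hB'.2.2 hXB]
    exact hB

end

section transport
open Classical

variable {m : ℕ} (v : Fin m → V)

/-- image of a set of indices as a finite set of vectors -/
noncomputable def im (C : Set (Fin m)) : Finset V := (Finset.univ.filter (· ∈ C)).image v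

lemma coe_im (C : Set (Fin m)) : (im v C : Set V) = v '' C := by
  unfold im
  ext z
  simp

lemma mem_im {C : Set (Fin m)} {z : V} : z ∈ im v C ↔ ∃ i ∈ C, v i = z := by
  unfold im
  simp

variable {v}

lemma im_subset_iff (hv : Function.Injective v) {C D : Set (Fin m)} :
    im v C ⊆ im v D ↔ C ⊆ D := by
  rw [← Finset.coe_subset, coe_im, coe_im, Set.image_subset_image_iff hv]

lemma im_injective (hv : Function.Injective v) : Function.Injective (im v) := by
  intro C D h
  apply Set.Subset.antisymm
  · rw [← im_subset_iff hv, h]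
  · rw [← im_subset_iff hv, h]

lemma im_ssubset_iff (hv : Function.Injective v) {C D : Set (Fin m)} :
    im v C ⊂ im v D ↔ C ⊂ D := by
  rw [Finset.ssubset_def, Set.ssubset_def, im_subset_iff hv, im_subset_iff hv]

lemma im_surj {X : Finset V} (hX : X ⊆ im v Set.univ) : im v (v ⁻¹' (X : Set V)) = X := by
  ext z
  rw [mem_im]
  constructor
  · rintro ⟨i, hi, rfl⟩
    exact hi
  · intro hz
    obtain ⟨i, _, hi⟩ := (mem_im v).1 (hX hz)
    exact ⟨i, by rw [Set.mem_preimage, hi]; exact hz, hi⟩

lemma im_le_univ (C : Set (Fin m)) : im v C ⊆ im v Set.univ := by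
  intro z hz
  rw [mem_im] at hz ⊢
  obtain ⟨i, _, hi⟩ := hz
  exact ⟨i, trivial, hi⟩

theorem transport_main (M : Matroid (Fin m)) (hE : M.E = Set.univ)
    (hv : ∀ I : Set (Fin m), M.Indep I ↔ LinearIndependent (ZMod 2) (fun x : I => v x))
    (hsimp : ∀ e f : Fin m, M.Indep ({e, f} : Set (Fin m)))
    (hcirc : ∀ e : Fin m, ∃ C : Set (Fin m), M.IsCircuit C ∧ e ∈ C)
    (B : Set (Fin m)) (hB : M.IsBase B) :
    (B.ncard + 1) * {C : Set (Fin m) | M.IsCircuit C}.ncard
      ≤ 2 * {B' : Set (Fin m) | M.IsBase B'}.ncard := by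
  have hinj : Function.Injective v := by
    intro e f hef
    have h1 := (hv _).1 (hsimp e f)
    have h2 := h1.injective (a₁ := ⟨e, by simp⟩) (a₂ := ⟨f, by simp⟩) hef
    exact congrArg Subtype.val h2
  have hind : ∀ C : Set (Fin m), M.Indep C ↔ Ind (im v C) := by
    intro C
    rw [hv, ind_iff, coe_im]
    exact linearIndepOn_iff_image (hinj.injOn)
  set S : Finset V := im v Set.univ with hS
  have h0 : (0 : V) ∉ S := by
    intro h
    obtain ⟨e, _, he⟩ := (mem_im v).1 h
    have h1 := (hind _).1 (hsimp e e)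
    apply zero_notMem h1
    rw [mem_im]
    exact ⟨e, by simp, he⟩
  have hC : ∀ C : Set (Fin m), M.IsCircuit C ↔ im v C ∈ circs S := by
    intro C
    rw [Matroid.isCircuit_iff_forall_ssubset, mem_circs, circ_iff, Matroid.dep_iff, hind, hE]
    constructor
    · rintro ⟨⟨h1, _⟩, h2⟩
      refine ⟨im_le_univ C, h1, ?_⟩
      intro X hX
      have hXS : X ⊆ im v Set.univ := hX.1.trans (im_le_univ C)
      have h3 := im_surj hXS
      rw [← h3, ← hind]
      apply h2
      rw [← im_ssubset_iff hinj, h3]
      exact hX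
    · rintro ⟨_, h1, h2⟩
      refine ⟨⟨h1, Set.subset_univ _⟩, ?_⟩
      intro I hI
      rw [hind]
      exact h2 _ ((im_ssubset_iff hinj).2 hI)
  have hBb : ∀ C : Set (Fin m), M.IsBase C ↔ im v C ∈ bases S := by
    intro C
    rw [Matroid.isBase_iff_maximal_indep, maximal_subset_iff, bases_iff, hind]
    constructor
    · rintro ⟨h1, h2⟩
      refine ⟨im_le_univ C, h1, ?_⟩
      intro Y hY hI hCY
      have h3 := im_surj hY
      rw [← h3] at hI hCY ⊢
      rw [← hind] at hI
      rw [im_subset_iff hinj] at hCY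
      rw [h2 hI hCY]
    · rintro ⟨_, h1, h2⟩
      refine ⟨h1, ?_⟩
      intro t ht hCt
      rw [hind] at ht
      exact im_injective hinj (h2 _ (im_le_univ t) ht ((im_subset_iff hinj).2 hCt))
  have hcount : ∀ (p : Set (Fin m) → Prop) (F : Finset (Finset V)),
      (∀ C, p C ↔ im v C ∈ F) → (∀ X ∈ F, X ⊆ S) → {C | p C}.ncard = F.card := by
    intro p F hp hF
    rw [← Set.ncard_image_of_injective _ (im_injective hinj), ← Set.ncard_coe_finset]
    congr 1
    ext X
    simp only [Set.mem_image, Set.mem_ofPred_eq, mem_coe]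
    constructor
    · rintro ⟨C, hC, rfl⟩
      exact (hp C).1 hC
    · intro hX
      refine ⟨v ⁻¹' (X : Set V), ?_, im_surj (hF X hX)⟩
      rw [hp, im_surj (hF X hX)]
      exact hX
  have hc1 := hcount (fun C => M.IsCircuit C) (circs S) hC (fun X hX => (mem_circs.1 hX).1)
  have hb1 := hcount (fun C => M.IsBase C) (bases S) hBb (fun X hX => (mem_bases.1 hX).1)
  have hBr : B.ncard = rk S := by
    have h1 := mem_bases.1 ((hBb B).1 hB)
    rw [← h1.2.1, ← Set.ncard_image_of_injective _ hinj, ← coe_im, Set.ncard_coe_finset]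
  have hnc : NoColoop S := by
    intro f hf
    obtain ⟨z, hz, hfz⟩ := hf
    obtain ⟨e, _, he⟩ := (mem_im v).1 hz
    obtain ⟨C, hC1, heC⟩ := hcirc e
    have hC2 := mem_circs.1 ((hC C).1 hC1)
    by_contra hlt
    push Not at hlt
    have h1 : z ∈ S.filter (fun z => f z ≠ 0) := by rw [mem_filter]; exact ⟨hz, hfz⟩
    have h2 : S.filter (fun z => f z ≠ 0) = {z} := by
      apply Finset.eq_singleton_iff_unique_mem.2
      refine ⟨h1, ?_⟩
      intro w hw
      exact Finset.card_le_one.1 (by omega) w hw z h1
    have hzC : z ∈ im v C := by rw [mem_im]; exact ⟨e, heC, he⟩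
    have h3 : ∑ x ∈ im v C, f x = f z := by
      apply Finset.sum_eq_single z
      · intro w hw hwz
        by_contra hne
        have : w ∈ S.filter (fun z => f z ≠ 0) := by
          rw [mem_filter]; exact ⟨hC2.1 hw, hne⟩
        rw [h2, mem_singleton] at this
        exact hwz this
      · intro h; exact absurd hzC h
    rw [← map_sum, hC2.2.2.1, map_zero] at h3
    exact hfz h3.symm
  have hT := T_all _ S rfl h0 hnc
  unfold T at hT
  rw [hBr, hc1, hb1]
  exact hT

end transport

end Pool.Agent.Helper705
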