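import Pool.Agent.Helper705.Local

set_option autoImplicit false
set_option linter.unusedSectionVars false

open Finset

namespace Pool.Agent.Helper705

variable {V : Type*} [AddCommGroup V] [Module (ZMod 2) V] [DecidableEq V]

lemma vanish_span {A : Finset V} {f : V →ₗ[ZMod 2] ZMod 2} (hf : ∀ a ∈ A, f a = 0) {w : V}
    (hw : w ∈ Submodule.span (ZMod 2) (A : Set V)) : f w = 0 := by
  rw [mem_span_iff] at hw
  obtain ⟨X, hX, rfl⟩ := hw
  rw [map_sum]
  exact Finset.sum_eq_zero (fun x hx => hf x (hX hx))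

/-- adding one vector outside the hyperplane to an independent set inside it -/
lemma one_base {S C : Finset V} (hC : C ∈ circs S) (hcard : C.card = rk S)
    {f : V →ₗ[ZMod 2] ZMod 2} (hf : ∀ c ∈ C, f c = 0) {x z : V} (hx : x ∈ C) (hz : z ∈ S)
    (hfz : f z ≠ 0) : (C.erase x) ∪ {z} ∈ bases S := by
  have hC' := mem_circs.1 hC
  have hI : Ind (C.erase x) := hC'.2.ind_erase hx
  have hz1 : z ∉ Submodule.span (ZMod 2) ((C.erase x : Finset V) : Set V) := fun h =>
    hfz (vanish_span (fun a ha => hf a (Finset.mem_of_mem_erase ha)) h)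
  have hz2 : z ∉ C.erase x := fun h => hz1 (Submodule.subset_span h)
  rw [Finset.union_comm, ← Finset.insert_eq, mem_bases]
  refine ⟨?_, ?_, ind_insert hI hz1⟩
  · apply Finset.insert_subset hz
    exact (Finset.erase_subset _ _).trans hC'.1
  · rw [Finset.card_insert_of_notMem hz2, Finset.card_erase_of_mem hx, hcard]
    have : 1 ≤ rk S := by
      rw [← hcard]; exact Finset.card_pos.2 ⟨x, hx⟩
    omega

lemma one_base_iff {S C : Finset V} (hC : C ∈ circs S) (hcard : C.card = rk S)
    {f : V →ₗ[ZMod 2] ZMod 2} (hf : ∀ c ∈ C, f c = 0) (hS : ∃ z ∈ S, f z ≠ 0)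
    {x z : V} (hx : x ∈ C) (hz : z ∈ S) : (C.erase x) ∪ {z} ∈ bases S ↔ f z ≠ 0 := by
  constructor
  · intro h hfz
    obtain ⟨w, hw, hfw⟩ := hS
    apply hfw
    have h1 : w ∈ Submodule.span (ZMod 2) (((C.erase x) ∪ {z} : Finset V) : Set V) := by
      rw [span_eq_of_base h]; exact Submodule.subset_span hw
    apply vanish_span _ h1
    intro a ha
    rw [mem_union, mem_singleton] at ha
    rcases ha with ha | rfl
    · exact hf a (Finset.mem_of_mem_erase ha)
    · exact hfz
  · exact one_base hC hcard hf hx hz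

lemma two_base {S C : Finset V} (hC : C ∈ circs S) (hr : 2 ≤ rk S) (hcard : C.card = rk S - 1)
    {f g : V →ₗ[ZMod 2] ZMod 2} (hf : ∀ c ∈ C, f c = 0) (hg : ∀ c ∈ C, g c = 0)
    {x y z : V} (hx : x ∈ C) (hy : y ∈ S) (hz : z ∈ S)
    (hy1 : f y ≠ 0 ∨ g y ≠ 0) (hz1 : f z ≠ 0 ∨ g z ≠ 0) (hyz : f y ≠ f z ∨ g y ≠ g z) :
    (C.erase x) ∪ {y, z} ∈ bases S := by
  have hC' := mem_circs.1 hC
  have hI : Ind (C.erase x) := hC'.2.ind_erase hx
  have hfA : ∀ a ∈ C.erase x, f a = 0 := fun a ha => hf a (Finset.mem_of_mem_erase ha)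
  have hgA : ∀ a ∈ C.erase x, g a = 0 := fun a ha => hg a (Finset.mem_of_mem_erase ha)
  have hz2 : z ∉ Submodule.span (ZMod 2) ((C.erase x : Finset V) : Set V) := by
    intro h
    rcases hz1 with h1 | h1
    · exact h1 (vanish_span hfA h)
    · exact h1 (vanish_span hgA h)
  have hz3 : z ∉ C.erase x := fun h => hz2 (Submodule.subset_span h)
  have hI2 : Ind (insert z (C.erase x)) := ind_insert hI hz2
  have hy2 : y ∉ Submodule.span (ZMod 2) ((insert z (C.erase x) : Finset V) : Set V) := by
    intro h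
    rw [mem_span_iff] at h
    obtain ⟨X, hX, hs⟩ := h
    by_cases hzX : z ∈ X
    · have h1 : ∑ w ∈ X, w = z + ∑ w ∈ X.erase z, w :=
        (Finset.add_sum_erase X (fun x => x) hzX).symm
      have h2 : X.erase z ⊆ C.erase x := by
        intro w hw
        rw [mem_erase] at hw
        have := hX hw.2
        rw [mem_insert] at this
        rcases this with h | h
        · exact absurd h hw.1
        · exact h
      have h3 : ∑ w ∈ X.erase z, w ∈ Submodule.span (ZMod 2) ((C.erase x : Finset V) : Set V) := by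
        rw [mem_span_iff]; exact ⟨_, h2, rfl⟩
      rw [hs] at h1
      have e1 : f y = f z := by rw [h1, map_add, vanish_span hfA h3, add_zero]
      have e2 : g y = g z := by rw [h1, map_add, vanish_span hgA h3, add_zero]
      rcases hyz with h | h
      · exact h e1
      · exact h e2
    · have h2 : X ⊆ C.erase x := by
        intro w hw
        have := hX hw
        rw [mem_insert] at this
        rcases this with h | h
        · subst h; exact absurd hw hzX
        · exact h
      have h3 : y ∈ Submodule.span (ZMod 2) ((C.erase x : Finset V) : Set V) := by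
        rw [mem_span_iff]; exact ⟨_, h2, hs⟩
      rcases hy1 with h | h
      · exact h (vanish_span hfA h3)
      · exact h (vanish_span hgA h3)
  have hy3 : y ∉ insert z (C.erase x) := fun h => hy2 (Submodule.subset_span h)
  have heq : (C.erase x) ∪ {y, z} = insert y (insert z (C.erase x)) := by
    ext w; simp only [mem_union, mem_insert, mem_singleton]; tauto
  rw [heq, mem_bases]
  refine ⟨?_, ?_, ind_insert hI2 hy2⟩
  · apply Finset.insert_subset hy
    apply Finset.insert_subset hz
    exact (Finset.erase_subset _ _).trans hC'.1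
  · rw [Finset.card_insert_of_notMem hy3, Finset.card_insert_of_notMem hz3,
      Finset.card_erase_of_mem hx, hcard]
    have : 1 ≤ rk S - 1 := by
      rw [← hcard]; exact Finset.card_pos.2 ⟨x, hx⟩
    omega

/-- lower bound for the number of ways to complete a circuit of size r-1 -/
lemma n2_bound {S C : Finset V} (hC : C ∈ circs S) (hr : 2 ≤ rk S) (hcard : C.card = rk S - 1)
    {f g : V →ₗ[ZMod 2] ZMod 2} (hf : ∀ c ∈ C, f c = 0) (hg : ∀ c ∈ C, g c = 0) :
    C.card * ((S.filter (fun z => f z ≠ 0 ∧ g z = 0)).card * (S.filter (fun z => g z ≠ 0 ∧ f z = 0)).card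
      + (S.filter (fun z => g z ≠ 0 ∧ f z = 0)).card * (S.filter (fun z => f z ≠ 0 ∧ g z ≠ 0)).card
      + (S.filter (fun z => f z ≠ 0 ∧ g z ≠ 0)).card * (S.filter (fun z => f z ≠ 0 ∧ g z = 0)).card)
      ≤ (P S 2 C).card := by
  set a := S.filter (fun z => f z ≠ 0 ∧ g z = 0) with ha
  set b := S.filter (fun z => g z ≠ 0 ∧ f z = 0) with hb
  set c := S.filter (fun z => f z ≠ 0 ∧ g z ≠ 0) with hc
  have d1 : Disjoint (a ×ˢ b) (b ×ˢ c) := by
    rw [Finset.disjoint_left]
    rintro ⟨y, z⟩ h1 h2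
    simp only [mem_product, ha, hb, hc, mem_filter] at h1 h2
    tauto
  have d2 : Disjoint (a ×ˢ b ∪ b ×ˢ c) (c ×ˢ a) := by
    rw [Finset.disjoint_left]
    rintro ⟨y, z⟩ h1 h2
    simp only [mem_union, mem_product, ha, hb, hc, mem_filter] at h1 h2
    tauto
  have hcd : C.card * (a.card * b.card + b.card * c.card + c.card * a.card)
      = (C ×ˢ (a ×ˢ b ∪ b ×ˢ c ∪ c ×ˢ a)).card := by
    rw [Finset.card_product, Finset.card_union_of_disjoint d2, Finset.card_union_of_disjoint d1,
      Finset.card_product, Finset.card_product, Finset.card_product]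
  rw [hcd]
  apply Finset.card_le_card_of_injOn (fun p => (p.1, ({p.2.1, p.2.2} : Finset V)))
  · rintro ⟨x, y, z⟩ hp
    simp only [coe_product, coe_union, Set.mem_prod, mem_coe, Set.mem_union, ha, hb, hc,
      mem_filter] at hp
    simp only [mem_coe, mem_P]
    have hyS : y ∈ S := by tauto
    have hzS : z ∈ S := by tauto
    have hyz : f y ≠ f z ∨ g y ≠ g z := by
      rcases hp.2 with (h | h) | h
      · left; rw [h.2.2.2]; exact h.1.2.1
      · left; rw [h.1.2.2]; exact (Ne.symm h.2.2.1)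
      · right; rw [h.2.2.2]; exact h.1.2.2
    have hne : y ≠ z := by
      rintro rfl
      tauto
    refine ⟨hp.1, ?_, Finset.card_pair hne, ?_⟩
    · intro w hw
      simp only [mem_insert, mem_singleton] at hw
      rcases hw with rfl | rfl <;> assumption
    · apply two_base hC hr hcard hf hg hp.1 hyS hzS _ _ hyz
      · tauto
      · tauto
  · rintro ⟨x, y, z⟩ hp ⟨x', y', z'⟩ hp' he
    simp only [coe_product, coe_union, Set.mem_prod, mem_coe, Set.mem_union, ha, hb, hc,
      mem_filter] at hp hp'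
    simp only [Prod.mk.injEq] at he
    obtain ⟨rfl, he⟩ := he
    have h1 : (y = y' ∧ z = z') ∨ (y = z' ∧ z = y') := by
      have e1 : y ∈ ({y', z'} : Finset V) := by rw [← he]; simp
      have e2 : z ∈ ({y', z'} : Finset V) := by rw [← he]; simp
      have e3 : y' ∈ ({y, z} : Finset V) := by rw [he]; simp
      have e4 : z' ∈ ({y, z} : Finset V) := by rw [he]; simp
      simp only [mem_insert, mem_singleton] at e1 e2 e3 e4
      rcases e1 with rfl | rfl
      · rcases e2 with rfl | rfl
        · left; refine ⟨rfl, ?_⟩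
          rcases e4 with h | h <;> exact h.symm
        · left; exact ⟨rfl, rfl⟩
      · rcases e2 with rfl | rfl
        · right; exact ⟨rfl, rfl⟩
        · right; refine ⟨rfl, ?_⟩
          rcases e3 with h | h <;> exact h.symm
    rcases h1 with ⟨rfl, rfl⟩ | ⟨rfl, rfl⟩
    · rfl
    · exfalso
      tauto

lemma beta8 {a b c : ℕ} (h1 : 3 ≤ a + b) (h2 : 3 ≤ b + c) (h3 : 3 ≤ a + c) :
    8 ≤ a * b + b * c + c * a := by
  rcases Nat.lt_or_ge a 3 with ha | ha
  · interval_cases a
    · nlinarith [mul_le_mul h1 h3 (by norm_num) (by omega)]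
    · have hb : 2 ≤ b := by omega
      have hc : 2 ≤ c := by omega
      nlinarith [mul_le_mul hb hc (by norm_num) (by omega)]
    · have hb : 1 ≤ b := by omega
      have hc : 1 ≤ c := by omega
      have : 3 ≤ b + c := h2
      rcases Nat.lt_or_ge b 2 with hb2 | hb2
      · have : b = 1 := by omega
        subst this
        omega
      · nlinarith [mul_le_mul hb2 hc (by norm_num) (by omega)]
  · have : 9 ≤ a * (b + c) := by
      calc 9 = 3 * 3 := rfl
        _ ≤ a * (b + c) := Nat.mul_le_mul ha h2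
    nlinarith [Nat.zero_le (b * c)]

lemma beta7 {a b c : ℕ} (ha : 1 ≤ a) (hb : 1 ≤ b) (hc : 1 ≤ c)
    (h1 : 3 ≤ a + b) (h2 : 3 ≤ b + c) (h3 : 3 ≤ a + c) :
    3 * (a + b + c) ≤ a * b + b * c + c * a + 7 := by
  obtain ⟨x, rfl⟩ := Nat.exists_eq_add_of_le ha
  obtain ⟨y, rfl⟩ := Nat.exists_eq_add_of_le hb
  obtain ⟨z, rfl⟩ := Nat.exists_eq_add_of_le hc
  -- pairwise sums of x, y, z are at least one
  rcases Nat.eq_zero_or_pos x with hx | hx
  · subst hx
    have hy : 1 ≤ y := by omega
    have hz : 1 ≤ z := by omega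
    obtain ⟨y, rfl⟩ := Nat.exists_eq_add_of_le hy
    obtain ⟨z, rfl⟩ := Nat.exists_eq_add_of_le hz
    nlinarith [Nat.zero_le (y * z)]
  · rcases Nat.eq_zero_or_pos y with hy | hy
    · subst hy
      have hz : 1 ≤ z := by omega
      obtain ⟨x, rfl⟩ := Nat.exists_eq_add_of_le hx
      obtain ⟨z, rfl⟩ := Nat.exists_eq_add_of_le hz
      nlinarith [Nat.zero_le (x * z)]
    · rcases Nat.eq_zero_or_pos z with hz | hz
      · subst hz
        obtain ⟨x, rfl⟩ := Nat.exists_eq_add_of_le hx
        obtain ⟨y, rfl⟩ := Nat.exists_eq_add_of_le hy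
        nlinarith [Nat.zero_le (x * y)]
      · obtain ⟨x, rfl⟩ := Nat.exists_eq_add_of_le hx
        obtain ⟨y, rfl⟩ := Nat.exists_eq_add_of_le hy
        obtain ⟨z, rfl⟩ := Nat.exists_eq_add_of_le hz
        nlinarith [Nat.zero_le (x * y), Nat.zero_le (y * z), Nat.zero_le (z * x)]

lemma beta9 {a b c : ℕ} (h1 : 3 ≤ a + b) (h2 : 3 ≤ b + c) (h3 : 3 ≤ a + c) :
    3 * (a + b + c) ≤ a * b + b * c + c * a + 9 := by
  rcases Nat.eq_zero_or_pos a with ha | ha
  · subst ha
    have hb : 3 ≤ b := by omega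
    have hc : 3 ≤ c := by omega
    obtain ⟨b, rfl⟩ := Nat.exists_eq_add_of_le hb
    obtain ⟨c, rfl⟩ := Nat.exists_eq_add_of_le hc
    nlinarith [Nat.zero_le (b * c)]
  · rcases Nat.eq_zero_or_pos b with hb | hb
    · subst hb
      have ha : 3 ≤ a := by omega
      have hc : 3 ≤ c := by omega
      obtain ⟨a, rfl⟩ := Nat.exists_eq_add_of_le ha
      obtain ⟨c, rfl⟩ := Nat.exists_eq_add_of_le hc
      nlinarith [Nat.zero_le (a * c)]
    · rcases Nat.eq_zero_or_pos c with hc | hc
      · subst hc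
        have ha : 3 ≤ a := by omega
        have hb : 3 ≤ b := by omega
        obtain ⟨a, rfl⟩ := Nat.exists_eq_add_of_le ha
        obtain ⟨b, rfl⟩ := Nat.exists_eq_add_of_le hb
        nlinarith [Nat.zero_le (a * b)]
      · have := beta7 ha hb hc h1 h2 h3
        omega

end Pool.Agent.Helper705
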