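import Mathlib

set_option autoImplicit false
set_option linter.unusedSectionVars false

open Finset

namespace Pool.Agent.Helper705

/-- weight on bases whose sum is not in the set -/
def w0 (r N e : ℕ) : ℚ :=
  if 3 * e ≤ 2 * N then 2 * ((r : ℚ) + 1) / ((N : ℚ) - e) else 6 * ((r : ℚ) + 1) / N

/-- weight on bases whose sum is in the set -/
def w1 (r N e : ℕ) : ℚ :=
  if 3 * e ≤ 2 * N then 0 else 2 * ((r : ℚ) + 1) * (3 * e - 2 * N) / (N * e)

lemma w_sum {r N e : ℕ} (hN : 1 ≤ N) :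
    ((N : ℚ) - e) * w0 r N e + e * w1 r N e = 2 * ((r : ℚ) + 1) := by
  have hN' : (0 : ℚ) < N := by exact_mod_cast hN
  unfold w0 w1
  split_ifs with h
  · have h1 : (3 : ℚ) * e ≤ 2 * N := by exact_mod_cast h
    have h2 : (0 : ℚ) < N - e := by linarith
    field_simp
    ring
  · push Not at h
    have h1 : (2 : ℚ) * N < 3 * e := by exact_mod_cast h
    have h2 : (0 : ℚ) < e := by linarith
    field_simp
    ring

lemma w0_crude {r t e : ℕ} (hr : 1 ≤ r) (ht : 3 ≤ t) :
    w0 r (r * t) e ≤ 2 * ((r : ℚ) + 1) / r := by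
  have hr' : (1 : ℚ) ≤ r := by exact_mod_cast hr
  have ht' : (3 : ℚ) ≤ t := by exact_mod_cast ht
  have hrt : (r : ℚ) * 3 ≤ r * t := by nlinarith
  unfold w0
  split_ifs with h
  · have h1 : (3 : ℚ) * e ≤ 2 * (r * t) := by exact_mod_cast h
    push_cast
    have h2 : (0 : ℚ) < r * t - e := by linarith
    rw [div_le_div_iff₀ h2 (by linarith)]
    have : (r : ℚ) ≤ r * t - e := by linarith
    nlinarith
  · push_cast
    rw [div_le_div_iff₀ (by linarith) (by linarith)]
    nlinarith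

lemma key_quad {r τ k : ℕ} (hr : 5 ≤ r) (hτ : τ ≤ r) (hk : 10 * k + 1 ≤ 11 * τ) :
    5 * k ^ 2 + 40 * k ≤ 3 * r * τ + 10 * r * k := by
  rcases Nat.eq_or_lt_of_le hr with h5 | h6
  · subst h5
    interval_cases τ <;> (have : k ≤ 5 := by omega) <;> interval_cases k <;> omega
  · have h6 : 6 ≤ r := h6
    have a1 : 50 * (k * k) ≤ 55 * (k * r) := by
      have : 10 * k ≤ 11 * r := by omega
      nlinarith
    have a2 : 11 * (r * τ) ≥ 10 * (r * k) := by
      have : 11 * τ ≥ 10 * k := by omega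
      nlinarith
    have a3 : 6 * k ≤ r * k := Nat.mul_le_mul_right _ h6
    nlinarith

lemma w0_fine {r τ k e : ℕ} (hr : 5 ≤ r) (hτ : τ ≤ r) (hτ1 : 1 ≤ τ)
    (he : 2 * e ≤ 8 * k + k ^ 2) :
    w0 r (r * (τ + k)) e ≤ 20 * ((r : ℚ) + 1) / (7 * r * τ) := by
  have hr' : (5 : ℚ) ≤ r := by exact_mod_cast hr
  have hτ' : (1 : ℚ) ≤ τ := by exact_mod_cast hτ1
  have hk0 : (0 : ℚ) ≤ k := by positivity
  have he' : (2 : ℚ) * e ≤ 8 * k + k ^ 2 := by exact_mod_cast he
  have hrτ : (0 : ℚ) < r * τ := by positivity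
  by_cases hk : 10 * k + 1 ≤ 11 * τ
  · have h1 := key_quad hr hτ hk
    have h1' : (5 : ℚ) * k ^ 2 + 40 * k ≤ 3 * r * τ + 10 * r * k := by exact_mod_cast h1
    have hk' : (10 : ℚ) * k + 1 ≤ 11 * τ := by exact_mod_cast hk
    have h2 : (7 : ℚ) * (r * τ) ≤ 10 * (r * (τ + k) - e) := by nlinarith
    have h3 : (r : ℚ) * (10 * k) ≤ r * (11 * τ) := by
      apply mul_le_mul_of_nonneg_left _ (by linarith); linarith
    have h4 : 3 * e ≤ 2 * (r * (τ + k)) := by
      have : (3 : ℚ) * e ≤ 2 * (r * (τ + k)) := by nlinarith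
      exact_mod_cast this
    unfold w0
    rw [if_pos h4]
    push_cast
    have h5 : (0 : ℚ) < r * (τ + k) - e := by linarith
    rw [div_le_div_iff₀ h5 (by positivity)]
    nlinarith
  · push Not at hk
    have hk' : (11 : ℚ) * τ ≤ 10 * k := by
      have : 11 * τ ≤ 10 * k := by omega
      exact_mod_cast this
    have h3 : (r : ℚ) * (11 * τ) ≤ r * (10 * k) :=
      mul_le_mul_of_nonneg_left hk' (by linarith)
    unfold w0
    split_ifs with h
    · have h1 : (3 : ℚ) * e ≤ 2 * (r * (τ + k)) := by exact_mod_cast h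
      push_cast
      have h5 : (0 : ℚ) < r * (τ + k) - e := by nlinarith
      rw [div_le_div_iff₀ h5 (by positivity)]
      have h6 : (7 : ℚ) * (r * τ) ≤ 10 * (r * (τ + k) - e) := by nlinarith
      nlinarith
    · push_cast
      rw [div_le_div_iff₀ (by positivity) (by positivity)]
      have h6 : (42 : ℚ) * (r * τ) ≤ 20 * (r * (τ + k)) := by nlinarith
      nlinarith

lemma cube_lt {r t e : ℕ} (hr : 2 ≤ r) (ht : 1 ≤ t) (h : 2 * (r * t) < 3 * e)
    (hiso : 2 ^ ((r - 1) * e) ≤ t ^ (r * t)) : 4 ^ (r - 1) < t ^ 3 := by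
  have h1 : (4 ^ (r - 1)) ^ (r * t) < (t ^ 3) ^ (r * t) := by
    calc (4 ^ (r - 1)) ^ (r * t) = 2 ^ ((r - 1) * (2 * (r * t))) := by
          rw [show (4 : ℕ) = 2 ^ 2 from rfl, ← pow_mul, ← pow_mul]; congr 1; ring
      _ < 2 ^ ((r - 1) * (3 * e)) := by
          apply Nat.pow_lt_pow_right (by norm_num)
          apply Nat.mul_lt_mul_of_pos_left h (by omega)
      _ = (2 ^ ((r - 1) * e)) ^ 3 := by rw [← pow_mul]; congr 1; ring
      _ ≤ (t ^ (r * t)) ^ 3 := Nat.pow_le_pow_left hiso 3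
      _ = (t ^ 3) ^ (r * t) := by rw [← pow_mul, ← pow_mul]; congr 1; ring
  exact lt_of_pow_lt_pow_left₀ _ (by positivity) h1

lemma pow_big {r : ℕ} (hr : 9 ≤ r) : (3 * r + 7) ^ 3 ≤ 4 ^ (r - 1) := by
  induction r, hr using Nat.le_induction with
  | base => norm_num
  | succ n hn ih =>
    obtain ⟨m, rfl⟩ := Nat.exists_eq_add_of_le hn
    have e1 : 9 + m + 1 - 1 = (9 + m - 1) + 1 := by omega
    have h4 : (3 * (9 + m + 1) + 7) ^ 3 ≤ (3 * (9 + m) + 7) ^ 3 * 4 := by
      ring_nf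
      nlinarith [sq_nonneg m, Nat.zero_le (m ^ 3)]
    calc (3 * (9 + m + 1) + 7) ^ 3 ≤ (3 * (9 + m) + 7) ^ 3 * 4 := h4
      _ ≤ 4 ^ (9 + m - 1) * 4 := Nat.mul_le_mul_right 4 ih
      _ = 4 ^ (9 + m + 1 - 1) := by rw [e1, pow_succ]

lemma fin_check : ∀ t < 32, ∀ e < 249,
    (2 ^ (5 * e) ≤ t ^ (6 * t) → 105 * (3 * e) ≤ 4 * t * e + 105 * (12 * t) ∨ 27 ≤ t) ∧
    (2 ^ (6 * e) ≤ t ^ (7 * t) → 144 * (3 * e) ≤ 5 * t * e + 144 * (14 * t) ∨ 29 ≤ t) ∧
    (2 ^ (7 * e) ≤ t ^ (8 * t) → 189 * (3 * e) ≤ 6 * t * e + 189 * (16 * t)) := by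
  decide +kernel

lemma fin_check5 : ∀ t < 16, ∀ e < 80,
    2 ^ (4 * e) ≤ t ^ (5 * t) → 384 * (3 * e) ≤ 25 * t * e + 384 * (10 * t) := by
  decide +kernel

lemma w1_key {r t e : ℕ} (hr : 6 ≤ r) (ht : 1 ≤ t) (he : e ≤ r * t)
    (hiso : 2 ^ ((r - 1) * e) ≤ t ^ (r * t)) (h : 2 * (r * t) < 3 * e) :
    3 * ((r : ℚ) ^ 2 - 1) * (3 * e - 2 * (r * t)) ≤ ((r : ℚ) - 2) * t * e := by
  have hr' : (6 : ℚ) ≤ r := by exact_mod_cast hr
  have he' : (e : ℚ) ≤ r * t := by exact_mod_cast he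
  by_cases hbig : 3 * ((r : ℚ) ^ 2 - 1) ≤ t * ((r : ℚ) - 2)
  · have h1 : 3 * ((r : ℚ) ^ 2 - 1) * (3 * e - 2 * (r * t)) ≤ 3 * ((r : ℚ) ^ 2 - 1) * e := by
      apply mul_le_mul_of_nonneg_left
      · linarith
      · nlinarith
    have h2 : 3 * ((r : ℚ) ^ 2 - 1) * e ≤ t * ((r : ℚ) - 2) * e :=
      mul_le_mul_of_nonneg_right hbig (by positivity)
    linarith
  · push Not at hbig
    rcases Nat.lt_or_ge r 9 with h9 | h9
    · interval_cases r
      · have ht2 : t < 27 := by
          by_contra hc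
          push Not at hc
          have : (27 : ℚ) ≤ t := by exact_mod_cast hc
          norm_num at hbig
          linarith
        have := (fin_check t (by omega) e (by omega)).1 hiso
        have h3 : 105 * (3 * e) ≤ 4 * t * e + 105 * (12 * t) := by omega
        have h4 : (105 : ℚ) * (3 * e) ≤ 4 * t * e + 105 * (12 * t) := by exact_mod_cast h3
        norm_num
        linarith
      · have ht2 : t < 29 := by
          by_contra hc
          push Not at hc
          have : (29 : ℚ) ≤ t := by exact_mod_cast hc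
          norm_num at hbig
          linarith
        have := (fin_check t (by omega) e (by omega)).2.1 hiso
        have h3 : 144 * (3 * e) ≤ 5 * t * e + 144 * (14 * t) := by omega
        have h4 : (144 : ℚ) * (3 * e) ≤ 5 * t * e + 144 * (14 * t) := by exact_mod_cast h3
        norm_num
        linarith
      · have ht2 : t < 32 := by
          by_contra hc
          push Not at hc
          have : (32 : ℚ) ≤ t := by exact_mod_cast hc
          norm_num at hbig
          linarith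
        have h3 := (fin_check t (by omega) e (by omega)).2.2 hiso
        have h4 : (189 : ℚ) * (3 * e) ≤ 6 * t * e + 189 * (16 * t) := by exact_mod_cast h3
        norm_num
        linarith
    · exfalso
      have h1 := cube_lt (by omega) ht h hiso
      have h2 := pow_big h9
      have h3 : (3 * r + 7) ^ 3 < t ^ 3 := lt_of_le_of_lt h2 h1
      have h4 : 3 * r + 7 < t := lt_of_pow_lt_pow_left₀ _ (by positivity) h3
      have h5 : (3 : ℚ) * r + 8 ≤ t := by exact_mod_cast h4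
      have h6 : (9 : ℚ) ≤ r := by exact_mod_cast h9
      nlinarith

lemma w1_fine {r t e : ℕ} (hr : 6 ≤ r) (ht : 1 ≤ t) (he : e ≤ r * t)
    (hiso : 2 ^ ((r - 1) * e) ≤ t ^ (r * t)) :
    w1 r (r * t) e ≤ (2 * (r : ℚ) - 4) / (3 * r * (r - 1)) := by
  have hr' : (6 : ℚ) ≤ r := by exact_mod_cast hr
  have ht' : (1 : ℚ) ≤ t := by exact_mod_cast ht
  unfold w1
  split_ifs with h
  · apply div_nonneg (by linarith)
    apply mul_nonneg (by linarith) (by linarith)
  · push Not at h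
    have hk := w1_key hr ht he hiso h
    have h0 : (0 : ℚ) < e := by
      have : 0 < e := by
        rcases Nat.eq_zero_or_pos e with h0 | h0
        · subst h0; omega
        · exact h0
      exact_mod_cast this
    push_cast
    rw [div_le_div_iff₀ (by positivity) (by nlinarith)]
    have h5 : (0 : ℚ) ≤ 2 * r := by linarith
    have h6 := mul_le_mul_of_nonneg_left hk h5
    nlinarith

lemma w1_five {t e : ℕ} (ht : 1 ≤ t) (he : e ≤ 5 * t)
    (hiso : 2 ^ (4 * e) ≤ t ^ (5 * t)) :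
    w1 5 (5 * t) e ≤ 5 / 32 := by
  have ht' : (1 : ℚ) ≤ t := by exact_mod_cast ht
  have he' : (e : ℚ) ≤ 5 * t := by exact_mod_cast he
  unfold w1
  split_ifs with h
  · norm_num
  · push Not at h
    have h0 : (0 : ℚ) < e := by
      have : 0 < e := by
        rcases Nat.eq_zero_or_pos e with h0 | h0
        · subst h0; omega
        · exact h0
      exact_mod_cast this
    push_cast
    rw [div_le_div_iff₀ (by positivity) (by norm_num)]
    rcases Nat.lt_or_ge t 16 with h16 | h16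
    · have h3 := fin_check5 t h16 e (by omega) hiso
      have h4 : (384 : ℚ) * (3 * e) ≤ 25 * t * e + 384 * (10 * t) := by exact_mod_cast h3
      nlinarith
    · have h16' : (16 : ℚ) ≤ t := by exact_mod_cast h16
      nlinarith [mul_nonneg h0.le (sub_nonneg.2 h16')]

end Pool.Agent.Helper705
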