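import Pool.Agent.Helper705.Edges
import Pool.Agent.Helper705.Weights

set_option autoImplicit false
set_option linter.unusedSectionVars false

open Finset

namespace Pool.Agent.Helper705

variable {V : Type*} [AddCommGroup V] [Module (ZMod 2) V] [DecidableEq V]

/-- number of pairs for circuits of size r -/
noncomputable def N1 (S C : Finset V) : ℕ := (P S 1 C).card
/-- number of pairs whose basis has its sum in S -/
noncomputable def E1 (S C : Finset V) : ℕ :=
  ((P S 1 C).filter (fun p => p.1 + ∑ x ∈ p.2, x ∈ S)).card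
/-- number of pairs for circuits of size r - 1 -/
noncomputable def N2 (S C : Finset V) : ℕ := (P S 2 C).card

lemma P1_eq {S C : Finset V} (hC : C ∈ circs S) (hcard : C.card = rk S)
    {f : V →ₗ[ZMod 2] ZMod 2} (hf : ∀ c ∈ C, f c = 0) (hS : ∃ z ∈ S, f z ≠ 0) :
    P S 1 C = (C ×ˢ S.filter (fun z => f z ≠ 0)).image (fun p => (p.1, ({p.2} : Finset V))) := by
  ext ⟨x, X⟩
  rw [mem_P, mem_image]
  simp only
  constructor
  · rintro ⟨hx, hXS, hX1, hB⟩
    obtain ⟨z, rfl⟩ := Finset.card_eq_one.1 hX1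
    have hz : z ∈ S := hXS (by simp)
    refine ⟨(x, z), ?_, rfl⟩
    rw [mem_product, mem_filter]
    exact ⟨hx, hz, (one_base_iff hC hcard hf hS hx hz).1 hB⟩
  · rintro ⟨⟨x', z⟩, hp, he⟩
    rw [mem_product, mem_filter] at hp
    simp only [Prod.mk.injEq] at he
    obtain ⟨rfl, rfl⟩ := he
    refine ⟨hp.1, by simpa using hp.2.1, by simp, ?_⟩
    exact one_base hC hcard hf hp.1 hp.2.1 hp.2.2

lemma inj_single : Function.Injective (fun p : V × V => (p.1, ({p.2} : Finset V))) := by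
  rintro ⟨x, z⟩ ⟨x', z'⟩ h
  simp only [Prod.mk.injEq, Finset.singleton_inj] at h
  rw [h.1, h.2]

lemma N1_eq {S C : Finset V} (hC : C ∈ circs S) (hcard : C.card = rk S)
    {f : V →ₗ[ZMod 2] ZMod 2} (hf : ∀ c ∈ C, f c = 0) (hS : ∃ z ∈ S, f z ≠ 0) :
    N1 S C = rk S * (S.filter (fun z => f z ≠ 0)).card := by
  unfold N1
  rw [P1_eq hC hcard hf hS, Finset.card_image_of_injective _ inj_single, Finset.card_product, hcard]

lemma E1_eq {S C : Finset V} (hC : C ∈ circs S) (hcard : C.card = rk S)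
    {f : V →ₗ[ZMod 2] ZMod 2} (hf : ∀ c ∈ C, f c = 0) (hS : ∃ z ∈ S, f z ≠ 0) :
    E1 S C = edg C (S.filter (fun z => f z ≠ 0)) := by
  unfold E1 edg
  rw [P1_eq hC hcard hf hS, Finset.filter_image, Finset.card_image_of_injective _ inj_single]
  congr 1
  apply Finset.filter_congr
  rintro ⟨x, z⟩ hp
  rw [mem_product, mem_filter] at hp
  simp only [Finset.sum_singleton, mem_filter, map_add, hf x hp.1, zero_add]
  constructor
  · intro h; exact ⟨h, hp.2.2⟩
  · intro h; exact h.1

lemma edg_le (C T : Finset V) : edg C T ≤ C.card * T.card := by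
  unfold edg
  rw [← Finset.card_product]
  exact Finset.card_filter_le _ _

/-- the circuit attached to a basis and a subset of it -/
def Cf (B X : Finset V) : Finset V := insert (∑ x ∈ B \ X, x) (B \ X)

lemma Cf_vanish {B X : Finset V} {h : V → V →ₗ[ZMod 2] ZMod 2} (hh : IsCoord B h)
    {i : V} (hi : i ∈ B) (hiX : i ∈ X) : ∀ c ∈ Cf B X, h i c = 0 := by
  intro c hc
  unfold Cf at hc
  rw [mem_insert] at hc
  rcases hc with rfl | hc
  · rw [hh.sum hi Finset.sdiff_subset, if_neg]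
    simp [hiX]
  · have hcB : c ∈ B := (mem_sdiff.1 hc).1
    rw [hh i hi c hcB, if_neg]
    rintro rfl
    exact (mem_sdiff.1 hc).2 hiX

lemma mem_Q1 {S B X : Finset V} (hX : X ∈ Q S 1 B) : ∃ i ∈ Tset S B, X = {i} := by
  rw [mem_Q] at hX
  obtain ⟨i, rfl⟩ := Finset.card_eq_one.1 hX.2.1
  refine ⟨i, ?_, rfl⟩
  rw [mem_Tset]
  refine ⟨hX.1 (by simp), ?_⟩
  rw [← Finset.sdiff_singleton_eq_erase]
  exact hX.2.2

lemma card_Q1 {S B : Finset V} : (Q S 1 B).card = (Tset S B).card := by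
  have : Q S 1 B = (Tset S B).image (fun i => ({i} : Finset V)) := by
    ext X
    rw [mem_image]
    constructor
    · intro hX
      obtain ⟨i, hi, rfl⟩ := mem_Q1 hX
      exact ⟨i, hi, rfl⟩
    · rintro ⟨i, hi, rfl⟩
      rw [mem_Tset] at hi
      rw [mem_Q]
      refine ⟨by simpa using hi.1, by simp, ?_⟩
      rw [Finset.sdiff_singleton_eq_erase]; exact hi.2
  rw [this, Finset.card_image_of_injective]
  intro a b hab
  simpa using hab

lemma Q1_facts {S B : Finset V} (hcos : Cosimple S) (hB : B ∈ bases S) (hr : 5 ≤ rk S)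
    {h : V → V →ₗ[ZMod 2] ZMod 2} (hh : IsCoord B h) {i : V} (hi : i ∈ Tset S B) :
    3 ≤ (S.filter (fun z => h i z ≠ 0)).card ∧
    N1 S (Cf B {i}) = rk S * (S.filter (fun z => h i z ≠ 0)).card ∧
    E1 S (Cf B {i}) = edg (insert (∑ x ∈ B.erase i, x) (B.erase i)) (S.filter (fun z => h i z ≠ 0)) ∧
    E1 S (Cf B {i}) ≤ rk S * (S.filter (fun z => h i z ≠ 0)).card ∧
    2 ^ ((rk S - 1) * E1 S (Cf B {i})) ≤ (S.filter (fun z => h i z ≠ 0)).card ^
      (rk S * (S.filter (fun z => h i z ≠ 0)).card) := by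
  have hBS := (mem_bases.1 hB).1
  have hrB := (mem_bases.1 hB).2.1
  have hiB := (mem_Tset.1 hi).1
  have hX : ({i} : Finset V) ⊆ B := by simpa using hiB
  have hC : Cf B {i} ∈ circs S ∧ (Cf B {i}).card = rk S := by
    have := dc_backward (k := 1) (X := {i}) (by omega) hB hX (by simp) (by
      rw [Finset.sdiff_singleton_eq_erase]; exact (mem_Tset.1 hi).2)
    exact ⟨this.2.1, by unfold Cf; rw [this.2.2]; omega⟩
  have hv := Cf_vanish hh hiB (show i ∈ ({i} : Finset V) by simp)
  have hS : ∃ z ∈ S, h i z ≠ 0 := ⟨i, hBS hiB, by rw [hh i hiB i hiB, if_pos rfl]; exact one_ne_zero⟩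
  have hE := E1_eq hC.1 hC.2 hv hS
  refine ⟨hcos _ hS, N1_eq hC.1 hC.2 hv hS, ?_, ?_, ?_⟩
  · rw [hE]; unfold Cf; rw [Finset.sdiff_singleton_eq_erase]
  · rw [hE]
    have := edg_le (Cf B {i}) (S.filter (fun z => h i z ≠ 0))
    rw [hC.2] at this
    exact this
  · rw [hE]
    have := iso_circ (mem_circs.1 hC.1).2 (S.filter (fun z => h i z ≠ 0))
    rw [hC.2] at this
    exact this

lemma num48 {p q w : ℕ} (hp : p ≤ 3) (hq : q ≤ 3) (hw : w ≤ 3) :
    48 * (1 + p + q + w) ≤ 7 * ((2 + p) * (2 + q) + (2 + q) * (4 + w) + (4 + w) * (2 + p)) := by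
  interval_cases p <;> interval_cases q <;> interval_cases w <;> norm_num

lemma Q2_facts {S B : Finset V} (hcos : Cosimple S) (hB : B ∈ bases S) (hr : 5 ≤ rk S)
    {X : Finset V} (hX : X ∈ Q S 2 B) :
    ∃ β : ℕ, (rk S - 1) * β ≤ N2 S (Cf B X) ∧ 8 ≤ β ∧
      3 * ((Q S 2 B).card + (Tset S B).card + 1) ≤ β + 9 ∧
      (∑ x ∈ B, x ∈ S → 3 * ((Q S 2 B).card + (Tset S B).card + 2) ≤ β + 7) ∧
      (∑ x ∈ B, x ∈ S → rk S = 5 → (Tset S B).card = 5 → 48 * (Q S 2 B).card ≤ 7 * β) := by
  have hBS := (mem_bases.1 hB).1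
  have hI := (mem_bases.1 hB).2.2
  have hrB := (mem_bases.1 hB).2.1
  have hr5 : 5 ≤ B.card := by rw [hrB]; exact hr
  obtain ⟨h, hh⟩ := exists_isCoord hI
  have hX' := mem_Q.1 hX
  obtain ⟨i, j, hij, rfl⟩ := Finset.card_eq_two.1 hX'.2.1
  have hi : i ∈ B := hX'.1 (by simp)
  have hj : j ∈ B := hX'.1 (by simp)
  have hC : Cf B {i, j} ∈ circs S ∧ (Cf B {i, j}).card = rk S - 1 := by
    have := dc_backward (k := 2) (X := {i, j}) (by omega) hB hX'.1 (Finset.card_pair hij) hX'.2.2
    exact ⟨this.2.1, by unfold Cf; rw [this.2.2]; omega⟩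
  have hvi := Cf_vanish hh hi (show i ∈ ({i, j} : Finset V) by simp)
  have hvj := Cf_vanish hh hj (show j ∈ ({i, j} : Finset V) by simp)
  have hn2 := n2_bound hC.1 (by omega) hC.2 hvi hvj
  rw [hC.2] at hn2
  have hA := classA hB hr5 hh hi hj hij
  have hBb := classA hB hr5 hh hj hi (Ne.symm hij)
  have hCc := classC hB hr5 hh hi hj
  have hm := card_Q2_split hij hX
  have hT := card_T_split (Tset S B) hij
  set a := (S.filter (fun z => h i z ≠ 0 ∧ h j z = 0)).card with ha
  set b := (S.filter (fun z => h j z ≠ 0 ∧ h i z = 0)).card with hb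
  set c := (S.filter (fun z => h i z ≠ 0 ∧ h j z ≠ 0)).card with hc
  set p := ((Q S 2 B).filter (fun X => j ∈ X ∧ i ∉ X)).card with hp
  set q := ((Q S 2 B).filter (fun X => i ∈ X ∧ j ∉ X)).card with hq
  set w := ((Q S 2 B).filter (fun X => i ∉ X ∧ j ∉ X)).card with hw
  -- cocircuit sizes
  have s1 : 3 ≤ a + c := by
    have h1 := hcos (h i) ⟨i, hBS hi, by rw [hh i hi i hi, if_pos rfl]; exact one_ne_zero⟩
    rw [← Finset.card_filter_add_card_filter_not (s := S.filter (fun z => h i z ≠ 0))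
      (fun z => h j z = 0)] at h1
    rw [Finset.filter_filter, Finset.filter_filter] at h1
    exact h1
  have s2 : 3 ≤ b + c := by
    have h1 := hcos (h j) ⟨j, hBS hj, by rw [hh j hj j hj, if_pos rfl]; exact one_ne_zero⟩
    rw [← Finset.card_filter_add_card_filter_not (s := S.filter (fun z => h j z ≠ 0))
      (fun z => h i z = 0)] at h1
    rw [Finset.filter_filter, Finset.filter_filter] at h1
    have e : S.filter (fun z => h j z ≠ 0 ∧ ¬ h i z = 0)
        = S.filter (fun z => h i z ≠ 0 ∧ h j z ≠ 0) := by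
      ext z; simp only [mem_filter]; tauto
    rw [e] at h1
    exact h1
  have s3 : 3 ≤ a + b := by
    have h0 : (h i + h j) i ≠ 0 := by
      rw [LinearMap.add_apply, hh i hi i hi, hh j hj i hi, if_pos rfl, if_neg hij]
      decide
    have h1 := hcos (h i + h j) ⟨i, hBS hi, h0⟩
    have e : S.filter (fun z => (h i + h j) z ≠ 0)
        = S.filter (fun z => h i z ≠ 0 ∧ h j z = 0) ∪ S.filter (fun z => h j z ≠ 0 ∧ h i z = 0) := by
      ext z
      simp only [mem_filter, mem_union, LinearMap.add_apply]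
      rcases zmod2_cases (h i z) with e1 | e1 <;> rcases zmod2_cases (h j z) with e2 | e2 <;>
        rw [e1, e2] <;> simp
      intro _; decide
    rw [e] at h1
    exact h1.trans (Finset.card_union_le _ _)
  have hbnd : ∀ {i j : V}, i ∈ B → j ∈ B → i ≠ j → B.card = 5 →
      ((Q S 2 B).filter (fun X => j ∈ X ∧ i ∉ X)).card ≤ 3 := by
    intro i j hi hj hij h5
    have : (Q S 2 B).filter (fun X => j ∈ X ∧ i ∉ X) ⊆
        (B \ {i, j}).image (fun l => ({j, l} : Finset V)) := by
      intro Y hY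
      rw [mem_filter, mem_Q] at hY
      obtain ⟨⟨hYB, hY2, _⟩, hjY, hiY⟩ := hY
      have h1 : (Y.erase j).card = 1 := by rw [Finset.card_erase_of_mem hjY, hY2]
      obtain ⟨l, hl⟩ := Finset.card_eq_one.1 h1
      rw [mem_image]
      have hlY : l ∈ Y.erase j := by rw [hl]; simp
      rw [mem_erase] at hlY
      refine ⟨l, ?_, ?_⟩
      · simp only [mem_sdiff, mem_insert, mem_singleton, not_or]
        exact ⟨hYB hlY.2, fun h => hiY (h ▸ hlY.2), hlY.1⟩
      · rw [← Finset.insert_erase hjY, hl]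
    refine (Finset.card_le_card this).trans (Finset.card_image_le.trans ?_)
    have h2 : ({i, j} : Finset V) ⊆ B := by
      intro x hx
      simp only [mem_insert, mem_singleton] at hx
      rcases hx with rfl | rfl <;> assumption
    rw [Finset.card_sdiff_of_subset h2, Finset.card_pair hij, h5]
  refine ⟨a * b + b * c + c * a, ?_, beta8 s3 s2 s1, ?_, ?_, ?_⟩
  · exact hn2
  · have := beta9 s3 s2 s1
    have h3 : 0 ≤ (if ∑ x ∈ B, x ∈ S then 1 else 0) := Nat.zero_le _
    omega
  · intro hu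
    rw [if_pos hu] at hCc
    have := beta7 (a := a) (b := b) (c := c) (by omega) (by omega) (by omega) s3 s2 s1
    omega
  · intro hu h5 hT5
    rw [if_pos hu] at hCc
    have hB5 : B.card = 5 := by rw [hrB, h5]
    have hTB : Tset S B = B := by
      apply Finset.eq_of_subset_of_card_le
      · unfold Tset; exact Finset.filter_subset _ _
      · rw [hT5, hB5]
    have hiT : i ∈ Tset S B := by rw [hTB]; exact hi
    have hjT : j ∈ Tset S B := by rw [hTB]; exact hj
    rw [if_pos hjT] at hA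
    rw [if_pos hiT] at hBb
    rw [if_pos hiT, if_pos hjT] at hT
    have hp3 : p ≤ 3 := hbnd hi hj hij hB5
    have hq3 : q ≤ 3 := hbnd hj hi (Ne.symm hij) hB5
    have hw3 : w ≤ 3 := by
      have h2 : ({i, j} : Finset V) ⊆ B := hX'.1
      have : (Q S 2 B).filter (fun X => i ∉ X ∧ j ∉ X) ⊆ (B \ {i, j}).powersetCard 2 := by
        intro Y hY
        rw [mem_filter, mem_Q] at hY
        rw [mem_powersetCard]
        refine ⟨?_, hY.1.2.1⟩
        intro x hx
        simp only [mem_sdiff, mem_insert, mem_singleton, not_or]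
        exact ⟨hY.1.1 hx, fun h => hY.2.1 (h ▸ hx), fun h => hY.2.2 (h ▸ hx)⟩
      have h3 := Finset.card_le_card this
      rw [Finset.card_powersetCard, Finset.card_sdiff_of_subset h2, Finset.card_pair hij, hB5] at h3
      exact h3.trans (by decide)
    have h48 := num48 hp3 hq3 hw3
    have ha' : 2 + p ≤ a := by omega
    have hb' : 2 + q ≤ b := by omega
    have hc' : 4 + w ≤ c := by omega
    have m1 := Nat.mul_le_mul ha' hb'
    have m2 := Nat.mul_le_mul hb' hc'
    have m3 := Nat.mul_le_mul hc' ha'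
    rw [hm]
    omega

end Pool.Agent.Helper705
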