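import Pool.Agent.Helper705.Basic

set_option autoImplicit false
set_option linter.unusedSectionVars false

open Finset

namespace Pool.Agent.Helper705

variable {V : Type*} [AddCommGroup V] [Module (ZMod 2) V]

/-- rank of a finite set of vectors -/
noncomputable def rk (S : Finset V) : ℕ := Set.finrank (ZMod 2) (S : Set V)

open Classical in
/-- the bases contained in a finite set of vectors -/
noncomputable def bases (S : Finset V) : Finset (Finset V) :=
  (S.powersetCard (rk S)).filter (fun B => Ind B)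

open Classical in
/-- the circuits contained in a finite set of vectors -/
noncomputable def circs (S : Finset V) : Finset (Finset V) :=
  S.powerset.filter (fun C => Circ C)

lemma mem_bases {S B : Finset V} : B ∈ bases S ↔ B ⊆ S ∧ B.card = rk S ∧ Ind B := by
  classical
  simp only [bases, mem_filter, mem_powersetCard, and_assoc]

lemma mem_circs {S C : Finset V} : C ∈ circs S ↔ C ⊆ S ∧ Circ C := by
  classical
  simp only [circs, mem_filter, mem_powerset]

section
variable [DecidableEq V]

lemma finrank_span_ind {A : Finset V} (h : Ind A) : rk A = A.card :=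
  finrank_span_finset_eq_card ((ind_iff A).1 h)

lemma rk_mono {A S : Finset V} (h : A ⊆ S) : rk A ≤ rk S :=
  Submodule.finrank_mono (Submodule.span_mono (by exact_mod_cast h))

lemma card_le_rk {A S : Finset V} (h : A ⊆ S) (hA : Ind A) : A.card ≤ rk S := by
  rw [← finrank_span_ind hA]; exact rk_mono h

lemma span_eq_of_base {S B : Finset V} (h : B ∈ bases S) :
    Submodule.span (ZMod 2) (B : Set V) = Submodule.span (ZMod 2) (S : Set V) := by
  rw [mem_bases] at h
  apply Submodule.eq_of_le_of_finrank_eq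
  · exact Submodule.span_mono (by exact_mod_cast h.1)
  · have := finrank_span_ind h.2.2
    rw [h.2.1] at this
    exact this

lemma mem_bases_of_span {S B : Finset V} (h1 : B ⊆ S) (h2 : Ind B)
    (h3 : ∀ z ∈ S, z ∈ Submodule.span (ZMod 2) (B : Set V)) : B ∈ bases S := by
  rw [mem_bases]
  refine ⟨h1, ?_, h2⟩
  rw [← finrank_span_ind h2]
  have : Submodule.span (ZMod 2) (B : Set V) = Submodule.span (ZMod 2) (S : Set V) := by
    apply le_antisymm
    · exact Submodule.span_mono (by exact_mod_cast h1)
    · rw [Submodule.span_le]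
      intro z hz
      exact h3 z hz
  unfold rk Set.finrank
  rw [this]

lemma base_repr {S B : Finset V} (h : B ∈ bases S) {z : V} (hz : z ∈ S) :
    ∃ X ⊆ B, ∑ x ∈ X, x = z := by
  rw [← mem_span_iff, span_eq_of_base h]
  exact Submodule.subset_span hz

lemma exists_base_superset {S J : Finset V} (h : J ⊆ S) (hJ : Ind J) :
    ∃ B ∈ bases S, J ⊆ B := by
  obtain ⟨B, hB, hB2, hB3⟩ : ∃ B : Finset V, J ⊆ B ∧ (B ⊆ S ∧ Ind B) ∧
      ∀ B' : Finset V, B ⊆ B' → (B' ⊆ S ∧ Ind B') → B' = B := by
    classical
    have hfin : ((S.powerset.filter (fun B => J ⊆ B ∧ Ind B)) : Finset (Finset V)).Nonempty :=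
      ⟨J, by simp [h, hJ]⟩
    obtain ⟨B, hB, hmax⟩ := Finset.exists_max_image _ Finset.card hfin
    simp only [mem_filter, mem_powerset] at hB hmax
    refine ⟨B, hB.2.1, ⟨hB.1, hB.2.2⟩, ?_⟩
    intro B' h1 h2
    have := hmax B' ⟨h2.1, hB.2.1.trans h1, h2.2⟩
    exact (Finset.eq_of_subset_of_card_le h1 this).symm
  refine ⟨B, mem_bases_of_span hB2.1 hB2.2 ?_, hB⟩
  intro z hz
  by_contra hne
  have h1 := ind_insert hB2.2 hne
  have h2 := hB3 (insert z B) (Finset.subset_insert _ _)
    ⟨Finset.insert_subset hz hB2.1, h1⟩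
  apply hne
  apply Submodule.subset_span
  rw [← h2]
  simp

lemma bases_nonempty (S : Finset V) : (bases S).Nonempty := by
  obtain ⟨B, hB, _⟩ := exists_base_superset (S := S) (J := ∅) (by simp)
    (fun X hX _ => Finset.subset_empty.1 hX)
  exact ⟨B, hB⟩

lemma circ_card_le {S C : Finset V} (h : C ∈ circs S) : C.card ≤ rk S + 1 := by
  rw [mem_circs] at h
  obtain ⟨x, hx⟩ := h.2.1
  have h1 := card_le_rk ((Finset.erase_subset x C).trans h.1) (h.2.ind_erase hx)
  rw [Finset.card_erase_of_mem hx] at h1
  omega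

lemma circ_card_ge {S C : Finset V} (h0 : (0 : V) ∉ S) (h : C ∈ circs S) : 3 ≤ C.card := by
  rw [mem_circs] at h
  have hc := h.2.1
  by_contra hlt
  push Not at hlt
  have hpos : 0 < C.card := Finset.card_pos.2 hc
  have h12 : C.card = 1 ∨ C.card = 2 := by omega
  rcases h12 with h1 | h2
  · obtain ⟨x, rfl⟩ := Finset.card_eq_one.1 h1
    have := h.2.2.1
    simp only [sum_singleton] at this
    subst this
    exact h0 (h.1 (by simp))
  · obtain ⟨x, y, hxy, rfl⟩ := Finset.card_eq_two.1 h2
    have := h.2.2.1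
    rw [Finset.sum_pair hxy, add_eq_zero_iff'] at this
    exact hxy this

/-- no coloop, phrased through linear functionals -/
def NoColoop (S : Finset V) : Prop :=
  ∀ h : V →ₗ[ZMod 2] ZMod 2, (∃ z ∈ S, h z ≠ 0) → 2 ≤ (S.filter (fun z => h z ≠ 0)).card

/-- every cocircuit has at least three elements -/
def Cosimple (S : Finset V) : Prop :=
  ∀ h : V →ₗ[ZMod 2] ZMod 2, (∃ z ∈ S, h z ≠ 0) → 3 ≤ (S.filter (fun z => h z ≠ 0)).card

end

end Pool.Agent.Helper705
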