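import Pool.Agent.Helper705.LemmaA
import Pool.Agent.Helper705.Pairs

set_option autoImplicit false
set_option linter.unusedSectionVars false
set_option linter.unusedVariables false

open Finset

namespace Pool.Agent.Helper705

variable {V : Type*} [AddCommGroup V] [Module (ZMod 2) V] [DecidableEq V]

/-- e, f form a cocircuit of S, witnessed by the functional h -/
structure Ser (S : Finset V) (e f : V) (h : V →ₗ[ZMod 2] ZMod 2) : Prop where
  he : e ∈ S
  hf : f ∈ S
  hef : e ≠ f
  he1 : h e = 1
  hf1 : h f = 1
  h0 : ∀ z ∈ S, z ≠ e → z ≠ f → h z = 0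

variable {S : Finset V} {e f : V} {h : V →ₗ[ZMod 2] ZMod 2}

/-- the remaining elements -/
def S0 (S : Finset V) (e f : V) : Finset V := (S.erase e).erase f
/-- the remaining elements with the sum of the series pair -/
def NN (S : Finset V) (e f : V) : Finset V := insert (e + f) (S0 S e f)

lemma mem_S0 {z : V} : z ∈ S0 S e f ↔ z ≠ f ∧ z ≠ e ∧ z ∈ S := by
  unfold S0; rw [mem_erase, mem_erase]

lemma S0_sub : S0 S e f ⊆ S := fun z hz => (mem_S0.1 hz).2.2

lemma Ser.h_S0 (s : Ser S e f h) {z : V} (hz : z ∈ S0 S e f) : h z = 0 := by
  rw [mem_S0] at hz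
  exact s.h0 z hz.2.2 hz.2.1 hz.1

lemma Ser.h_g (s : Ser S e f h) : h (e + f) = 0 := by
  rw [map_add, s.he1, s.hf1]; decide

lemma Ser.h_NN (s : Ser S e f h) {z : V} (hz : z ∈ NN S e f) : h z = 0 := by
  unfold NN at hz
  rw [mem_insert] at hz
  rcases hz with rfl | hz
  · exact s.h_g
  · exact s.h_S0 hz

lemma Ser.card_S0 (s : Ser S e f h) : (S0 S e f).card + 2 = S.card := by
  unfold S0
  rw [Finset.card_erase_of_mem, Finset.card_erase_of_mem s.he]
  · have : 1 < S.card := Finset.one_lt_card.2 ⟨e, s.he, f, s.hf, s.hef⟩
    omega
  · simp [s.hf, Ne.symm s.hef]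

lemma Ser.card_NN (s : Ser S e f h) : (NN S e f).card < S.card := by
  unfold NN
  have := Finset.card_insert_le (e + f) (S0 S e f)
  have := s.card_S0
  omega

lemma Ser.g_ne_e (h0 : (0 : V) ∉ S) (s : Ser S e f h) : e + f ≠ e := by
  intro h
  have : f = 0 := by simpa using h
  exact h0 (this ▸ s.hf)

lemma Ser.g_ne_f (h0 : (0 : V) ∉ S) (s : Ser S e f h) : e + f ≠ f := by
  intro h
  have : e = 0 := by simpa using h
  exact h0 (this ▸ s.he)

lemma Ser.g_ne_zero (s : Ser S e f h) : e + f ≠ 0 := by
  intro h
  rw [add_eq_zero_iff'] at h
  exact s.hef h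

lemma Ser.g_mem_iff (h0 : (0 : V) ∉ S) (s : Ser S e f h) : e + f ∈ S ↔ e + f ∈ S0 S e f := by
  rw [mem_S0]
  exact ⟨fun h => ⟨s.g_ne_f h0, s.g_ne_e h0, h⟩, fun h => h.2.2⟩

lemma Ser.ind_e (s : Ser S e f h) {B : Finset V} (hB : Ind B) (hv : ∀ b ∈ B, h b = 0) :
    Ind (insert e B) := by
  apply ind_insert hB
  intro hs
  have := vanish_span hv hs
  rw [s.he1] at this
  exact one_ne_zero this

lemma Ser.ind_f (s : Ser S e f h) {B : Finset V} (hB : Ind B) (hv : ∀ b ∈ B, h b = 0) :
    Ind (insert f B) := by
  apply ind_insert hB
  intro hs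
  have := vanish_span hv hs
  rw [s.hf1] at this
  exact one_ne_zero this

lemma Ser.rk_eq (s : Ser S e f h) : rk S = rk (NN S e f) + 1 := by
  obtain ⟨B, hB⟩ := bases_nonempty (NN S e f)
  have hB' := mem_bases.1 hB
  have hv : ∀ b ∈ B, h b = 0 := fun b hb => s.h_NN (hB'.1 hb)
  have hI := s.ind_e hB'.2.2 hv
  have heB : e ∉ B := fun hh => by
    have := hv e hh
    rw [s.he1] at this; exact one_ne_zero this
  have hspan : Submodule.span (ZMod 2) ((insert e B : Finset V) : Set V)
      = Submodule.span (ZMod 2) (S : Set V) := by
    apply le_antisymm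
    · rw [Submodule.span_le]
      intro z hz
      rw [mem_coe, mem_insert] at hz
      rcases hz with rfl | hz
      · exact Submodule.subset_span s.he
      · have := hB'.1 hz
        unfold NN at this
        rw [mem_insert] at this
        rcases this with rfl | h1
        · exact Submodule.add_mem _ (Submodule.subset_span s.he) (Submodule.subset_span s.hf)
        · exact Submodule.subset_span (S0_sub h1)
    · rw [Submodule.span_le]
      intro z hz
      have hBs : Submodule.span (ZMod 2) (B : Set V) ≤
          Submodule.span (ZMod 2) ((insert e B : Finset V) : Set V) :=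
        Submodule.span_mono (by exact_mod_cast Finset.subset_insert e B)
      have he2 : e ∈ Submodule.span (ZMod 2) ((insert e B : Finset V) : Set V) :=
        Submodule.subset_span (by simp)
      have hN : ∀ w ∈ NN S e f, w ∈ Submodule.span (ZMod 2) ((insert e B : Finset V) : Set V) := by
        intro w hw
        apply hBs
        rw [span_eq_of_base hB]
        exact Submodule.subset_span hw
      by_cases hze : z = e
      · rw [hze]; exact he2
      · by_cases hzf : z = f
        · have h1 := hN (e + f) (by unfold NN; simp)
          have h2 := Submodule.add_mem _ he2 h1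
          rw [add_cancel_left] at h2
          rw [hzf]; exact h2
        · apply hN
          unfold NN
          rw [mem_insert, mem_S0]
          right; exact ⟨hzf, hze, hz⟩
  rw [← rk_eq_of_span hspan, finrank_span_ind hI, Finset.card_insert_of_notMem heB, hB'.2.1]

/-- lower bound on the number of bases -/
lemma Ser.bases_ge (s : Ser S e f h) :
    2 * ((bases (NN S e f)).filter (fun B => B ⊆ S0 S e f)).card
      + ((bases (NN S e f)).filter (fun B => e + f ∈ B)).card ≤ (bases S).card := by
  set A := (bases (NN S e f)).filter (fun B => B ⊆ S0 S e f) with hA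
  set D := (bases (NN S e f)).filter (fun B => e + f ∈ B) with hD
  have eA : ∀ B ⊆ S0 S e f, e ∉ B := fun B hB h => (mem_S0.1 (hB h)).2.1 rfl
  have fA : ∀ B ⊆ S0 S e f, f ∉ B := fun B hB h => (mem_S0.1 (hB h)).1 rfl
  have hDsub : ∀ B ∈ D, B.erase (e + f) ⊆ S0 S e f := by
    intro B hB z hz
    rw [hD, mem_filter] at hB
    rw [mem_erase] at hz
    have := (mem_bases.1 hB.1).1 hz.2
    unfold NN at this
    rw [mem_insert] at this
    rcases this with h1 | h1
    · exact absurd h1 hz.1
    · exact h1
  -- the three images
  set I1 := A.image (fun B => insert e B) with hI1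
  set I2 := A.image (fun B => insert f B) with hI2
  set I3 := D.image (fun B => insert e (insert f (B.erase (e + f)))) with hI3
  have c1 : I1.card = A.card := by
    rw [hI1, Finset.card_image_of_injOn]
    intro B hB B' hB' hh
    simp only [hA, coe_filter, Set.mem_ofPred_eq] at hB hB'
    simp only at hh
    rw [← Finset.erase_insert (eA B hB.2), hh, Finset.erase_insert (eA B' hB'.2)]
  have c2 : I2.card = A.card := by
    rw [hI2, Finset.card_image_of_injOn]
    intro B hB B' hB' hh
    simp only [hA, coe_filter, Set.mem_ofPred_eq] at hB hB'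
    simp only at hh
    rw [← Finset.erase_insert (fA B hB.2), hh, Finset.erase_insert (fA B' hB'.2)]
  have c3 : I3.card = D.card := by
    rw [hI3, Finset.card_image_of_injOn]
    intro B hB B' hB' hh
    have s1 := hDsub B hB
    have s2 := hDsub B' hB'
    simp only [hD, coe_filter, Set.mem_ofPred_eq] at hB hB'
    simp only at hh
    have e1 : e ∉ insert f (B.erase (e + f)) := by
      rw [mem_insert, not_or]; exact ⟨s.hef, eA _ s1⟩
    have e2 : e ∉ insert f (B'.erase (e + f)) := by
      rw [mem_insert, not_or]; exact ⟨s.hef, eA _ s2⟩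
    have h3 : insert f (B.erase (e + f)) = insert f (B'.erase (e + f)) := by
      rw [← Finset.erase_insert e1, hh, Finset.erase_insert e2]
    have h4 : B.erase (e + f) = B'.erase (e + f) := by
      rw [← Finset.erase_insert (fA _ s1), h3, Finset.erase_insert (fA _ s2)]
    rw [← Finset.insert_erase hB.2, h4, Finset.insert_erase hB'.2]
  have d12 : Disjoint I1 I2 := by
    rw [Finset.disjoint_left]
    intro X h1 h2
    rw [hI1, mem_image] at h1
    rw [hI2, mem_image] at h2
    obtain ⟨B, hB, rfl⟩ := h1
    obtain ⟨B', hB', he⟩ := h2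
    rw [hA, mem_filter] at hB hB'
    have : e ∈ insert f B' := by rw [he]; simp
    rw [mem_insert] at this
    rcases this with h3 | h3
    · exact s.hef h3
    · exact eA B' hB'.2 h3
  have d123 : Disjoint (I1 ∪ I2) I3 := by
    rw [Finset.disjoint_left]
    intro X h1 h2
    rw [hI3, mem_image] at h2
    obtain ⟨B', hB', he⟩ := h2
    rw [mem_union] at h1
    rcases h1 with h1 | h1
    · rw [hI1, mem_image] at h1
      obtain ⟨B, hB, rfl⟩ := h1
      rw [hA, mem_filter] at hB
      have : f ∈ insert e B := by rw [← he]; simp
      rw [mem_insert] at this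
      rcases this with h3 | h3
      · exact s.hef h3.symm
      · exact fA B hB.2 h3
    · rw [hI2, mem_image] at h1
      obtain ⟨B, hB, rfl⟩ := h1
      rw [hA, mem_filter] at hB
      have : e ∈ insert f B := by rw [← he]; simp
      rw [mem_insert] at this
      rcases this with h3 | h3
      · exact s.hef h3
      · exact eA B hB.2 h3
  have hcard : (I1 ∪ I2 ∪ I3).card = 2 * A.card + D.card := by
    rw [Finset.card_union_of_disjoint d123, Finset.card_union_of_disjoint d12, c1, c2, c3]
    ring
  rw [← hcard]
  apply Finset.card_le_card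
  intro X hX
  rw [mem_union, mem_union] at hX
  have hr := s.rk_eq
  rcases hX with (hX | hX) | hX
  · rw [hI1, mem_image] at hX
    obtain ⟨B, hB, rfl⟩ := hX
    rw [hA, mem_filter] at hB
    have hB' := mem_bases.1 hB.1
    rw [mem_bases]
    refine ⟨Finset.insert_subset s.he (hB.2.trans S0_sub), ?_, ?_⟩
    · rw [Finset.card_insert_of_notMem (eA B hB.2), hB'.2.1, hr]
    · exact s.ind_e hB'.2.2 (fun b hb => s.h_S0 (hB.2 hb))
  · rw [hI2, mem_image] at hX
    obtain ⟨B, hB, rfl⟩ := hX
    rw [hA, mem_filter] at hB
    have hB' := mem_bases.1 hB.1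
    rw [mem_bases]
    refine ⟨Finset.insert_subset s.hf (hB.2.trans S0_sub), ?_, ?_⟩
    · rw [Finset.card_insert_of_notMem (fA B hB.2), hB'.2.1, hr]
    · exact s.ind_f hB'.2.2 (fun b hb => s.h_S0 (hB.2 hb))
  · rw [hI3, mem_image] at hX
    obtain ⟨B, hB, rfl⟩ := hX
    have s1 := hDsub B hB
    rw [hD, mem_filter] at hB
    have hB' := mem_bases.1 hB.1
    have hv1 : ∀ b ∈ B.erase (e + f), h b = 0 := fun b hb => s.h_S0 (s1 hb)
    have hI1 : Ind (B.erase (e + f)) := hB'.2.2.mono (Finset.erase_subset _ _)
    have hI2 : Ind (insert f (B.erase (e + f))) := s.ind_f hI1 hv1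
    have hg : e + f ∉ Submodule.span (ZMod 2) ((B.erase (e + f) : Finset V) : Set V) := by
      apply not_mem_span_of_ind_insert
      · rw [Finset.insert_erase hB.2]; exact hB'.2.2
      · simp
    rw [mem_bases]
    refine ⟨?_, ?_, ?_⟩
    · apply Finset.insert_subset s.he
      apply Finset.insert_subset s.hf
      exact s1.trans S0_sub
    · have hpos : 1 ≤ B.card := Finset.card_pos.2 ⟨_, hB.2⟩
      rw [Finset.card_insert_of_notMem, Finset.card_insert_of_notMem (fA _ s1),
        Finset.card_erase_of_mem hB.2, hr, ← hB'.2.1]
      · omega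
      · rw [mem_insert, not_or]; exact ⟨s.hef, eA _ s1⟩
    · apply ind_insert hI2
      intro hs
      rw [mem_span_iff] at hs
      obtain ⟨X, hX, hXs⟩ := hs
      by_cases hfX : f ∈ X
      · apply hg
        have hsub : X.erase f ⊆ B.erase (e + f) := by
          intro w hw
          rw [mem_erase] at hw
          have := hX hw.2
          rw [mem_insert] at this
          rcases this with h1 | h1
          · exact absurd h1 hw.1
          · exact h1
        rw [mem_span_iff]
        refine ⟨X.erase f, hsub, ?_⟩
        have h1 := Finset.add_sum_erase X (fun x => x) hfX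
        rw [hXs] at h1
        rw [← h1, add_comm f, add_cancel_right]
      · have hsub : X ⊆ B.erase (e + f) := by
          intro w hw
          have := hX hw
          rw [mem_insert] at this
          rcases this with h1 | h1
          · exact absurd (h1 ▸ hw) hfX
          · exact h1
        have h1 : h e = 0 := by
          rw [← hXs]
          apply vanish_span hv1
          rw [mem_span_iff]; exact ⟨X, hsub, rfl⟩
        rw [s.he1] at h1
        exact one_ne_zero h1

lemma Ser.both (s : Ser S e f h) {C : Finset V} (hC : C ∈ circs S) : e ∈ C ↔ f ∈ C := by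
  have hC' := mem_circs.1 hC
  have hsum : ∑ z ∈ C, h z = 0 := by rw [← map_sum, hC'.2.2.1, map_zero]
  constructor
  · intro he
    by_contra hf
    rw [← Finset.add_sum_erase C _ he, s.he1, Finset.sum_eq_zero] at hsum
    · rw [add_zero] at hsum; exact one_ne_zero hsum
    · intro z hz
      rw [mem_erase] at hz
      exact s.h0 z (hC'.1 hz.2) hz.1 (fun h => hf (h ▸ hz.2))
  · intro hf
    by_contra he
    rw [← Finset.add_sum_erase C _ hf, s.hf1, Finset.sum_eq_zero] at hsum
    · rw [add_zero] at hsum; exact one_ne_zero hsum
    · intro z hz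
      rw [mem_erase] at hz
      exact s.h0 z (hC'.1 hz.2) (fun h => he (h ▸ hz.2)) hz.1

/-- upper bound on the number of circuits -/
lemma Ser.circs_le (h0 : (0 : V) ∉ S) (s : Ser S e f h) :
    (circs S).card ≤ (circs (S0 S e f)).card
      + ((circs (NN S e f)).filter (fun C => e + f ∈ C)).card
      + (if e + f ∈ S0 S e f then 1 else 0) := by
  rw [← Finset.card_filter_add_card_filter_not (s := circs S) (fun C => e ∉ C)]
  rw [← Finset.card_filter_add_card_filter_not (s := (circs S).filter (fun C => ¬ e ∉ C))
    (fun C => e + f ∉ C)]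
  have p1 : ((circs S).filter (fun C => e ∉ C)).card ≤ (circs (S0 S e f)).card := by
    apply Finset.card_le_card
    intro C hC
    rw [mem_filter] at hC
    have hC' := mem_circs.1 hC.1
    rw [mem_circs]
    refine ⟨?_, hC'.2⟩
    intro z hz
    rw [mem_S0]
    have hfC : f ∉ C := fun hh => hC.2 ((s.both hC.1).2 hh)
    exact ⟨fun hh => hfC (hh ▸ hz), fun hh => hC.2 (hh ▸ hz), hC'.1 hz⟩
  have p2 : (((circs S).filter (fun C => ¬ e ∉ C)).filter (fun C => e + f ∉ C)).card
      ≤ ((circs (NN S e f)).filter (fun C => e + f ∈ C)).card := by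
    apply Finset.card_le_card_of_injOn (fun C => insert (e + f) ((C.erase e).erase f))
    · intro C hC
      simp only [coe_filter, Set.mem_ofPred_eq, mem_filter, not_not] at hC
      obtain ⟨⟨hC1, heC⟩, hgC⟩ := hC
      have hC' := mem_circs.1 hC1
      have hfC := (s.both hC1).1 heC
      have hfC2 : f ∈ C.erase e := by simp [hfC, Ne.symm s.hef]
      have hgC1 : e + f ∉ (C.erase e).erase f := fun hh =>
        hgC (Finset.mem_of_mem_erase (Finset.mem_of_mem_erase hh))
      have hsumC1 : ∑ x ∈ (C.erase e).erase f, x = e + f := by
        have h1 := Finset.add_sum_erase C (fun x => x) heC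
        have h2 := Finset.add_sum_erase (C.erase e) (fun x => x) hfC2
        rw [hC'.2.2.1] at h1
        rw [← h2, ← add_assoc, add_eq_zero_iff'] at h1
        exact h1.symm
      simp only [coe_filter, Set.mem_ofPred_eq]
      refine ⟨?_, by simp⟩
      rw [mem_circs]
      refine ⟨?_, by simp, ?_, ?_⟩
      · unfold NN
        apply Finset.insert_subset_insert
        intro z hz
        rw [mem_erase, mem_erase] at hz
        rw [mem_S0]
        exact ⟨hz.1, hz.2.1, hC'.1 hz.2.2⟩
      · rw [Finset.sum_insert hgC1, hsumC1, aself]
      · intro X hX hXs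
        by_cases hgX : e + f ∈ X
        · right
          have hsub : X.erase (e + f) ⊆ (C.erase e).erase f := by
            intro w hw
            rw [mem_erase] at hw
            have := hX hw.2
            rw [mem_insert] at this
            rcases this with h1 | h1
            · exact absurd h1 hw.1
            · exact h1
          have heX : e ∉ insert f (X.erase (e + f)) := by
            rw [mem_insert, not_or]
            refine ⟨s.hef, fun hh => ?_⟩
            have := hsub hh
            simp at this
          have hfX : f ∉ X.erase (e + f) := fun hh => by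
            have := hsub hh
            simp at this
          have hXs2 : ∑ x ∈ X.erase (e + f), x = e + f := by
            have h1 := Finset.add_sum_erase X (fun x => x) hgX
            rw [hXs, add_eq_zero_iff'] at h1
            exact h1.symm
          have hz : ∑ x ∈ insert e (insert f (X.erase (e + f))), x = 0 := by
            rw [Finset.sum_insert heX, Finset.sum_insert hfX, hXs2, ← add_assoc, aself]
          have hsub2 : insert e (insert f (X.erase (e + f))) ⊆ C := by
            apply Finset.insert_subset heC
            apply Finset.insert_subset hfC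
            exact hsub.trans ((Finset.erase_subset _ _).trans (Finset.erase_subset _ _))
          rcases hC'.2.2.2 _ hsub2 hz with h1 | h1
          · exact absurd h1 (Finset.insert_ne_empty _ _)
          · rw [← h1, Finset.erase_insert heX, Finset.erase_insert hfX, Finset.insert_erase hgX]
        · left
          have hsub : X ⊆ (C.erase e).erase f := by
            intro w hw
            have := hX hw
            rw [mem_insert] at this
            rcases this with h1 | h1
            · exact absurd (h1 ▸ hw) hgX
            · exact h1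
          rcases hC'.2.2.2 X (hsub.trans ((Finset.erase_subset _ _).trans
            (Finset.erase_subset _ _))) hXs with h1 | h1
          · exact h1
          · exfalso
            have : e ∈ (C.erase e).erase f := hsub (h1 ▸ heC)
            simp at this
    · intro C hC C' hC2 hh
      simp only [coe_filter, Set.mem_ofPred_eq, mem_filter, not_not] at hC hC2
      obtain ⟨⟨hC1, heC⟩, hgC⟩ := hC
      obtain ⟨⟨hC1', heC'⟩, hgC'⟩ := hC2
      have hfC := (s.both hC1).1 heC
      have hfC' := (s.both hC1').1 heC'
      have hgC1 : e + f ∉ (C.erase e).erase f := fun hh =>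
        hgC (Finset.mem_of_mem_erase (Finset.mem_of_mem_erase hh))
      have hgC1' : e + f ∉ (C'.erase e).erase f := fun hh =>
        hgC' (Finset.mem_of_mem_erase (Finset.mem_of_mem_erase hh))
      simp only at hh
      have h1 : (C.erase e).erase f = (C'.erase e).erase f := by
        rw [← Finset.erase_insert hgC1, hh, Finset.erase_insert hgC1']
      have h2 : f ∈ C.erase e := by simp [hfC, Ne.symm s.hef]
      have h2' : f ∈ C'.erase e := by simp [hfC', Ne.symm s.hef]
      rw [← Finset.insert_erase heC, ← Finset.insert_erase h2, h1, Finset.insert_erase h2',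
        Finset.insert_erase heC']
  have p3 : (((circs S).filter (fun C => ¬ e ∉ C)).filter (fun C => ¬ e + f ∉ C)).card
      ≤ (if e + f ∈ S0 S e f then 1 else 0) := by
    split_ifs with hg
    · have : ((circs S).filter (fun C => ¬ e ∉ C)).filter (fun C => ¬ e + f ∉ C)
          ⊆ {{e, f, e + f}} := by
        intro C hC
        simp only [mem_filter, not_not] at hC
        obtain ⟨⟨hC1, heC⟩, hgC⟩ := hC
        have hC' := mem_circs.1 hC1
        have hfC := (s.both hC1).1 heC
        rw [mem_singleton]
        have hs : ∑ z ∈ ({e, f, e + f} : Finset V), z = 0 := by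
          rw [Finset.sum_insert, Finset.sum_pair (Ne.symm (s.g_ne_f h0)), ← add_assoc, aself]
          simp only [mem_insert, mem_singleton, not_or]
          exact ⟨s.hef, Ne.symm (s.g_ne_e h0)⟩
        rcases hC'.2.2.2 {e, f, e + f} (by
          intro z hz
          simp only [mem_insert, mem_singleton] at hz
          rcases hz with rfl | rfl | rfl <;> assumption) hs with h1 | h1
        · simp at h1
        · exact h1.symm
      exact (Finset.card_le_card this).trans (by simp)
    · rw [Nat.le_zero, Finset.card_eq_zero, Finset.filter_eq_empty_iff]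
      intro C hC
      rw [mem_filter, not_not] at hC
      rw [not_not]
      intro hgC
      exact hg ((s.g_mem_iff h0).1 ((mem_circs.1 hC.1).1 hgC))
  omega

end Pool.Agent.Helper705
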