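import Pool.Agent.Helper705.Local
import Pool.Agent.Helper705.Check

set_option autoImplicit false
set_option linter.unusedSectionVars false
set_option linter.unusedVariables false

open Finset

namespace Pool.Agent.Helper705

section lists

/-- sums over sublists of length k -/
def ws : ℕ → List ℕ → (List ℕ → ℕ) → ℕ
  | 0, _, w => w []
  | k + 1, l, w => sumT (fun a l' => ws k l' (fun r => w (a :: r))) l

lemma sumT_nil (g : ℕ → List ℕ → ℕ) : sumT g [] = 0 := rfl
lemma sumT_cons (g : ℕ → List ℕ → ℕ) (a : ℕ) (l : List ℕ) :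
    sumT g (a :: l) = g a l + sumT g l := rfl

variable {V : Type*} [DecidableEq V]

lemma sum_powersetCard_insert {x : V} {s : Finset V} (hx : x ∉ s) (k : ℕ)
    (w : Finset V → ℕ) :
    ∑ A ∈ (insert x s).powersetCard (k + 1), w A
      = ∑ A ∈ s.powersetCard k, w (insert x A) + ∑ A ∈ s.powersetCard (k + 1), w A := by
  rw [Finset.powersetCard_succ_insert hx, Finset.sum_union, add_comm, Finset.sum_image]
  · intro A hA B hB h
    rw [mem_coe, mem_powersetCard] at hA hB
    have h1 : x ∉ A := fun h => hx (hA.1 h)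
    have h2 : x ∉ B := fun h => hx (hB.1 h)
    rw [← Finset.erase_insert h1, h, Finset.erase_insert h2]
  · rw [Finset.disjoint_left]
    intro A hA hA2
    rw [mem_powersetCard] at hA
    rw [mem_image] at hA2
    obtain ⟨B, _, rfl⟩ := hA2
    exact hx (hA.1 (by simp))

lemma ws_le (φ : ℕ → V) : ∀ (k : ℕ) (l : List ℕ) (w : List ℕ → ℕ) (w' : Finset V → ℕ),
    (l.map φ).Nodup → (∀ r, r.Sublist l → r.length = k → w r ≤ w' ((r.map φ).toFinset)) →
    ws k l w ≤ ∑ A ∈ ((l.map φ).toFinset).powersetCard k, w' A := by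
  intro k
  induction k with
  | zero =>
    intro l w w' _ h
    have := h [] (List.nil_sublist l) rfl
    simpa [ws] using this
  | succ k ihk =>
    intro l
    induction l with
    | nil => intro w w' _ _; simp [ws, sumT_nil]
    | cons a l ihl =>
      intro w w' hnd h
      have hnd' : (l.map φ).Nodup := (List.nodup_cons.1 hnd).2
      have ha : φ a ∉ (l.map φ).toFinset := by
        rw [List.mem_toFinset]; exact (List.nodup_cons.1 hnd).1
      have e1 : ((a :: l).map φ).toFinset = insert (φ a) ((l.map φ).toFinset) := by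
        simp [List.toFinset_cons]
      rw [e1, sum_powersetCard_insert ha]
      show sumT _ (a :: l) ≤ _
      rw [sumT_cons]
      apply Nat.add_le_add
      · apply ihk l _ (fun A => w' (insert (φ a) A)) hnd'
        intro r hr hk
        have := h (a :: r) (hr.cons_cons a) (by simp [hk])
        simpa [List.toFinset_cons] using this
      · exact ihl w w' hnd' (fun r hr hk => h r (hr.cons a) hk)

lemma ws_ge (φ : ℕ → V) : ∀ (k : ℕ) (l : List ℕ) (w : List ℕ → ℕ) (w' : Finset V → ℕ),
    (l.map φ).Nodup → (∀ r, r.Sublist l → r.length = k → w' ((r.map φ).toFinset) ≤ w r) →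
    ∑ A ∈ ((l.map φ).toFinset).powersetCard k, w' A ≤ ws k l w := by
  intro k
  induction k with
  | zero =>
    intro l w w' _ h
    have := h [] (List.nil_sublist l) rfl
    simpa [ws] using this
  | succ k ihk =>
    intro l
    induction l with
    | nil =>
      intro w w' _ _
      have h0 : (∅ : Finset V).powersetCard (k + 1) = ∅ := by
        rw [Finset.powersetCard_eq_empty]; simp
      simp [h0]
    | cons a l ihl =>
      intro w w' hnd h
      have hnd' : (l.map φ).Nodup := (List.nodup_cons.1 hnd).2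
      have ha : φ a ∉ (l.map φ).toFinset := by
        rw [List.mem_toFinset]; exact (List.nodup_cons.1 hnd).1
      have e1 : ((a :: l).map φ).toFinset = insert (φ a) ((l.map φ).toFinset) := by
        simp [List.toFinset_cons]
      rw [e1, sum_powersetCard_insert ha]
      show _ ≤ sumT _ (a :: l)
      rw [sumT_cons]
      apply Nat.add_le_add
      · apply ihk l _ (fun A => w' (insert (φ a) A)) hnd'
        intro r hr hk
        have := h (a :: r) (hr.cons_cons a) (by simp [hk])
        simpa [List.toFinset_cons] using this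
      · exact ihl w w' hnd' (fun r hr hk => h r (hr.cons a) hk)

lemma tb_eq (M x : ℕ) : tb M x = M.testBit x := by
  unfold tb
  rw [Bool.eq_iff_iff, Nat.beq_eq, Nat.testBit_eq_decide_div_mod_eq, decide_eq_true_iff]
  show (M >>> x) &&& 1 = 1 ↔ _
  rw [Nat.and_one_is_mod, Nat.shiftRight_eq_div_pow]

lemma mask_testBit (L : List ℕ) (x : ℕ) : (mask L).testBit x = true ↔ x ∈ L := by
  induction L with
  | nil => simp [mask]
  | cons a l ih =>
    simp only [mask, Nat.testBit_or, Bool.or_eq_true, ih, List.mem_cons, Nat.testBit_two_pow,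
      decide_eq_true_iff]
    constructor
    · rintro (h | h)
      · left; exact h.symm
      · right; exact h
    · rintro (h | h)
      · left; exact h.symm
      · right; exact h

lemma cntBit_eq (i : ℕ) (L : List ℕ) :
    cntBit i L = (L.filter (fun a => a.testBit i)).length := by
  induction L with
  | nil => rfl
  | cons a l ih =>
    show Nat.add (cond (tb a i) 1 0) (cntBit i l) = _
    rw [tb_eq, ih]
    cases h : a.testBit i
    · simp [List.filter_cons, h]
    · simp [List.filter_cons, h, Nat.add_comm]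

lemma allSub_sound (chk : List ℕ → ℕ → Bool) (q : ℕ → Bool) : ∀ (E L : List ℕ),
    allSub chk E L = true →
    force (chk ((E.filter q).reverse ++ L)) (mask ((E.filter q).reverse ++ L)) = true := by
  intro E
  induction E with
  | nil => intro L h; simpa [allSub] using h
  | cons e E ih =>
    intro L h
    have h' : cond (allSub chk E (e :: L)) (allSub chk E L) false = true := h
    cases h1 : allSub chk E (e :: L)
    · rw [h1] at h'; simp at h'
    · rw [h1] at h'
      have h2 : allSub chk E L = true := h'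
      cases hq : q e
      · rw [List.filter_cons, hq]
        exact ih L h2
      · rw [List.filter_cons, hq]
        have := ih (e :: L) h1
        simpa using this

lemma force_sound {f : ℕ → Bool} {n : ℕ} (hn : n ≠ 0) (h : force f n = true) : f n = true := by
  cases n with
  | zero => exact absurd rfl hn
  | succ n => exact h

end lists

variable {V : Type*} [AddCommGroup V] [Module (ZMod 2) V] [DecidableEq V]

lemma ind_empty : Ind (∅ : Finset V) := fun X hX _ => Finset.subset_empty.1 hX

lemma ind_insert_of {x : V} {A : Finset V} (hA : Ind A) (h : ∀ X ⊆ A, ∑ z ∈ X, z ≠ x) :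
    Ind (insert x A) := by
  apply ind_insert hA
  rw [mem_span_iff]
  rintro ⟨X, hX, hs⟩
  exact h X hX hs

lemma sub_insert {X A : Finset V} {y : V} (hX : X ⊆ insert y A) :
    ∃ X' ⊆ A, ∑ z ∈ X, z = ∑ z ∈ X', z ∨ ∑ z ∈ X, z = y + ∑ z ∈ X', z := by
  refine ⟨X.erase y, ?_, ?_⟩
  · intro w hw
    rw [mem_erase] at hw
    have := hX hw.2
    rw [mem_insert] at this
    tauto
  · by_cases hy : y ∈ X
    · right; exact (Finset.add_sum_erase X (fun x => x) hy).symm
    · left; rw [Finset.erase_eq_of_notMem hy]

lemma sum_sub_one {X : Finset V} {y : V} (hX : X ⊆ {y}) : ∑ z ∈ X, z = 0 ∨ ∑ z ∈ X, z = y := by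
  rcases Finset.subset_singleton_iff.1 hX with rfl | rfl
  · left; simp
  · right; simp

lemma sum_sub_two {X : Finset V} {x y : V} (hX : X ⊆ {x, y}) :
    ∑ z ∈ X, z = 0 ∨ ∑ z ∈ X, z = y ∨ ∑ z ∈ X, z = x ∨ ∑ z ∈ X, z = x + y := by
  obtain ⟨X', hX', h⟩ := sub_insert hX
  rcases sum_sub_one hX' with h1 | h1 <;> rw [h1] at h <;> rcases h with h | h <;> rw [h] <;> simp

lemma sum_sub_three {X : Finset V} {x y z : V} (hX : X ⊆ {x, y, z}) :
    ∑ w ∈ X, w = 0 ∨ ∑ w ∈ X, w = x ∨ ∑ w ∈ X, w = y ∨ ∑ w ∈ X, w = z ∨
    ∑ w ∈ X, w = x + y ∨ ∑ w ∈ X, w = x + z ∨ ∑ w ∈ X, w = y + z ∨ ∑ w ∈ X, w = x + (y + z) := by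
  obtain ⟨X', hX', h⟩ := sub_insert hX
  rcases sum_sub_two hX' with h1 | h1 | h1 | h1 <;> rw [h1] at h <;>
    rcases h with h | h <;> rw [h] <;> simp

lemma ind2 {x y : V} (hx : x ≠ 0) (hy : y ≠ 0) (hxy : x ≠ y) : Ind ({x, y} : Finset V) := by
  apply ind_insert_of
  · rw [← insert_empty_eq]
    apply ind_insert_of ind_empty
    intro X hX
    rw [Finset.subset_empty.1 hX]
    simpa using hy.symm
  · intro X hX
    rcases sum_sub_one hX with h | h <;> rw [h]
    · exact hx.symm
    · exact hxy.symm

lemma ind3 {x y z : V} (hx : x ≠ 0) (hy : y ≠ 0) (hz : z ≠ 0) (hxy : x ≠ y) (hxz : x ≠ z)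
    (hyz : y ≠ z) (h3 : x + y + z ≠ 0) : Ind ({x, y, z} : Finset V) := by
  apply ind_insert_of (ind2 hy hz hyz)
  intro X hX
  rcases sum_sub_two hX with h | h | h | h <;> rw [h]
  · exact hx.symm
  · exact hxz.symm
  · exact hxy.symm
  · intro he
    apply h3
    rw [← he]
    rw [show y + z + y + z = (y + y) + (z + z) by abel, aself, aself, add_zero]

lemma ind4 {x y z w : V} (hx : x ≠ 0) (hy : y ≠ 0) (hz : z ≠ 0) (hw : w ≠ 0)
    (hxy : x ≠ y) (hxz : x ≠ z) (hxw : x ≠ w) (hyz : y ≠ z) (hyw : y ≠ w) (hzw : z ≠ w)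
    (h1 : x + y + z ≠ 0) (h2 : x + y + w ≠ 0) (h3 : x + z + w ≠ 0) (h4 : y + z + w ≠ 0)
    (h5 : x + y + z + w ≠ 0) : Ind ({x, y, z, w} : Finset V) := by
  have key : ∀ a b : V, x = a + b → x + a + b = 0 := by
    rintro a b rfl
    rw [show a + b + a + b = (a + a) + (b + b) by abel, aself, aself, add_zero]
  apply ind_insert_of (ind3 hy hz hw hyz hyw hzw h4)
  intro X hX
  rcases sum_sub_three hX with h | h | h | h | h | h | h | h <;> rw [h]
  · exact hx.symm
  · exact hxy.symm
  · exact hxz.symm
  · exact hxw.symm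
  · exact fun he => h1 (key _ _ he.symm)
  · exact fun he => h2 (key _ _ he.symm)
  · exact fun he => h3 (key _ _ he.symm)
  · intro he
    apply h5
    have := key _ _ he.symm
    rw [← this]; abel

open Classical in
/-- circuits of size j+1 counted through independent sets of size j -/
lemma circ_count (S : Finset V) {j : ℕ} (hj : 2 ≤ j) :
    (j + 1) * cN S (j + 1)
      = ((S.powersetCard j).filter (fun A => Ind A ∧ ∑ x ∈ A, x ∈ S)).card := by
  rw [Finset.card_eq_sum_card_fiberwise (f := fun A => insert (∑ x ∈ A, x) A)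
    (t := (circs S).filter (fun C => C.card = j + 1))]
  · rw [Finset.sum_congr rfl (g := fun _ => j + 1)]
    · rw [Finset.sum_const, smul_eq_mul, mul_comm]
      rfl
    · intro C hC
      rw [mem_filter, mem_circs] at hC
      have : ((S.powersetCard j).filter (fun A => Ind A ∧ ∑ x ∈ A, x ∈ S)).filter
          (fun A => insert (∑ x ∈ A, x) A = C) = C.image (fun x => C.erase x) := by
        ext A
        simp only [mem_filter, mem_powersetCard, mem_image]
        constructor
        · rintro ⟨⟨⟨hAS, hAj⟩, hAI, hAs⟩, rfl⟩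
          refine ⟨∑ x ∈ A, x, by simp, ?_⟩
          rw [Finset.erase_insert (sum_notMem hAI (by omega))]
        · rintro ⟨x, hx, rfl⟩
          rw [hC.1.2.sum_erase hx]
          refine ⟨⟨⟨(Finset.erase_subset _ _).trans hC.1.1, ?_⟩, hC.1.2.ind_erase hx,
            hC.1.1 hx⟩, Finset.insert_erase hx⟩
          rw [Finset.card_erase_of_mem hx, hC.2]; omega
      rw [this, Finset.card_image_of_injOn, hC.2]
      intro x hx y hy hxy
      by_contra hne
      have h1 : x ∈ C.erase y := by
        rw [mem_coe] at hx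
        simp [hne, hx]
      simp only at hxy
      rw [← hxy] at h1
      simp at h1
  · intro A hA
    simp only [coe_filter, Set.mem_ofPred_eq, mem_powersetCard] at hA
    have hn := sum_notMem hA.2.1 (by omega)
    simp only [coe_filter, Set.mem_ofPred_eq, mem_circs]
    refine ⟨⟨Finset.insert_subset hA.2.2 hA.1.1, circ_insert hA.2.1 hn⟩, ?_⟩
    rw [Finset.card_insert_of_notMem hn, hA.1.2]

end Pool.Agent.Helper705
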