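import Pool.Agent.Helper705.Pointwise

set_option autoImplicit false
set_option linter.unusedSectionVars false

open Finset

namespace Pool.Agent.Helper705

variable {V : Type*} [AddCommGroup V] [Module (ZMod 2) V] [DecidableEq V]

lemma Rpart {S B : Finset V} (hr : 5 ≤ rk S) {κ : ℚ} (hκ : 0 < κ)
    (h : ∀ X ∈ Q S 2 B, ∃ β : ℕ, (rk S - 1) * β ≤ N2 S (Cf B X) ∧
      κ * (Q S 2 B).card ≤ β) :
    ∑ X ∈ Q S 2 B, ((rk S : ℚ) + 1) / N2 S (Cf B X) ≤ ((rk S : ℚ) + 1) / (((rk S : ℚ) - 1) * κ) := by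
  have hr' : (5 : ℚ) ≤ rk S := by exact_mod_cast hr
  rcases Finset.eq_empty_or_nonempty (Q S 2 B) with he | hne
  · rw [he, Finset.sum_empty]
    apply div_nonneg (by linarith)
    apply mul_nonneg (by linarith) hκ.le
  · have hm : (0 : ℚ) < (Q S 2 B).card := by exact_mod_cast Finset.card_pos.2 hne
    have h1 : ∀ X ∈ Q S 2 B, ((rk S : ℚ) + 1) / N2 S (Cf B X) ≤
        ((rk S : ℚ) + 1) / (((rk S : ℚ) - 1) * (κ * (Q S 2 B).card)) := by
      intro X hX
      obtain ⟨β, h1, h2⟩ := h X hX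
      have h3 : ((rk S : ℚ) - 1) * β ≤ N2 S (Cf B X) := by
        have : (((rk S - 1 : ℕ) : ℚ)) * β ≤ N2 S (Cf B X) := by exact_mod_cast h1
        rw [Nat.cast_sub (by omega)] at this
        exact_mod_cast this
      have h4 : ((rk S : ℚ) - 1) * (κ * (Q S 2 B).card) ≤ ((rk S : ℚ) - 1) * β :=
        mul_le_mul_of_nonneg_left h2 (by linarith)
      apply div_le_div_of_nonneg_left (by linarith)
      · apply mul_pos (by linarith) (mul_pos hκ hm)
      · linarith
    refine (Finset.sum_le_sum h1).trans (le_of_eq ?_)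
    rw [Finset.sum_const, nsmul_eq_mul]
    have : (rk S : ℚ) - 1 ≠ 0 := by linarith
    field_simp

/-- total load received by a basis -/
noncomputable def load (S B : Finset V) : ℚ :=
  ∑ X ∈ Q S 1 B, (if ∑ x ∈ B, x ∈ S then w1 (rk S) (N1 S (Cf B X)) (E1 S (Cf B X))
    else w0 (rk S) (N1 S (Cf B X)) (E1 S (Cf B X)))
  + ∑ X ∈ Q S 2 B, ((rk S : ℚ) + 1) / N2 S (Cf B X)

lemma sum_le_card_mul {α : Type*} (s : Finset α) (f : α → ℚ) (b : ℚ) (h : ∀ x ∈ s, f x ≤ b) :
    ∑ x ∈ s, f x ≤ s.card * b := by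
  have := Finset.sum_le_card_nsmul s f b h
  rwa [nsmul_eq_mul] at this

theorem load_le_zero {S B : Finset V} (hcos : Cosimple S) (hB : B ∈ bases S) (hr : 5 ≤ rk S)
    (hu : ∑ x ∈ B, x ∉ S) : load S B ≤ 4 := by
  have hI := (mem_bases.1 hB).2.2
  have hrB := (mem_bases.1 hB).2.1
  have hr' : (5 : ℚ) ≤ rk S := by exact_mod_cast hr
  obtain ⟨h, hh⟩ := exists_isCoord hI
  have hτr : (Tset S B).card ≤ rk S := by
    rw [← hrB]; exact Finset.card_le_card (by unfold Tset; exact Finset.filter_subset _ _)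
  unfold load
  simp only [if_neg hu]
  rcases Nat.lt_or_ge (Tset S B).card 2 with hτ | hτ
  · have h1 : ∑ X ∈ Q S 1 B, w0 (rk S) (N1 S (Cf B X)) (E1 S (Cf B X))
        ≤ (Q S 1 B).card * (2 * ((rk S : ℚ) + 1) / rk S) := by
      apply sum_le_card_mul
      intro X hX
      obtain ⟨i, hi, rfl⟩ := mem_Q1 hX
      obtain ⟨f1, f2, _⟩ := Q1_facts hcos hB hr hh hi
      rw [f2]
      exact w0_crude (by omega) f1
    have h2 := Rpart (S := S) (B := B) hr (κ := 1) one_pos (fun X hX => by
      obtain ⟨β, g1, g2, g3, _⟩ := Q2_facts hcos hB hr hX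
      refine ⟨β, g1, ?_⟩
      rw [one_mul]
      have : (Q S 2 B).card ≤ β := by omega
      exact_mod_cast this)
    have h3 : ((Q S 1 B).card : ℚ) ≤ 1 := by
      rw [card_Q1]
      have : (Tset S B).card ≤ 1 := by omega
      exact_mod_cast this
    have h4 : ((Q S 1 B).card : ℚ) * (2 * ((rk S : ℚ) + 1) / rk S) ≤ 2 * ((rk S : ℚ) + 1) / rk S := by
      have : (0 : ℚ) ≤ 2 * ((rk S : ℚ) + 1) / rk S := by positivity
      nlinarith
    have h5 : 2 * ((rk S : ℚ) + 1) / rk S + ((rk S : ℚ) + 1) / (((rk S : ℚ) - 1) * 1) ≤ 4 := by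
      rw [mul_one, div_add_div _ _ (by linarith) (by linarith), div_le_iff₀ (by nlinarith)]
      nlinarith
    linarith
  · have hτ' : (2 : ℚ) ≤ (Tset S B).card := by exact_mod_cast hτ
    have h1 : ∑ X ∈ Q S 1 B, w0 (rk S) (N1 S (Cf B X)) (E1 S (Cf B X))
        ≤ (Q S 1 B).card * (20 * ((rk S : ℚ) + 1) / (7 * rk S * (Tset S B).card)) := by
      apply sum_le_card_mul
      intro X hX
      obtain ⟨i, hi, rfl⟩ := mem_Q1 hX
      obtain ⟨f1, f2, f3, _⟩ := Q1_facts hcos hB hr hh hi
      obtain ⟨k, k1, k2⟩ := edge_bound hB (by omega) hu hh hi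
      rw [f2, k1]
      apply w0_fine hr hτr (by omega)
      rw [f3]
      exact k2
    have h2 := Rpart (S := S) (B := B) hr (κ := 3) (by norm_num) (fun X hX => by
      obtain ⟨β, g1, g2, g3, _⟩ := Q2_facts hcos hB hr hX
      refine ⟨β, g1, ?_⟩
      have : 3 * (Q S 2 B).card ≤ β := by omega
      exact_mod_cast this)
    have h4 : ((Q S 1 B).card : ℚ) * (20 * ((rk S : ℚ) + 1) / (7 * rk S * (Tset S B).card))
        = 20 * ((rk S : ℚ) + 1) / (7 * rk S) := by
      rw [card_Q1]
      field_simp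
    have h5 : 20 * ((rk S : ℚ) + 1) / (7 * rk S) + ((rk S : ℚ) + 1) / (((rk S : ℚ) - 1) * 3) ≤ 4 := by
      rw [div_add_div _ _ (by linarith) (by linarith), div_le_iff₀ (by nlinarith)]
      nlinarith
    linarith

theorem load_le_one {S B : Finset V} (hcos : Cosimple S) (hB : B ∈ bases S) (hr : 5 ≤ rk S)
    (hu : ∑ x ∈ B, x ∈ S) : load S B ≤ 1 := by
  have hI := (mem_bases.1 hB).2.2
  have hrB := (mem_bases.1 hB).2.1
  have hr' : (5 : ℚ) ≤ rk S := by exact_mod_cast hr
  obtain ⟨h, hh⟩ := exists_isCoord hI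
  have hτr : (Tset S B).card ≤ rk S := by
    rw [← hrB]; exact Finset.card_le_card (by unfold Tset; exact Finset.filter_subset _ _)
  unfold load
  simp only [if_pos hu]
  rcases Nat.eq_zero_or_pos (Tset S B).card with hτ | hτ
  · have h1 : Q S 1 B = ∅ := by
      rw [← Finset.card_eq_zero, card_Q1, hτ]
    rw [h1, Finset.sum_empty, zero_add]
    have h2 := Rpart (S := S) (B := B) hr (κ := 3 / 2) (by norm_num) (fun X hX => by
      obtain ⟨β, g1, g2, g3, g4, _⟩ := Q2_facts hcos hB hr hX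
      refine ⟨β, g1, ?_⟩
      have g5 := g4 hu
      have : 3 * (Q S 2 B).card ≤ 2 * β := by
        have : 1 ≤ (Q S 2 B).card := Finset.card_pos.2 ⟨X, hX⟩
        omega
      have h3 : (3 : ℚ) * (Q S 2 B).card ≤ 2 * β := by exact_mod_cast this
      linarith)
    refine h2.trans ?_
    rw [div_le_one (by nlinarith)]
    linarith
  · rcases Nat.eq_or_lt_of_le hr with h5 | h6
    · -- rank five
      have h1 : ∑ X ∈ Q S 1 B, w1 (rk S) (N1 S (Cf B X)) (E1 S (Cf B X))
          ≤ (Q S 1 B).card * (5 / 32) := by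
        apply sum_le_card_mul
        intro X hX
        obtain ⟨i, hi, rfl⟩ := mem_Q1 hX
        obtain ⟨f1, f2, f3, f4, f5⟩ := Q1_facts hcos hB hr hh hi
        rw [f2, ← h5]
        rw [← h5] at f4 f5
        exact w1_five (by omega) f4 f5
      rw [card_Q1] at h1
      have hm10 : (Q S 2 B).card ≤ 10 := by
        have h3 : Q S 2 B ⊆ B.powersetCard 2 := by unfold Q; exact Finset.filter_subset _ _
        have h4 := Finset.card_le_card h3
        rw [Finset.card_powersetCard, hrB, ← h5] at h4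
        exact h4.trans (by decide)
      have hr5 : (rk S : ℚ) = 5 := by exact_mod_cast h5.symm
      rcases Nat.lt_or_ge (Tset S B).card 4 with ht | ht
      · have h2 := Rpart (S := S) (B := B) hr (κ := 3) (by norm_num) (fun X hX => by
          obtain ⟨β, g1, g2, g3, g4, _⟩ := Q2_facts hcos hB hr hX
          refine ⟨β, g1, ?_⟩
          have g5 := g4 hu
          have : 3 * (Q S 2 B).card ≤ β := by omega
          exact_mod_cast this)
        have h3 : ((Tset S B).card : ℚ) ≤ 3 := by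
          have : (Tset S B).card ≤ 3 := by omega
          exact_mod_cast this
        rw [hr5] at h2 ⊢
        norm_num at h2
        linarith
      · rcases Nat.eq_or_lt_of_le ht with ht4 | ht5
        · have h2 := Rpart (S := S) (B := B) hr (κ := 4) (by norm_num) (fun X hX => by
            obtain ⟨β, g1, g2, g3, g4, _⟩ := Q2_facts hcos hB hr hX
            refine ⟨β, g1, ?_⟩
            have g5 := g4 hu
            have : 4 * (Q S 2 B).card ≤ β := by omega
            exact_mod_cast this)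
          have h3 : ((Tset S B).card : ℚ) = 4 := by exact_mod_cast ht4.symm
          rw [hr5] at h2 ⊢
          rw [h3] at h1
          norm_num at h2 h1
          linarith
        · have hT5 : (Tset S B).card = 5 := by omega
          have h2 := Rpart (S := S) (B := B) hr (κ := 48 / 7) (by norm_num) (fun X hX => by
            obtain ⟨β, g1, g2, g3, g4, g5⟩ := Q2_facts hcos hB hr hX
            refine ⟨β, g1, ?_⟩
            have g6 := g5 hu h5.symm hT5
            have : (48 : ℚ) * (Q S 2 B).card ≤ 7 * β := by exact_mod_cast g6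
            linarith)
          have h3 : ((Tset S B).card : ℚ) = 5 := by exact_mod_cast hT5
          rw [hr5] at h2 ⊢
          rw [h3] at h1
          norm_num at h2 h1
          linarith
    · have h6 : 6 ≤ rk S := h6
      have h1 : ∑ X ∈ Q S 1 B, w1 (rk S) (N1 S (Cf B X)) (E1 S (Cf B X))
          ≤ (Q S 1 B).card * ((2 * (rk S : ℚ) - 4) / (3 * rk S * (rk S - 1))) := by
        apply sum_le_card_mul
        intro X hX
        obtain ⟨i, hi, rfl⟩ := mem_Q1 hX
        obtain ⟨f1, f2, f3, f4, f5⟩ := Q1_facts hcos hB hr hh hi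
        rw [f2]
        exact w1_fine h6 (by omega) f4 f5
      rw [card_Q1] at h1
      have h2 := Rpart (S := S) (B := B) hr (κ := 3) (by norm_num) (fun X hX => by
        obtain ⟨β, g1, g2, g3, g4, _⟩ := Q2_facts hcos hB hr hX
        refine ⟨β, g1, ?_⟩
        have g5 := g4 hu
        have : 3 * (Q S 2 B).card ≤ β := by omega
        exact_mod_cast this)
      have hτr' : ((Tset S B).card : ℚ) ≤ rk S := by exact_mod_cast hτr
      have h3 : ((Tset S B).card : ℚ) * ((2 * (rk S : ℚ) - 4) / (3 * rk S * (rk S - 1)))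
          ≤ rk S * ((2 * (rk S : ℚ) - 4) / (3 * rk S * (rk S - 1))) := by
        apply mul_le_mul_of_nonneg_right hτr'
        apply div_nonneg (by linarith)
        apply mul_nonneg (by linarith) (by linarith)
      have h4 : (rk S : ℚ) * ((2 * (rk S : ℚ) - 4) / (3 * rk S * (rk S - 1)))
          = (2 * (rk S : ℚ) - 4) / (((rk S : ℚ) - 1) * 3) := by
        have a1 : (rk S : ℚ) ≠ 0 := by linarith
        have a2 : (rk S : ℚ) - 1 ≠ 0 := by linarith
        field_simp
      have h5 : (2 * (rk S : ℚ) - 4) / (((rk S : ℚ) - 1) * 3) +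
          ((rk S : ℚ) + 1) / (((rk S : ℚ) - 1) * 3) = 1 := by
        have a2 : (rk S : ℚ) - 1 ≠ 0 := by linarith
        field_simp
        ring
      linarith

lemma P_nonempty {S C : Finset V} {k : ℕ} (hk : k ≤ rk S) (hC : C ∈ circs S)
    (hcard : C.card = rk S + 1 - k) : (P S k C).Nonempty := by
  have hC' := mem_circs.1 hC
  obtain ⟨x, hx⟩ := hC'.2.1
  have h1 : (C.erase x).card = rk S - k := by
    rw [Finset.card_erase_of_mem hx, hcard]; omega
  obtain ⟨B, hB, hsub⟩ := exists_base_superset ((Finset.erase_subset x C).trans hC'.1)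
    (hC'.2.ind_erase hx)
  refine ⟨(x, B \ C.erase x), ?_⟩
  rw [mem_P]
  refine ⟨hx, Finset.sdiff_subset.trans (mem_bases.1 hB).1, ?_, ?_⟩
  · simp only
    rw [Finset.card_sdiff_of_subset hsub, h1, (mem_bases.1 hB).2.1]; omega
  · simp only
    rw [Finset.union_sdiff_of_subset hsub]; exact hB

lemma inner1 {S C : Finset V} (hr : 1 ≤ rk S) (hC : C ∈ circs S) (hcard : C.card = rk S) :
    ∑ p ∈ P S 1 C, (if p.1 + ∑ x ∈ p.2, x ∈ S then w1 (rk S) (N1 S C) (E1 S C)
      else w0 (rk S) (N1 S C) (E1 S C)) = 2 * ((rk S : ℚ) + 1) := by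
  have hN : 1 ≤ N1 S C := Finset.card_pos.2 (P_nonempty hr hC (by omega))
  rw [Finset.sum_ite, Finset.sum_const, Finset.sum_const, nsmul_eq_mul, nsmul_eq_mul]
  have h1 := Finset.card_filter_add_card_filter_not (s := P S 1 C)
    (fun p => p.1 + ∑ x ∈ p.2, x ∈ S)
  have h2 : (((P S 1 C).filter (fun p => ¬ (p.1 + ∑ x ∈ p.2, x ∈ S))).card : ℚ)
      = (N1 S C : ℚ) - E1 S C := by
    have h3 : (((P S 1 C).filter (fun p => p.1 + ∑ x ∈ p.2, x ∈ S)).card : ℚ)
      + ((P S 1 C).filter (fun p => ¬ (p.1 + ∑ x ∈ p.2, x ∈ S))).card = (P S 1 C).card := by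
      exact_mod_cast h1
    unfold N1 E1
    linarith
  rw [h2]
  have := w_sum (r := rk S) (e := E1 S C) hN
  unfold E1 at this ⊢
  linarith

lemma inner2 {S C : Finset V} (hr : 2 ≤ rk S) (hC : C ∈ circs S) (hcard : C.card = rk S - 1) :
    ∑ _p ∈ P S 2 C, ((rk S : ℚ) + 1) / N2 S C = (rk S : ℚ) + 1 := by
  have hN : 1 ≤ N2 S C := Finset.card_pos.2 (P_nonempty hr hC (by omega))
  have hN' : (N2 S C : ℚ) ≠ 0 := by
    have : (1 : ℚ) ≤ N2 S C := by exact_mod_cast hN
    linarith
  rw [Finset.sum_const, nsmul_eq_mul]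
  change (N2 S C : ℚ) * _ = _
  field_simp

lemma inner0 {S C : Finset V} (hC : C ∈ circs S) (hcard : C.card = rk S + 1) :
    ∑ _p ∈ P S 0 C, (1 : ℚ) = (rk S : ℚ) + 1 := by
  have hC' := mem_circs.1 hC
  have h1 : P S 0 C = C.image (fun x => (x, (∅ : Finset V))) := by
    ext ⟨x, X⟩
    rw [mem_P, mem_image]
    simp only [Prod.mk.injEq]
    constructor
    · rintro ⟨hx, _, hX, _⟩
      exact ⟨x, hx, rfl, (Finset.card_eq_zero.1 hX).symm⟩
    · rintro ⟨x', hx, rfl, rfl⟩
      refine ⟨hx, by simp, by simp, ?_⟩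
      rw [Finset.union_empty, mem_bases]
      refine ⟨(Finset.erase_subset _ _).trans hC'.1, ?_, hC'.2.ind_erase hx⟩
      rw [Finset.card_erase_of_mem hx, hcard]; omega
  rw [h1, Finset.sum_const, nsmul_eq_mul, Finset.card_image_of_injective, hcard]
  · push_cast; ring
  · intro a b hab
    simpa using hab

lemma innerB0 {S B : Finset V} :
    ∑ _X ∈ Q S 0 B, (1 : ℚ) = if ∑ x ∈ B, x ∈ S then 1 else 0 := by
  have h1 : Q S 0 B = if ∑ x ∈ B, x ∈ S then {∅} else ∅ := by
    ext X
    rw [mem_Q]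
    split_ifs with h
    · rw [mem_singleton]
      constructor
      · rintro ⟨_, h2, _⟩; exact Finset.card_eq_zero.1 h2
      · rintro rfl; exact ⟨by simp, by simp, by simpa using h⟩
    · constructor
      · rintro ⟨_, h2, h3⟩
        rw [Finset.card_eq_zero.1 h2, Finset.sdiff_empty] at h3
        exact absurd h3 h
      · intro h2; simp at h2
  rw [h1]
  split_ifs <;> simp

theorem star {S : Finset V} (hcos : Cosimple S) (hr : 5 ≤ rk S) :
    (rk S + 1) * (3 * cN S (rk S + 1) + 2 * cN S (rk S) + cN S (rk S - 1))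
      ≤ 4 * (bases S).card := by
  classical
  have k0 := double_count (S := S) (k := 0) (by omega) (fun _ _ _ => (1 : ℚ))
  have k1 := double_count (S := S) (k := 1) (by omega) (fun C x X =>
    if x + ∑ y ∈ X, y ∈ S then w1 (rk S) (N1 S C) (E1 S C) else w0 (rk S) (N1 S C) (E1 S C))
  have k2 := double_count (S := S) (k := 2) (by omega) (fun C _ _ =>
    ((rk S : ℚ) + 1) / N2 S C)
  have e1 : rk S + 1 - 1 = rk S := by omega
  have e2 : rk S + 1 - 2 = rk S - 1 := by omega
  have e0 : rk S + 1 - 0 = rk S + 1 := by omega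
  rw [e0] at k0
  rw [e1] at k1
  rw [e2] at k2
  have l0 : ∑ C ∈ (circs S).filter (fun C => C.card = rk S + 1), ∑ _p ∈ P S 0 C, (1 : ℚ)
      = cN S (rk S + 1) * ((rk S : ℚ) + 1) := by
    rw [Finset.sum_congr rfl (g := fun _ => (rk S : ℚ) + 1)]
    · rw [Finset.sum_const, nsmul_eq_mul]; rfl
    · intro C hC
      rw [mem_filter] at hC
      exact inner0 hC.1 hC.2
  rw [l0, Finset.sum_congr rfl (fun B _ => innerB0)] at k0
  have l1 : ∑ C ∈ (circs S).filter (fun C => C.card = rk S), ∑ p ∈ P S 1 C,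
      (if p.1 + ∑ y ∈ p.2, y ∈ S then w1 (rk S) (N1 S C) (E1 S C)
        else w0 (rk S) (N1 S C) (E1 S C)) = cN S (rk S) * (2 * ((rk S : ℚ) + 1)) := by
    rw [Finset.sum_congr rfl (g := fun _ => 2 * ((rk S : ℚ) + 1))]
    · rw [Finset.sum_const, nsmul_eq_mul]; rfl
    · intro C hC
      rw [mem_filter] at hC
      exact inner1 (by omega) hC.1 hC.2
  rw [l1] at k1
  have l2 : ∑ C ∈ (circs S).filter (fun C => C.card = rk S - 1), ∑ _p ∈ P S 2 C,
      ((rk S : ℚ) + 1) / N2 S C = cN S (rk S - 1) * ((rk S : ℚ) + 1) := by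
    rw [Finset.sum_congr rfl (g := fun _ => (rk S : ℚ) + 1)]
    · rw [Finset.sum_const, nsmul_eq_mul]; rfl
    · intro C hC
      rw [mem_filter] at hC
      exact inner2 (by omega) hC.1 hC.2
  rw [l2] at k2
  have hload : ∑ B ∈ bases S, load S B = cN S (rk S) * (2 * ((rk S : ℚ) + 1))
      + cN S (rk S - 1) * ((rk S : ℚ) + 1) := by
    rw [k1, k2, ← Finset.sum_add_distrib]
    apply Finset.sum_congr rfl
    intro B hB
    unfold load
    congr 1
    apply Finset.sum_congr rfl
    intro X hX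
    rw [mem_Q] at hX
    rw [Finset.sum_sdiff hX.1]
    rfl
  have hle : ∑ B ∈ bases S, load S B ≤ ∑ B ∈ bases S,
      ((4 : ℚ) - 3 * (if ∑ x ∈ B, x ∈ S then 1 else 0)) := by
    apply Finset.sum_le_sum
    intro B hB
    split_ifs with hu
    · have := load_le_one hcos hB hr hu
      linarith
    · have := load_le_zero hcos hB hr hu
      linarith
  rw [hload, Finset.sum_sub_distrib, ← Finset.mul_sum, ← k0, Finset.sum_const, nsmul_eq_mul] at hle
  have goal : ((rk S : ℚ) + 1) * (3 * cN S (rk S + 1) + 2 * cN S (rk S) + cN S (rk S - 1))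
      ≤ 4 * (bases S).card := by linarith
  exact_mod_cast goal

end Pool.Agent.Helper705
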